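import Pool.Agent.Helper26.Nb.Fib

/-! # Almost every quasi-momentum -/

set_option autoImplicit false

open MeasureTheory Filter Topology ProbabilityTheory
open scoped BigOperators ENNReal NNReal InnerProductSpace ComplexConjugate

namespace Pool.Agent.Helper26.Nb

open Pool.Agent.H5R2.NB

variable {d : ℕ}

/-- orthonormal family of characters -/
structure Bes {𝕂 : Type} [MeasurableSpace 𝕂] (m : Measure 𝕂) (e : 𝕂 → Site d → ℂ) : Prop where
  meas : ∀ x, Measurable fun k => e k x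
  one : ∀ k x, ‖e k x‖ = 1
  orth : ∀ x y, ∫ k, conj (e k x) * e k y ∂m = if x = y then 1 else 0

variable {𝕂 : Type} [MeasurableSpace 𝕂] {m : Measure 𝕂} [IsProbabilityMeasure m]
  {e : 𝕂 → Site d → ℂ}

lemma Bes.sum (h : Bes m e) (s : Finset (Site d)) (w : Site d → L2 (Site d)) :
    ∫⁻ k, ‖∑ x ∈ s, e k x • w x‖ₑ ^ 2 ∂m = ∑ x ∈ s, ‖w x‖ₑ ^ 2 := by
  set F : 𝕂 → L2 (Site d) := fun k => ∑ x ∈ s, e k x • w x with hF
  have hFm : StronglyMeasurable F :=
    Finset.stronglyMeasurable_fun_sum _ fun x _ => (h.meas x).stronglyMeasurable.smul_const _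
  have h1 : ∀ k, ((‖F k‖ ^ 2 : ℝ) : ℂ) =
      ∑ x ∈ s, ∑ y ∈ s, (conj (e k x) * e k y) * ⟪w x, w y⟫_ℂ := by
    intro k
    have h2 := inner_self_eq_norm_sq_to_K (𝕜 := ℂ) (F k)
    push_cast
    rw [show ((‖F k‖ : ℝ) : ℂ) ^ 2 = ⟪F k, F k⟫_ℂ from h2.symm]
    rw [hF]
    simp only
    rw [sum_inner]
    refine Finset.sum_congr rfl fun x _ => ?_
    rw [inner_sum]
    refine Finset.sum_congr rfl fun y _ => ?_
    rw [inner_smul_left, inner_smul_right]
    ring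
  have hint : ∀ x y, Integrable (fun k => conj (e k x) * e k y) m := by
    intro x y
    refine Integrable.of_bound (C := 1) ?_ ?_
    · exact ((Complex.continuous_conj.measurable.comp (h.meas x)).mul
        (h.meas y)).aestronglyMeasurable
    · refine Eventually.of_forall fun k => ?_
      rw [norm_mul, RCLike.norm_conj, h.one, h.one, one_mul]
  have h3 : ∫ k, ((‖F k‖ ^ 2 : ℝ) : ℂ) ∂m = ((∑ x ∈ s, ‖w x‖ ^ 2 : ℝ) : ℂ) := by
    simp only [h1]
    rw [integral_finsetSum]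
    · push_cast
      refine Finset.sum_congr rfl fun x hx => ?_
      rw [integral_finsetSum]
      · simp only [integral_mul_const, h.orth]
        rw [Finset.sum_eq_single x]
        · rw [if_pos rfl, one_mul]
          exact inner_self_eq_norm_sq_to_K (𝕜 := ℂ) (w x)
        · intro y _ hy
          rw [if_neg (Ne.symm hy), zero_mul]
        · intro hx'
          exact absurd hx hx'
      · intro y _
        exact (hint x y).mul_const _
    · intro x _
      exact integrable_finsetSum _ fun y _ => (hint x y).mul_const _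
  have h4 : ∫ k, ‖F k‖ ^ 2 ∂m = ∑ x ∈ s, ‖w x‖ ^ 2 := by
    rw [integral_complex_ofReal] at h3
    exact_mod_cast h3
  have h5 : Integrable (fun k => ‖F k‖ ^ 2) m := by
    refine Integrable.of_bound (C := (∑ x ∈ s, ‖w x‖) ^ 2) ?_ ?_
    · exact (hFm.norm.pow 2).aestronglyMeasurable
    · refine Eventually.of_forall fun k => ?_
      rw [Real.norm_of_nonneg (by positivity)]
      gcongr
      refine (norm_sum_le _ _).trans (Finset.sum_le_sum fun x _ => ?_)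
      rw [norm_smul, h.one, one_mul]
  have h6 := ofReal_integral_eq_lintegral_ofReal h5 (Eventually.of_forall fun _ => by positivity)
  rw [h4, ENNReal.ofReal_sum_of_nonneg (fun _ _ => by positivity)] at h6
  have e1 : ∀ z : L2 (Site d), ENNReal.ofReal (‖z‖ ^ 2) = ‖z‖ₑ ^ 2 := by
    intro z
    rw [ENNReal.ofReal_pow (norm_nonneg _), ofReal_norm]
  simp only [e1] at h6
  exact h6.symm

lemma shift_norm {z : Site d} {S : L2 (Site d) →L[ℂ] L2 (Site d)} (hS : IsShift z S)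
    (ψ : L2 (Site d)) : ‖S ψ‖ = ‖ψ‖ := by
  have h1 : ‖S ψ‖ ^ 2 = ‖ψ‖ ^ 2 := by
    rw [norm_sq, norm_sq]
    have h2 : ∀ x, ‖(S ψ) x‖ ^ 2 = (fun x => ‖ψ x‖ ^ 2) ((Equiv.addRight z) x) := by
      intro x
      rw [hS]
      rfl
    simp only [h2]
    exact (Equiv.addRight z).tsum_eq fun x => ‖ψ x‖ ^ 2
  exact (pow_left_inj₀ (norm_nonneg _) (norm_nonneg _) (by norm_num)).1 h1

section

variable {c : ℝ} {ev : (Site d → ℝ) → UG (L2 (Site d))}

/-- averaged evolution of a truncated Bloch function -/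
noncomputable def xB (ev : (Site d → ℝ) → UG (L2 (Site d))) (N M : ℕ) (u : Site d → ℂ)
    (φ : (Site d → ℝ) → ℂ) (V : Site d → ℝ × ℝ) : L2 (Site d) :=
  xP (ev (A1 V)) (ev (A2 V)) N (Ws (box d (M ^ 2)) id (Bl u φ (A2 V)))

lemma xB_eq (N M : ℕ) (u : Site d → ℂ) (φ : (Site d → ℝ) → ℂ) (V : Site d → ℝ × ℝ) :
    xB ev N M u φ V = ∑ y ∈ box d (M ^ 2),
      u y • (φ (sh y (A2 V)) • xP (ev (A1 V)) (ev (A2 V)) N (dl y)) := by
  unfold xB Ws
  rw [xP_sum]
  refine Finset.sum_congr rfl fun y _ => ?_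
  unfold Bl
  rw [smul_smul]
  rfl

lemma sm_xB (hev : ∀ V, IsGrp c V (ev V)) (N M : ℕ) {Y : Type} [MeasurableSpace Y]
    {u : Y → Site d → ℂ} (hu : ∀ x, Measurable fun y => u y x) {φ : (Site d → ℝ) → ℂ}
    (hφ : StronglyMeasurable φ) :
    StronglyMeasurable fun p : Y × (Site d → ℝ × ℝ) => xB ev N M (u p.1) φ p.2 := by
  simp only [xB_eq]
  refine Finset.stronglyMeasurable_fun_sum _ fun y _ => ?_
  have a1 : StronglyMeasurable fun p : Y × (Site d → ℝ × ℝ) => u p.1 y :=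
    ((hu y).comp measurable_fst).stronglyMeasurable
  have a2 : StronglyMeasurable fun p : Y × (Site d → ℝ × ℝ) => φ (sh y (A2 p.2)) :=
    hφ.comp_measurable ((meas_sh y).comp (cont_A2.measurable.comp measurable_snd))
  have a3 : StronglyMeasurable fun p : Y × (Site d → ℝ × ℝ) =>
      xP (ev (A1 p.2)) (ev (A2 p.2)) N (dl y) :=
    (cont_xPx hev N (dl y)).stronglyMeasurable.comp_measurable measurable_snd
  exact a1.smul (a2.smul a3)

lemma sm_xB' (hev : ∀ V, IsGrp c V (ev V)) (N M : ℕ) (u : Site d → ℂ) {φ : (Site d → ℝ) → ℂ}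
    (hφ : StronglyMeasurable φ) : StronglyMeasurable (xB ev N M u φ) := by
  have e0 : xB ev N M u φ = fun V => ∑ y ∈ box d (M ^ 2),
      u y • (φ (sh y (A2 V)) • xP (ev (A1 V)) (ev (A2 V)) N (dl y)) :=
    funext fun V => xB_eq N M u φ V
  rw [e0]
  refine Finset.stronglyMeasurable_fun_sum _ fun y _ => ?_
  have a2 : StronglyMeasurable fun V : Site d → ℝ × ℝ => φ (sh y (A2 V)) :=
    hφ.comp_measurable ((meas_sh y).comp cont_A2.measurable)
  have a3 : StronglyMeasurable fun V : Site d → ℝ × ℝ =>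
      xP (ev (A1 V)) (ev (A2 V)) N (dl y) := (cont_xPx hev N (dl y)).stronglyMeasurable
  exact (a2.smul a3).const_smul (u y)

lemma norm_xP_dl (hev : ∀ V, IsGrp c V (ev V)) (V : Site d → ℝ × ℝ) (N : ℕ) (z : Site d) :
    ‖xP (ev (A1 V)) (ev (A2 V)) N (dl z)‖ =
      ‖xP (ev (A1 (sh z V))) (ev (A2 (sh z V))) N (dl 0)‖ := by
  obtain ⟨S, hS⟩ := (t_OPS d).1 (-z)
  rw [xP_shift hev hS, shift_norm hS]
  rfl

theorem int_k (hev : ∀ V, IsGrp c V (ev V)) (ρ : Measure (ℝ × ℝ)) [IsProbabilityMeasure ρ]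
    (h : Bes m e) {φ : (Site d → ℝ) → ℂ} (hφ : StronglyMeasurable φ) (N M : ℕ) :
    ∫⁻ k, ∫⁻ V, ‖xB ev N M (e k) φ V‖ₑ ^ 2 ∂(PQ d ρ) ∂m =
      ((M : ℝ≥0∞) ^ d) ^ 2 * ∫⁻ V, ‖φ (A2 V)‖ₑ ^ 2 *
        ‖xP (ev (A1 V)) (ev (A2 V)) N (dl 0)‖ₑ ^ 2 ∂(PQ d ρ) := by
  rw [lintegral_lintegral_swap]
  · have h1 : ∀ V, ∫⁻ k, ‖xB ev N M (e k) φ V‖ₑ ^ 2 ∂m = ∑ y ∈ box d (M ^ 2),
        (fun V => ‖φ (A2 V)‖ₑ ^ 2 * ‖xP (ev (A1 V)) (ev (A2 V)) N (dl 0)‖ₑ ^ 2) (sh y V) := by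
      intro V
      simp only [xB_eq]
      rw [h.sum]
      refine Finset.sum_congr rfl fun y _ => ?_
      rw [enorm_smul, mul_pow]
      congr 2
      rw [← ofReal_norm, ← ofReal_norm, norm_xP_dl hev]
    simp only [h1]
    have hm : Measurable fun V : Site d → ℝ × ℝ => ‖φ (A2 V)‖ₑ ^ 2 *
        ‖xP (ev (A1 V)) (ev (A2 V)) N (dl 0)‖ₑ ^ 2 := by
      have a1 : Measurable fun V : Site d → ℝ × ℝ => ‖φ (A2 V)‖ₑ ^ 2 :=
        (hφ.comp_measurable cont_A2.measurable).enorm.pow_const 2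
      have a2 : Measurable fun V : Site d → ℝ × ℝ =>
          ‖xP (ev (A1 V)) (ev (A2 V)) N (dl 0)‖ₑ ^ 2 :=
        (cont_xPx hev N (dl 0)).stronglyMeasurable.enorm.pow_const 2
      exact a1.mul a2
    rw [lintegral_finsetSum]
    · rw [Finset.sum_congr rfl (g := fun _ => ∫⁻ V, ‖φ (A2 V)‖ₑ ^ 2 *
        ‖xP (ev (A1 V)) (ev (A2 V)) N (dl 0)‖ₑ ^ 2 ∂(PQ d ρ))]
      · rw [Finset.sum_const, card_box, nsmul_eq_mul]
        congr 1
        push_cast
        rw [← pow_mul, ← pow_mul, mul_comm]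
      · intro y _
        exact (mp_sh (d := d) ρ y).lintegral_comp hm
    · intro y _
      exact hm.comp (meas_sh y)
  · have h2 := sm_xB hev N M h.meas hφ
    exact (h2.enorm.pow_const 2).aemeasurable

end

end Pool.Agent.Helper26.Nb
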