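import Pool.Agent.Helper26.Nb.Disj

/-! # Boxes and truncated Bloch functions: deterministic estimates -/

set_option autoImplicit false

open MeasureTheory Filter Topology ProbabilityTheory
open scoped BigOperators ENNReal NNReal InnerProductSpace ComplexConjugate

namespace Pool.Agent.Helper26.Nb

open Pool.Agent.H5R2.NB

variable {d : ℕ}

/-- translation of the environment -/
def sh {α : Type} (x : Site d) (V : Site d → α) : Site d → α := fun y => V (y + x)

/-- the box `[0,L)^d` -/
noncomputable def box (d L : ℕ) : Finset (Site d) := Fintype.piFinset fun _ => Finset.Ico (0 : ℤ) L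

lemma card_box (L : ℕ) : (box d L).card = L ^ d := by
  unfold box
  simp [Fintype.card_piFinset]

lemma mem_box {L : ℕ} {x : Site d} : x ∈ box d L ↔ ∀ i, 0 ≤ x i ∧ x i < L := by
  unfold box
  simp [Fintype.mem_piFinset]

/-- a face -/
noncomputable def face (d L : ℕ) (i : Fin d) (a : ℤ) : Finset (Site d) :=
  Fintype.piFinset (Function.update (fun _ => Finset.Ico (0 : ℤ) L) i {a})

lemma card_face (L : ℕ) (i : Fin d) (a : ℤ) : (face d L i a).card = L ^ (d - 1) := by
  unfold face
  rw [Fintype.card_piFinset]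
  have h1 : ∀ j, (Function.update (fun _ => Finset.Ico (0 : ℤ) L) i {a} j).card =
      Function.update (fun _ : Fin d => L) i 1 j := by
    intro j
    by_cases h : j = i
    · subst h; simp
    · simp [Function.update_of_ne h]
  simp only [h1]
  rw [Finset.prod_update_of_mem (Finset.mem_univ i)]
  rw [Finset.prod_const, one_mul]
  congr 1
  rw [Finset.card_sdiff]
  simp

lemma mem_face {L : ℕ} {i : Fin d} {a : ℤ} {x : Site d} :
    x ∈ face d L i a ↔ x i = a ∧ ∀ j, j ≠ i → 0 ≤ x j ∧ x j < L := by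
  unfold face
  rw [Fintype.mem_piFinset]
  constructor
  · intro h
    refine ⟨by simpa using h i, fun j hj => ?_⟩
    simpa [Function.update_of_ne hj] using h j
  · rintro ⟨h1, h2⟩ j
    by_cases hj : j = i
    · subst hj; simpa using h1
    · simpa [Function.update_of_ne hj] using h2 j hj

/-- the translated box -/
noncomputable def boxs (d L : ℕ) (g : Site d) : Finset (Site d) := (box d L).map (addRightEmbedding g)

lemma mem_boxs {L : ℕ} {g x : Site d} : x ∈ boxs d L g ↔ x - g ∈ box d L := by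
  unfold boxs
  rw [Finset.mem_map]
  constructor
  · rintro ⟨y, hy, rfl⟩
    simpa using hy
  · intro h
    exact ⟨x - g, h, by simp⟩

lemma sub1 (L : ℕ) (i : Fin d) : boxs d L (Pi.single i 1) \ box d L ⊆ face d L i L := by
  intro x hx
  rw [Finset.mem_sdiff, mem_boxs, mem_box, mem_box] at hx
  obtain ⟨h1, h2⟩ := hx
  have h3 : ∀ j, j ≠ i → 0 ≤ x j ∧ x j < L := by
    intro j hj
    have := h1 j
    simpa [Pi.single_eq_of_ne hj] using this
  rw [mem_face]
  refine ⟨?_, h3⟩
  have h4 := h1 i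
  simp at h4
  by_contra hne
  apply h2
  intro j
  by_cases hj : j = i
  · subst hj
    omega
  · exact h3 j hj

lemma sub2 (L : ℕ) (i : Fin d) : box d L \ boxs d L (Pi.single i 1) ⊆ face d L i 0 := by
  intro x hx
  rw [Finset.mem_sdiff, mem_boxs, mem_box, mem_box] at hx
  obtain ⟨h1, h2⟩ := hx
  rw [mem_face]
  refine ⟨?_, fun j _ => h1 j⟩
  by_contra hne
  apply h2
  intro j
  by_cases hj : j = i
  · subst hj
    have := h1 j
    simp
    omega
  · simpa [Pi.single_eq_of_ne hj] using h1 j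

lemma sub3 (L : ℕ) (i : Fin d) : boxs d L (-Pi.single i 1) \ box d L ⊆ face d L i (-1) := by
  intro x hx
  rw [Finset.mem_sdiff, mem_boxs, mem_box, mem_box] at hx
  obtain ⟨h1, h2⟩ := hx
  have h3 : ∀ j, j ≠ i → 0 ≤ x j ∧ x j < L := by
    intro j hj
    have := h1 j
    simpa [Pi.single_eq_of_ne hj] using this
  rw [mem_face]
  refine ⟨?_, h3⟩
  have h4 := h1 i
  simp at h4
  by_contra hne
  apply h2
  intro j
  by_cases hj : j = i
  · subst hj
    omega
  · exact h3 j hj

lemma sub4 (L : ℕ) (i : Fin d) : box d L \ boxs d L (-Pi.single i 1) ⊆ face d L i (L - 1) := by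
  intro x hx
  rw [Finset.mem_sdiff, mem_boxs, mem_box, mem_box] at hx
  obtain ⟨h1, h2⟩ := hx
  rw [mem_face]
  refine ⟨?_, fun j _ => h1 j⟩
  by_contra hne
  apply h2
  intro j
  by_cases hj : j = i
  · subst hj
    have := h1 j
    simp
    omega
  · simpa [Pi.single_eq_of_ne hj] using h1 j

/-- finite combination of basis vectors -/
noncomputable def Ws (s : Finset (Site d)) (τ : Site d → Site d) (a : Site d → ℂ) : L2 (Site d) :=
  ∑ y ∈ s, a y • dl (τ y)

lemma orth (τ : Site d → Site d) (hτ : Function.Injective τ) :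
    Orthonormal ℂ fun y : Site d => (dl (τ y) : L2 (Site d)) := by
  rw [orthonormal_iff_ite]
  intro x y
  rw [STAT.inner_dl]
  unfold dl
  rw [lp.single_apply]
  by_cases h : x = y
  · subst h; simp
  · have : τ y ≠ τ x := fun h' => h (hτ h').symm
    simp [h, Pi.single_eq_of_ne this.symm]

lemma norm_Ws (s : Finset (Site d)) (τ : Site d → Site d) (hτ : Function.Injective τ)
    (a : Site d → ℂ) : ‖Ws s τ a‖ₑ ^ 2 = ∑ y ∈ s, ‖a y‖ₑ ^ 2 := by
  have h1 : ‖Ws s τ a‖ ^ 2 = ∑ y ∈ s, ‖a y‖ ^ 2 := by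
    have h2 := (orth τ hτ).inner_sum a a s
    have h3 : ((‖Ws s τ a‖ ^ 2 : ℝ) : ℂ) = ((∑ y ∈ s, ‖a y‖ ^ 2 : ℝ) : ℂ) := by
      have h4 := inner_self_eq_norm_sq_to_K (𝕜 := ℂ) (Ws s τ a)
      push_cast
      rw [show ((‖Ws s τ a‖ : ℝ) : ℂ) ^ 2 = ⟪Ws s τ a, Ws s τ a⟫_ℂ from h4.symm]
      unfold Ws
      rw [h2]
      refine Finset.sum_congr rfl fun y _ => ?_
      rw [mul_comm, Complex.mul_conj, Complex.normSq_eq_norm_sq]
      push_cast
      rfl
    exact_mod_cast h3
  rw [← ofReal_norm, ← ENNReal.ofReal_pow (norm_nonneg _), h1,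
    ENNReal.ofReal_sum_of_nonneg fun _ _ => by positivity]
  refine Finset.sum_congr rfl fun y _ => ?_
  rw [← ofReal_norm, ENNReal.ofReal_pow (norm_nonneg _)]

lemma Ws_apply (s : Finset (Site d)) (a : Site d → ℂ) (x : Site d) :
    (Ws s id a) x = if x ∈ s then a x else 0 := by
  rw [← STAT.inner_dl x]
  unfold Ws
  rw [inner_sum]
  simp only [inner_smul_right, STAT.inner_dl]
  have h : ∀ y : Site d, (dl (id y) : L2 (Site d)) x = if y = x then 1 else 0 := by
    intro y
    unfold dl
    rw [lp.single_apply]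
    by_cases h : y = x
    · subst h; simp
    · simp [h]
  simp only [h]
  simp

lemma dl_apply (x y : Site d) : (dl y : L2 (Site d)) x = if y = x then 1 else 0 := by
  unfold dl
  rw [lp.single_apply]
  by_cases h : y = x
  · subst h; simp
  · simp [h, Pi.single_eq_of_ne (Ne.symm h)]

lemma hop_dl {c : ℝ} {K : L2 (Site d) →L[ℂ] L2 (Site d)} (hK : IsHop c K) (y : Site d) :
    K (dl y) = (c : ℂ) • ∑ i : Fin d, (dl (y - Pi.single i 1) + dl (y + Pi.single i 1)) := by
  refine lp.ext (funext fun x => ?_)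
  have key : ∀ i : Fin d, ((dl y : L2 (Site d)) (x + Pi.single i 1) +
      (dl y : L2 (Site d)) (x - Pi.single i 1)) =
      ((dl (y - Pi.single i 1) + dl (y + Pi.single i 1) : L2 (Site d)) x) := by
    intro i
    rw [lp.coeFn_add, Pi.add_apply, dl_apply, dl_apply, dl_apply, dl_apply]
    congr 1
    · simp only [sub_eq_iff_eq_add]
    · simp only [eq_sub_iff_add_eq]
  have h1 : ((c : ℂ) • ∑ i : Fin d, (dl (y - Pi.single i 1) + dl (y + Pi.single i 1)) :
      L2 (Site d)) x = (c : ℂ) *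
        ∑ i : Fin d, ((dl (y - Pi.single i 1) + dl (y + Pi.single i 1) : L2 (Site d)) x) := by
    rw [lp.coeFn_smul, Pi.smul_apply, smul_eq_mul, OPS.coe_sum]
  rw [hK, h1]
  simp only [← key]
  rfl

lemma shift_sum (L : ℕ) (g : Site d) (u : Site d → ℂ) :
    ∑ x ∈ box d L, u (x + g) • (dl x : L2 (Site d)) = Ws (boxs d L g) (fun y => y - g) u := by
  unfold Ws boxs
  rw [Finset.sum_map]
  refine Finset.sum_congr rfl fun x _ => ?_
  simp

lemma Ws_diff (s t : Finset (Site d)) (τ : Site d → Site d) (a : Site d → ℂ) :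
    Ws s τ a - Ws t τ a = Ws (s \ t) τ a - Ws (t \ s) τ a := by
  unfold Ws
  exact (Finset.sum_sdiff_sub_sum_sdiff).symm

/-- the four boundary terms -/
noncomputable def bt (L : ℕ) (u : Site d → ℂ) (i : Fin d) : L2 (Site d) :=
  (Ws (box d L \ boxs d L (Pi.single i 1)) (fun y => y - Pi.single i 1) u -
    Ws (boxs d L (Pi.single i 1) \ box d L) (fun y => y - Pi.single i 1) u) +
  (Ws (box d L \ boxs d L (-Pi.single i 1)) (fun y => y + Pi.single i 1) u -
    Ws (boxs d L (-Pi.single i 1) \ box d L) (fun y => y + Pi.single i 1) u)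

lemma resid {c : ℝ} {K : L2 (Site d) →L[ℂ] L2 (Site d)} (hK : IsHop c K) (L : ℕ)
    (u : Site d → ℂ) :
    K (Ws (box d L) id u) - Ws (box d L) id (hopf c u) = (c : ℂ) • ∑ i : Fin d, bt L u i := by
  have e1 : K (Ws (box d L) id u) = (c : ℂ) • ∑ i : Fin d,
      (Ws (box d L) (fun y => y - Pi.single i 1) u +
        Ws (box d L) (fun y => y + Pi.single i 1) u) := by
    unfold Ws
    rw [map_sum]
    simp only [map_smul, hop_dl hK, id]
    simp only [← Finset.sum_add_distrib]
    rw [Finset.sum_comm, Finset.smul_sum]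
    refine Finset.sum_congr rfl fun y _ => ?_
    rw [smul_comm, Finset.smul_sum]
    simp only [smul_add]
  have e2 : Ws (box d L) id (hopf c u) = (c : ℂ) • ∑ i : Fin d,
      (Ws (boxs d L (Pi.single i 1)) (fun y => y - Pi.single i 1) u +
        Ws (boxs d L (-Pi.single i 1)) (fun y => y + Pi.single i 1) u) := by
    have e3 : ∀ i : Fin d, Ws (boxs d L (Pi.single i 1)) (fun y => y - Pi.single i 1) u =
        ∑ x ∈ box d L, u (x + Pi.single i 1) • (dl x : L2 (Site d)) := fun i =>
      (shift_sum L _ u).symm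
    have e4 : ∀ i : Fin d, Ws (boxs d L (-Pi.single i 1)) (fun y => y + Pi.single i 1) u =
        ∑ x ∈ box d L, u (x - Pi.single i 1) • (dl x : L2 (Site d)) := by
      intro i
      have := shift_sum (d := d) L (-Pi.single i 1) u
      simp only [sub_neg_eq_add, ← sub_eq_add_neg] at this
      exact this.symm
    simp only [e3, e4]
    simp only [← Finset.sum_add_distrib, ← add_smul]
    rw [Finset.sum_comm, Finset.smul_sum]
    unfold Ws hopf
    refine Finset.sum_congr rfl fun y _ => ?_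
    rw [← Finset.sum_smul, smul_smul]
    rfl
  rw [e1, e2, ← smul_sub, ← Finset.sum_sub_distrib]
  congr 1
  refine Finset.sum_congr rfl fun i _ => ?_
  unfold bt
  rw [← Ws_diff, ← Ws_diff]
  abel

/-- approximate eigenfunctions evolve approximately by a phase -/
lemma approx {c : ℝ} {V : Site d → ℝ} {W : UG (L2 (Site d))} (hW : IsGrp c V W) (E : ℝ)
    (v r : L2 (Site d))
    (hr : ∀ x, hopf c (fun y => v y) x + V x * v x = E * v x + r x) (t : ℝ) (ht : 0 ≤ t) :
    ‖Complex.exp (-Complex.I * E * t) • v - W.U t v‖ ≤ t * ‖r‖ := by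
  set f : ℝ → L2 (Site d) := fun t => Complex.exp (-Complex.I * E * t) • v with hf
  set h : ℝ → L2 (Site d) := fun t => (Complex.I * Complex.exp (-Complex.I * E * t)) • r with hh
  have nexp : ∀ t : ℝ, ‖Complex.exp (-Complex.I * E * t)‖ = 1 := by
    intro t
    rw [show -Complex.I * (E : ℂ) * (t : ℂ) = ((-(E * t) : ℝ) : ℂ) * Complex.I by
      push_cast; ring]
    exact Complex.norm_exp_ofReal_mul_I _
  have hcont : Continuous h := by
    rw [hh]
    fun_prop
  have hsol : IsSol c V f h := by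
    refine ⟨fun T => ⟨‖v‖, fun t _ => ?_⟩, fun t x => ?_⟩
    · rw [hf]
      simp only
      rw [norm_smul, nexp, one_mul]
    · have e1 : (fun s => (f s) x) = fun s : ℝ => Complex.exp (-Complex.I * E * s) * v x := by
        funext s
        rw [hf]
        rfl
      rw [e1]
      have e2 : hopf c (fun y => (f t) y) x = Complex.exp (-Complex.I * E * t) *
          hopf c (fun y => v y) x := by
        unfold hopf
        rw [hf]
        simp only [lp.coeFn_smul, Pi.smul_apply, smul_eq_mul]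
        rw [mul_left_comm]
        congr 1
        rw [Finset.mul_sum]
        refine Finset.sum_congr rfl fun i _ => ?_
        ring
      have e3 : (f t) x = Complex.exp (-Complex.I * E * t) * v x := by
        rw [hf]; rfl
      have e4 : (h t) x = (Complex.I * Complex.exp (-Complex.I * E * t)) * r x := by
        rw [hh]; rfl
      rw [e2, e3, e4]
      have h1 : HasDerivAt (fun s : ℝ => Complex.exp (-Complex.I * E * s))
          (Complex.exp (-Complex.I * E * t) * (-Complex.I * E)) t := by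
        have h2 : HasDerivAt (fun s : ℝ => (-Complex.I * E) * (s : ℂ)) ((-Complex.I * E) * 1) t :=
          (Complex.ofRealCLM.hasDerivAt (x := t)).const_mul _
        have h3 := h2.cexp
        simpa using h3
      have h4 := h1.mul_const (v x)
      have e6 : (-Complex.I * (Complex.exp (-Complex.I * E * t) * hopf c (fun y => v y) x +
          V x * (Complex.exp (-Complex.I * E * t) * v x)) +
          (Complex.I * Complex.exp (-Complex.I * E * t)) * r x : ℂ) =
          Complex.exp (-Complex.I * E * t) * (-Complex.I * E) * v x := by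
        have h7 : (hopf c (fun y => v y) x + V x * v x : ℂ) = E * v x + r x := hr x
        linear_combination (-Complex.I * Complex.exp (-Complex.I * E * t)) * h7
      exact e6 ▸ h4
  have hU := ALL.a_UN d c V W hW f h hcont hsol t
  have hf0 : f 0 = v := by
    rw [hf]; simp
  rw [hf0] at hU
  have e5 : Complex.exp (-Complex.I * E * t) • v - W.U t v =
      ∫ s in (0 : ℝ)..t, W.U (t - s) (h s) := by
    rw [show Complex.exp (-Complex.I * E * t) • v = f t from rfl, hU]
    abel
  rw [e5]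
  have h6 := intervalIntegral.norm_integral_le_of_norm_le_const (a := 0) (b := t) (C := ‖r‖)
    (f := fun s => W.U (t - s) (h s)) (fun s _ => by
      rw [W.norm', hh]
      simp only
      rw [norm_smul, norm_mul, nexp, Complex.norm_I, one_mul, one_mul])
  rw [sub_zero, abs_of_nonneg ht, mul_comm] at h6
  exact h6

/-- comparison of the inner product and the averaged inner product -/
lemma det (W' W : UG (L2 (Site d))) (v' v : L2 (Site d)) (E a a' : ℝ)
    (h : ∀ t : ℝ, 0 ≤ t → ‖Complex.exp (-Complex.I * E * t) • v - W.U t v‖ ≤ t * a)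
    (h' : ∀ t : ℝ, 0 ≤ t → ‖Complex.exp (-Complex.I * E * t) • v' - W'.U t v'‖ ≤ t * a')
    (ha : 0 ≤ a) (ha' : 0 ≤ a')
    (N : ℕ) (hN : 0 < N) :
    ‖⟪v', v⟫_ℂ - ⟪v', xP W' W N v⟫_ℂ‖ ≤ N * (a' * ‖v‖ + ‖v'‖ * a) := by
  have nexp : ∀ t : ℝ, ‖Complex.exp (-Complex.I * E * t)‖ = 1 := by
    intro t
    rw [show -Complex.I * (E : ℂ) * (t : ℂ) = ((-(E * t) : ℝ) : ℂ) * Complex.I by
      push_cast; ring]
    exact Complex.norm_exp_ofReal_mul_I _
  have hN' : (0 : ℝ) < N := by exact_mod_cast hN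
  have hNc : (N : ℂ) ≠ 0 := by exact_mod_cast hN.ne'
  have adj : ∀ (t : ℝ) (x y : L2 (Site d)), ⟪W'.U t x, y⟫_ℂ = ⟪x, W'.U (-t) y⟫_ℂ := by
    intro t x y
    rw [STAT.inner_adj W' (-t), neg_neg]
  have pw : ∀ s : ℝ, 0 ≤ s → ‖⟪v', v⟫_ℂ - ⟪v', W'.U (-s) (W.U s v)⟫_ℂ‖ ≤
      s * (a' * ‖v‖ + ‖v'‖ * a) := by
    intro s hs
    rw [← adj]
    have e1 : ⟪v', v⟫_ℂ = ⟪Complex.exp (-Complex.I * E * s) • v',
        Complex.exp (-Complex.I * E * s) • v⟫_ℂ := by
      rw [inner_smul_left, inner_smul_right, ← mul_assoc, mul_comm (conj _),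
        Complex.mul_conj, Complex.normSq_eq_norm_sq, nexp]
      simp
    rw [e1]
    set x := Complex.exp (-Complex.I * E * s) • v with hx
    set x' := Complex.exp (-Complex.I * E * s) • v' with hx'
    have e2 : ⟪x', x⟫_ℂ - ⟪W'.U s v', W.U s v⟫_ℂ =
        ⟪x' - W'.U s v', x⟫_ℂ + ⟪W'.U s v', x - W.U s v⟫_ℂ := by
      rw [inner_sub_left, inner_sub_right]
      ring
    rw [e2]
    refine (norm_add_le _ _).trans ?_
    have n1 := norm_inner_le_norm (𝕜 := ℂ) (x' - W'.U s v') x
    have n2 := norm_inner_le_norm (𝕜 := ℂ) (W'.U s v') (x - W.U s v)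
    have n3 : ‖x‖ = ‖v‖ := by rw [hx, norm_smul, nexp, one_mul]
    rw [n3] at n1
    rw [W'.norm'] at n2
    have n4 := h s hs
    have n5 := h' s hs
    calc _ ≤ ‖x' - W'.U s v'‖ * ‖v‖ + ‖v'‖ * ‖x - W.U s v‖ := add_le_add n1 n2
      _ ≤ (s * a') * ‖v‖ + ‖v'‖ * (s * a) := by gcongr
      _ = _ := by ring
  have hc : Continuous fun s : ℝ => W'.U (-s) (W.U s v) := cont_f W' W v
  have e3 : ⟪v', v⟫_ℂ - ⟪v', xP W' W N v⟫_ℂ =
      (N : ℂ)⁻¹ * ∫ s in (0 : ℝ)..(N : ℝ), (⟪v', v⟫_ℂ - ⟪v', W'.U (-s) (W.U s v)⟫_ℂ) := by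
    have e4 : ⟪v', xP W' W N v⟫_ℂ = (N : ℂ)⁻¹ *
        ∫ s in (0 : ℝ)..(N : ℝ), ⟪v', W'.U (-s) (W.U s v)⟫_ℂ := by
      unfold xP
      rw [inner_smul_right]
      congr 1
      have := ContinuousLinearMap.intervalIntegral_comp_comm (innerSL ℂ v')
        (hc.intervalIntegrable (μ := volume) (0 : ℝ) (N : ℝ))
      simp only [innerSL_apply_apply] at this
      exact this.symm
    rw [e4, intervalIntegral.integral_sub]
    · rw [intervalIntegral.integral_const, sub_zero, mul_sub]
      congr 1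
      rw [Complex.real_smul]
      push_cast
      field_simp
    · exact continuous_const.intervalIntegrable _ _
    · exact (continuous_const.inner hc).intervalIntegrable _ _
  rw [e3, norm_mul, norm_inv, Complex.norm_natCast]
  have h5 : ‖∫ s in (0 : ℝ)..(N : ℝ), (⟪v', v⟫_ℂ - ⟪v', W'.U (-s) (W.U s v)⟫_ℂ)‖ ≤
      (N * (a' * ‖v‖ + ‖v'‖ * a)) * |(N : ℝ) - 0| := by
    refine intervalIntegral.norm_integral_le_of_norm_le_const fun s hs => ?_
    rw [Set.uIoc_of_le hN'.le] at hs
    refine (pw s hs.1.le).trans ?_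
    have : 0 ≤ a' * ‖v‖ + ‖v'‖ * a := by positivity
    exact mul_le_mul_of_nonneg_right hs.2 this
  rw [sub_zero, abs_of_pos hN'] at h5
  calc (N : ℝ)⁻¹ * _ ≤ (N : ℝ)⁻¹ * ((N * (a' * ‖v‖ + ‖v'‖ * a)) * N) := by gcongr
    _ = N * (a' * ‖v‖ + ‖v'‖ * a) := by field_simp

end Pool.Agent.Helper26.Nb
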