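import Pool.Agent.Helper26.Nb.Fibre

/-! # Couplings of the environment with a nearby copy -/

set_option autoImplicit false

open MeasureTheory Filter Topology ProbabilityTheory
open scoped BigOperators ENNReal NNReal InnerProductSpace ComplexConjugate BoundedContinuousFunction

namespace Pool.Agent.Helper26.Nb

open Pool.Agent.H5R2.NB

/-- index of the cell of width `1/(n+1)` -/
noncomputable def ci (n : ℕ) (s : ℝ) : ℤ := ⌊((n : ℝ) + 1) * s⌋

lemma meas_ci (n : ℕ) : Measurable (ci n) := by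
  unfold ci
  exact Int.measurable_floor.comp (measurable_id.const_mul _)

lemma ms_cell (n : ℕ) (j : ℤ) : MeasurableSet (ci n ⁻¹' {j}) :=
  meas_ci n (MeasurableSet.singleton j)

lemma ci_near {n : ℕ} {s t : ℝ} (h : ci n s = ci n t) : |s - t| ≤ 1 / ((n : ℝ) + 1) := by
  unfold ci at h
  have h1 := Int.abs_sub_lt_one_of_floor_eq_floor h
  rw [← mul_sub, abs_mul, abs_of_pos (by positivity : (0 : ℝ) < (n : ℝ) + 1)] at h1
  rw [le_div_iff₀ (by positivity)]
  linarith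

variable {ν : Measure ℝ} [IsProbabilityMeasure ν]

open Classical in
/-- law conditioned on the cell -/
noncomputable def cl (ν : Measure ℝ) (n : ℕ) (j : ℤ) : Measure ℝ :=
  if ν (ci n ⁻¹' {j}) = 0 then ν else ProbabilityTheory.cond ν (ci n ⁻¹' {j})

instance (n : ℕ) (j : ℤ) : IsProbabilityMeasure (cl ν n j) := by
  unfold cl
  split_ifs with h
  · infer_instance
  · exact cond_isProbabilityMeasure h

lemma cl_mul (n : ℕ) (j : ℤ) {A : Set ℝ} (hA : MeasurableSet A) :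
    cl ν n j A * ν (ci n ⁻¹' {j}) = ν (ci n ⁻¹' {j} ∩ A) := by
  unfold cl
  split_ifs with h
  · rw [h, mul_zero]
    exact (measure_mono_null Set.inter_subset_left h).symm
  · exact cond_mul_eq_inter (ms_cell n j) A ν

/-- resampling inside the cell -/
noncomputable def Kc (ν : Measure ℝ) (n : ℕ) : Kernel ℝ ℝ :=
  (Kernel.ofFunOfCountable (cl ν n)).comap (ci n) (meas_ci n)

lemma Kc_apply (n : ℕ) (s : ℝ) : Kc ν n s = cl ν n (ci n s) := rfl

instance (n : ℕ) : IsMarkovKernel (Kc ν n) := ⟨fun s => by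
  rw [Kc_apply]
  infer_instance⟩

lemma Kc_le {C : ℝ≥0} (hν : ν ≤ C • volume) (n : ℕ) (s : ℝ) :
    ∃ C' : ℝ≥0, Kc ν n s ≤ C' • volume := by
  rw [Kc_apply]
  unfold cl
  split_ifs with h
  · exact ⟨C, hν⟩
  · have h2 : ν (ci n ⁻¹' {ci n s}) ≠ ∞ := measure_ne_top _ _
    refine ⟨(ν (ci n ⁻¹' {ci n s})).toNNReal⁻¹ * C, ?_⟩
    have h3 : ((((ν (ci n ⁻¹' {ci n s})).toNNReal⁻¹ : ℝ≥0)) : ℝ≥0∞) =
        (ν (ci n ⁻¹' {ci n s}))⁻¹ := by
      rw [ENNReal.coe_inv, ENNReal.coe_toNNReal h2]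
      intro h0
      rw [ENNReal.toNNReal_eq_zero_iff] at h0
      rcases h0 with h0 | h0
      · exact h h0
      · exact h2 h0
    refine Measure.le_iff.2 fun A hA => ?_
    rw [cond_apply (ms_cell n _)]
    rw [Measure.smul_apply, ENNReal.smul_def, ENNReal.coe_mul, h3, smul_eq_mul, mul_assoc]
    gcongr
    calc ν (ci n ⁻¹' {ci n s} ∩ A) ≤ ν A := measure_mono Set.inter_subset_right
      _ ≤ (C • volume : Measure ℝ) A := hν A
      _ = _ := by rw [Measure.smul_apply, ENNReal.smul_def, smul_eq_mul]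

lemma fst_marg (n : ℕ) : (ν ⊗ₘ Kc ν n).map Prod.fst = ν :=
  Measure.fst_compProd ν (Kc ν n)

lemma snd_marg (n : ℕ) : (ν ⊗ₘ Kc ν n).map Prod.snd = ν := by
  ext A hA
  rw [Measure.map_apply measurable_snd hA, Measure.compProd_apply (measurable_snd hA)]
  have h1 : ∀ s, Kc ν n s (Prod.mk s ⁻¹' (Prod.snd ⁻¹' A)) = (fun j => cl ν n j A) (ci n s) :=
    fun s => rfl
  simp only [h1]
  have h2 : Measurable fun j : ℤ => cl ν n j A := measurable_of_countable _
  rw [← lintegral_map (μ := ν) (f := fun j : ℤ => cl ν n j A) h2 (meas_ci n), lintegral_countable']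
  have h3 : ∀ j : ℤ, cl ν n j A * (ν.map (ci n)) {j} = ν (ci n ⁻¹' {j} ∩ A) := by
    intro j
    rw [Measure.map_apply (meas_ci n) (MeasurableSet.singleton j)]
    exact cl_mul n j hA
  simp only [h3]
  rw [← measure_iUnion]
  · congr 1
    ext s
    simp
  · intro i j hij
    refine Set.disjoint_left.2 ?_
    rintro s ⟨h4, -⟩ ⟨h5, -⟩
    simp only [Set.mem_preimage, Set.mem_singleton_iff] at h4 h5
    exact hij (h4.symm.trans h5)
  · intro j
    exact (ms_cell n j).inter hA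

lemma near (n : ℕ) : ∀ᵐ q ∂(ν ⊗ₘ Kc ν n), |q.1 - q.2| ≤ 1 / ((n : ℝ) + 1) := by
  have hms : MeasurableSet {q : ℝ × ℝ | |q.1 - q.2| ≤ 1 / ((n : ℝ) + 1)} := by
    have : Continuous fun q : ℝ × ℝ => |q.1 - q.2| := by fun_prop
    exact (isClosed_le this continuous_const).measurableSet
  refine (Measure.ae_compProd_iff hms).2 ?_
  have hgood : ∀ᵐ s ∂ν, ν (ci n ⁻¹' {ci n s}) ≠ 0 := by
    rw [ae_iff]
    have : {s | ¬ ν (ci n ⁻¹' {ci n s}) ≠ 0} ⊆
        ⋃ j ∈ {j : ℤ | ν (ci n ⁻¹' {j}) = 0}, ci n ⁻¹' {j} := by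
      intro s hs
      simp only [ne_eq, not_not, Set.mem_setOf_eq] at hs
      simp only [Set.mem_iUnion, Set.mem_setOf_eq, Set.mem_preimage, Set.mem_singleton_iff,
        exists_prop]
      exact ⟨ci n s, hs, rfl⟩
    refine measure_mono_null this ?_
    refine (measure_biUnion_null_iff (Set.to_countable _)).2 fun j hj => hj
  filter_upwards [hgood] with s hs
  rw [Kc_apply]
  unfold cl
  rw [if_neg hs]
  filter_upwards [ae_cond_mem (μ := ν) (ms_cell n (ci n s))] with t ht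
  have h1 : ci n t = ci n s := ht
  exact ci_near h1.symm

variable {d : ℕ}

lemma mpA1 (ρ : Measure (ℝ × ℝ)) [IsProbabilityMeasure ρ] (h : ρ.map Prod.fst = ν) :
    MeasurePreserving (A1 (d := d)) (PQ d ρ) (PP d ν) := by
  refine ⟨cont_A1.measurable, ?_⟩
  have h1 := Measure.infinitePi_map_pi (μ := fun _ : Site d => ρ) (f := fun _ => Prod.fst)
    (fun _ => measurable_fst)
  unfold PQ PP
  simp only [h] at h1
  exact h1

lemma mpA2 (ρ : Measure (ℝ × ℝ)) [IsProbabilityMeasure ρ] (h : ρ.map Prod.snd = ν) :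
    MeasurePreserving (A2 (d := d)) (PQ d ρ) (PP d ν) := by
  refine ⟨cont_A2.measurable, ?_⟩
  have h1 := Measure.infinitePi_map_pi (μ := fun _ : Site d => ρ) (f := fun _ => Prod.snd)
    (fun _ => measurable_snd)
  unfold PQ PP
  simp only [h] at h1
  exact h1

lemma near_all (n : ℕ) : ∀ᵐ V ∂(PQ d (ν ⊗ₘ Kc ν n)), ∀ x : Site d,
    |A1 V x - A2 V x| ≤ 1 / ((n : ℝ) + 1) := by
  rw [ae_all_iff]
  intro x
  exact (measurePreserving_eval_infinitePi
    (fun _ : Site d => ν ⊗ₘ Kc ν n) x).quasiMeasurePreserving.ae (near n)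

/-! ### continuity of the correlation -/

/-- oscillation of `g` over small perturbations of the environment -/
noncomputable def osc (g : (Site d → ℝ) →ᵇ ℂ) (n : ℕ) (V : Site d → ℝ) : ℝ≥0∞ :=
  ⨆ h ∈ {h : Site d → ℝ | ∀ x, |h x| ≤ 1 / ((n : ℝ) + 1)}, ‖g (V + h) - g V‖ₑ

lemma meas_osc (g : (Site d → ℝ) →ᵇ ℂ) (n : ℕ) : Measurable (osc g n) := by
  refine LowerSemicontinuous.measurable ?_
  refine lowerSemicontinuous_biSup fun h _ => ?_
  refine Continuous.lowerSemicontinuous ?_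
  have h1 : Continuous fun V : Site d → ℝ => g (V + h) - g V :=
    (g.continuous.comp (continuous_id.add continuous_const)).sub g.continuous
  exact h1.enorm

lemma osc_le (g : (Site d → ℝ) →ᵇ ℂ) (n : ℕ) (V : Site d → ℝ) :
    osc g n V ≤ ENNReal.ofReal (2 * ‖g‖) := by
  refine iSup₂_le fun h _ => ?_
  rw [← ofReal_norm]
  refine ENNReal.ofReal_le_ofReal ((norm_sub_le _ _).trans ?_)
  have h1 := g.norm_coe_le_norm (V + h)
  have h2 := g.norm_coe_le_norm V
  linarith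

lemma osc_tendsto (g : (Site d → ℝ) →ᵇ ℂ) (V : Site d → ℝ) :
    Tendsto (fun n => osc g n V) atTop (𝓝 0) := by
  rw [ENNReal.tendsto_atTop_zero]
  intro ε hε
  obtain ⟨δ, hδ, hδε⟩ : ∃ δ : ℝ, 0 < δ ∧ ENNReal.ofReal δ ≤ ε := by
    rcases eq_or_ne ε ∞ with h | h
    · exact ⟨1, one_pos, by rw [h]; exact le_top⟩
    · refine ⟨ε.toReal, ENNReal.toReal_pos hε.ne' h, ?_⟩
      rw [ENNReal.ofReal_toReal h]
  have h1 : {W | dist (g W) (g V) < δ} ∈ 𝓝 V :=
    g.continuous.continuousAt.eventually (Metric.ball_mem_nhds _ hδ)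
  rw [nhds_pi, Filter.mem_pi] at h1
  obtain ⟨I, hI, t, ht, hsub⟩ := h1
  have h2 : ∀ i ∈ I, ∀ᶠ n : ℕ in atTop, ∀ r : ℝ, |r| ≤ 1 / ((n : ℝ) + 1) → V i + r ∈ t i := by
    intro i _
    obtain ⟨η, hη, hball⟩ := Metric.mem_nhds_iff.1 (ht i)
    have h3 := (tendsto_order.1 (tendsto_one_div_add_atTop_nhds_zero_nat (𝕜 := ℝ))).2 η hη
    filter_upwards [h3] with n hn r hr
    apply hball
    rw [Metric.mem_ball, Real.dist_eq]
    have : V i + r - V i = r := by ring
    rw [this]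
    exact hr.trans_lt hn
  have h4 := (eventually_all_finite hI).2 h2
  obtain ⟨N, hN⟩ := eventually_atTop.1 h4
  refine ⟨N, fun n hn => ?_⟩
  refine iSup₂_le fun h hh => ?_
  have h5 : V + h ∈ {W | dist (g W) (g V) < δ} := by
    apply hsub
    intro i hi
    exact hN n hn i hi (h i) (hh i)
  have h6 : dist (g (V + h)) (g V) < δ := h5
  rw [dist_eq_norm] at h6
  rw [← ofReal_norm]
  exact (ENNReal.ofReal_le_ofReal h6.le).trans hδε

theorem conv_bdd (g : (Site d → ℝ) →ᵇ ℂ) :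
    Tendsto (fun n => eLpNorm (fun V => g (A1 V) - g (A2 V)) 2 (PQ d (ν ⊗ₘ Kc ν n))) atTop
      (𝓝 0) := by
  have h1 : Tendsto (fun n => ∫⁻ V, (osc g n V) ^ 2 ∂(PP d ν)) atTop (𝓝 0) := by
    have h2 := tendsto_lintegral_of_dominated_convergence (μ := PP d ν)
      (F := fun n V => (osc g n V) ^ 2) (f := fun _ => 0)
      (fun _ => (ENNReal.ofReal (2 * ‖g‖)) ^ 2) ?_ ?_ ?_ ?_
    · simpa using h2
    · intro n
      exact (meas_osc g n).pow_const 2
    · intro n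
      refine Eventually.of_forall fun V => ?_
      simp only
      gcongr
      exact osc_le g n V
    · rw [lintegral_const]
      unfold PP
      rw [measure_univ, mul_one]
      exact ENNReal.pow_ne_top ENNReal.ofReal_ne_top
    · refine Eventually.of_forall fun V => ?_
      have h6 := ((ENNReal.continuous_pow 2).tendsto 0).comp (osc_tendsto g V)
      simpa [Function.comp_def] using h6
  have h3 : ∀ n, (eLpNorm (fun V => g (A1 V) - g (A2 V)) 2 (PQ d (ν ⊗ₘ Kc ν n))) ^ 2 ≤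
      ∫⁻ V, (osc g n V) ^ 2 ∂(PP d ν) := by
    intro n
    rw [n2_sq]
    have hA1 := mpA1 (d := d) (ν ⊗ₘ Kc ν n) (fst_marg (ν := ν) n)
    rw [← hA1.lintegral_comp ((meas_osc g n).pow_const 2)]
    refine lintegral_mono_ae ?_
    filter_upwards [near_all (ν := ν) (d := d) n] with V hV
    gcongr
    rw [← enorm_neg, neg_sub]
    have h4 : A2 V = A1 V + (A2 V - A1 V) := by abel
    have h5 : ‖g (A1 V + (A2 V - A1 V)) - g (A1 V)‖ₑ ≤ osc g n (A1 V) := by
      refine le_iSup₂_of_le (A2 V - A1 V) ?_ le_rfl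
      intro x
      rw [Pi.sub_apply, abs_sub_comm]
      exact hV x
    rwa [← h4] at h5
  have h7 : Tendsto (fun n => (eLpNorm (fun V => g (A1 V) - g (A2 V)) 2
      (PQ d (ν ⊗ₘ Kc ν n))) ^ 2) atTop (𝓝 0) :=
    tendsto_of_tendsto_of_tendsto_of_le_of_le tendsto_const_nhds h1 (fun _ => zero_le) h3
  rw [ENNReal.tendsto_atTop_zero] at h7 ⊢
  intro ε hε
  obtain ⟨N, hN⟩ := h7 (ε ^ 2) (by positivity)
  refine ⟨N, fun n hn => ?_⟩
  exact (ENNReal.pow_le_pow_left_iff (by norm_num)).1 (hN n hn)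

theorem conv_L2 {φ : (Site d → ℝ) → ℂ} (hφ : StronglyMeasurable φ) (hφ2 : MemLp φ 2 (PP d ν)) :
    Tendsto (fun n => eLpNorm (fun V => φ (A1 V) - φ (A2 V)) 2 (PQ d (ν ⊗ₘ Kc ν n))) atTop
      (𝓝 0) := by
  rw [ENNReal.tendsto_atTop_zero]
  intro ε hε
  have h3 : ε / 3 ≠ 0 := by
    simp [hε.ne']
  haveI : IsFiniteMeasure (PP d ν) := by unfold PP; infer_instance
  obtain ⟨g, hg, hg2⟩ := hφ2.exists_boundedContinuous_eLpNorm_sub_le (by norm_num) h3
  obtain ⟨N, hN⟩ := ENNReal.tendsto_atTop_zero.1 (conv_bdd (ν := ν) g) (ε / 3)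
    (pos_iff_ne_zero.2 h3)
  refine ⟨N, fun n hn => ?_⟩
  have hA1 := mpA1 (d := d) (ν ⊗ₘ Kc ν n) (fst_marg (ν := ν) n)
  have hA2 := mpA2 (d := d) (ν ⊗ₘ Kc ν n) (snd_marg (ν := ν) n)
  have mg : StronglyMeasurable fun V => g V := g.continuous.stronglyMeasurable
  have e1 : (fun V : Site d → ℝ × ℝ => φ (A1 V) - φ (A2 V)) =
      fun V => ((φ (A1 V) - g (A1 V)) + (g (A1 V) - g (A2 V))) - (φ (A2 V) - g (A2 V)) := by
    funext V
    ring
  have m1 : StronglyMeasurable fun V : Site d → ℝ × ℝ => φ (A1 V) - g (A1 V) :=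
    (hφ.sub mg).comp_measurable hA1.measurable
  have m2 : StronglyMeasurable fun V : Site d → ℝ × ℝ => g (A1 V) - g (A2 V) :=
    (mg.comp_measurable hA1.measurable).sub (mg.comp_measurable hA2.measurable)
  have m3 : StronglyMeasurable fun V : Site d → ℝ × ℝ => φ (A2 V) - g (A2 V) :=
    (hφ.sub mg).comp_measurable hA2.measurable
  have n1 : eLpNorm (fun V : Site d → ℝ × ℝ => φ (A1 V) - g (A1 V)) 2
      (PQ d (ν ⊗ₘ Kc ν n)) ≤ ε / 3 := by
    have h := eLpNorm_comp_measurePreserving (p := 2) (hφ.sub mg).aestronglyMeasurable hA1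
    have h' : eLpNorm (fun V : Site d → ℝ × ℝ => φ (A1 V) - g (A1 V)) 2
      (PQ d (ν ⊗ₘ Kc ν n)) = eLpNorm (φ - fun V => g V) 2 (PP d ν) := h
    rw [h']
    exact hg
  have n3 : eLpNorm (fun V : Site d → ℝ × ℝ => φ (A2 V) - g (A2 V)) 2
      (PQ d (ν ⊗ₘ Kc ν n)) ≤ ε / 3 := by
    have h := eLpNorm_comp_measurePreserving (p := 2) (hφ.sub mg).aestronglyMeasurable hA2
    have h' : eLpNorm (fun V : Site d → ℝ × ℝ => φ (A2 V) - g (A2 V)) 2
      (PQ d (ν ⊗ₘ Kc ν n)) = eLpNorm (φ - fun V => g V) 2 (PP d ν) := h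
    rw [h']
    exact hg
  rw [e1]
  refine (eLpNorm_sub_le (m1.add m2).aestronglyMeasurable m3.aestronglyMeasurable
    (by norm_num)).trans ?_
  calc _ ≤ (ε / 3 + ε / 3) + ε / 3 := by
        refine add_le_add ?_ n3
        refine (eLpNorm_add_le m1.aestronglyMeasurable m2.aestronglyMeasurable
          (by norm_num)).trans ?_
        exact add_le_add n1 (hN n hn)
    _ = ε := ENNReal.add_thirds ε

end Pool.Agent.Helper26.Nb
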