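import Pool.Agent.Helper26.Nb.Torus

/-! # Loss of coherence -/

set_option autoImplicit false

open MeasureTheory Filter Topology ProbabilityTheory
open scoped BigOperators ENNReal NNReal InnerProductSpace ComplexConjugate

namespace Pool.Agent.Helper26.Nb

open Pool.Agent.H5R2.NB

variable {d : ℕ} {c : ℝ} {ev : (Site d → ℝ) → UG (L2 (Site d))}

/-- time averages of `U'(-s) U(s)` over `[0,T]` -/
noncomputable def xT {X : Type} [NormedAddCommGroup X] [InnerProductSpace ℂ X] (W' W : UG X)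
    (T : ℝ) (x : X) : X :=
  ((T : ℂ)⁻¹) • ∫ s in (0 : ℝ)..T, W'.U (-s) (W.U s x)

lemma xT_le {X : Type} [NormedAddCommGroup X] [InnerProductSpace ℂ X] (W' W : UG X) (x : X)
    (hx : ‖x‖ ≤ 1) (T : ℝ) (hT : 1 ≤ T) : ‖xT W' W T x‖ ≤ ‖xP W' W ⌊T⌋₊ x‖ + 1 / T := by
  have hT0 : 0 < T := by linarith
  set N := ⌊T⌋₊ with hN
  have hN1 : 1 ≤ N := Nat.le_floor (by simpa using hT)
  have hNT : (N : ℝ) ≤ T := Nat.floor_le hT0.le
  have hTN : T < N + 1 := Nat.lt_floor_add_one T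
  have hN0 : (0 : ℝ) < N := by exact_mod_cast hN1
  have hc := cont_f W' W x
  have e1 : ∫ s in (0 : ℝ)..T, W'.U (-s) (W.U s x) =
      (∫ s in (0 : ℝ)..(N : ℝ), W'.U (-s) (W.U s x)) +
        ∫ s in (N : ℝ)..T, W'.U (-s) (W.U s x) :=
    (intervalIntegral.integral_add_adjacent_intervals (hc.intervalIntegrable _ _)
      (hc.intervalIntegrable _ _)).symm
  have e2 : ∫ s in (0 : ℝ)..(N : ℝ), W'.U (-s) (W.U s x) = (N : ℂ) • xP W' W N x := by
    unfold xP
    rw [smul_smul, mul_inv_cancel₀, one_smul]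
    exact_mod_cast hN0.ne'
  have e3 : ‖∫ s in (N : ℝ)..T, W'.U (-s) (W.U s x)‖ ≤ 1 := by
    have h := intervalIntegral.norm_integral_le_of_norm_le_const (a := (N : ℝ)) (b := T) (C := 1)
      (f := fun s => W'.U (-s) (W.U s x)) (fun s _ => (norm_fb W' W x s (-s)).trans hx)
    rw [abs_of_nonneg (by linarith), one_mul] at h
    linarith
  unfold xT
  rw [norm_smul, norm_inv, Complex.norm_real, Real.norm_of_nonneg hT0.le, e1, e2]
  have e4 : ‖(N : ℂ) • xP W' W N x + ∫ s in (N : ℝ)..T, W'.U (-s) (W.U s x)‖ ≤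
      T * ‖xP W' W N x‖ + 1 := by
    refine (norm_add_le _ _).trans (add_le_add ?_ e3)
    rw [norm_smul, Complex.norm_natCast]
    gcongr
  calc T⁻¹ * _ ≤ T⁻¹ * (T * ‖xP W' W N x‖ + 1) := by gcongr
    _ = _ := by field_simp

lemma sm_xT (hev : ∀ V, IsGrp c V (ev V)) (T : ℝ) (x : L2 (Site d)) :
    Continuous fun V : Site d → ℝ × ℝ => xT (ev (A1 V)) (ev (A2 V)) T x := by
  suffices key : Continuous fun V : Site d → ℝ × ℝ =>
      ∫ s in (0 : ℝ)..T, (ev (A1 V)).U (-s) ((ev (A2 V)).U s x) from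
    key.const_smul ((T : ℂ)⁻¹)
  refine intervalIntegral.continuous_parametric_intervalIntegral_of_continuous'
    (f := fun (V : Site d → ℝ × ℝ) (s : ℝ) => (ev (A1 V)).U (-s) ((ev (A2 V)).U s x))
    ?_ _ _
  exact contU hev (cont_A1.comp continuous_fst) continuous_snd.neg
    (contU hev (cont_A2.comp continuous_fst) continuous_snd continuous_const)

theorem coh_eL (hev : ∀ V, IsGrp c V (ev V)) (μ' : Measure ℝ) [IsProbabilityMeasure μ']
    (K : Kernel ℝ ℝ) [IsMarkovKernel K] (hK : ∀ s, ∃ C : ℝ≥0, K s ≤ C • volume) :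
    Tendsto (fun T : ℝ => eLpNorm (fun V => xT (ev (A1 V)) (ev (A2 V)) T (dl 0)) 2
      (PQ d (μ' ⊗ₘ K))) atTop (𝓝 0) := by
  have h1 := xdisj (d := d) hev μ' K hK
  have h2 : Tendsto (fun N : ℕ => eLpNorm (fun V => xP (ev (A1 V)) (ev (A2 V)) N (dl 0)) 2
      (PQ d (μ' ⊗ₘ K))) atTop (𝓝 0) := by
    rw [ENNReal.tendsto_atTop_zero] at h1 ⊢
    intro ε hε
    obtain ⟨N, hN⟩ := h1 (ε ^ 2) (by positivity)
    exact ⟨N, fun n hn => n2_le _ _ _ (hN n hn)⟩
  have h3 : Tendsto (fun T : ℝ => eLpNorm (fun V => xP (ev (A1 V)) (ev (A2 V)) ⌊T⌋₊ (dl 0)) 2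
      (PQ d (μ' ⊗ₘ K)) + ENNReal.ofReal (1 / T)) atTop (𝓝 0) := by
    have h4 : Tendsto (fun T : ℝ => ENNReal.ofReal (1 / T)) atTop (𝓝 0) := by
      have := ENNReal.tendsto_ofReal (tendsto_inv_atTop_zero (𝕜 := ℝ))
      simpa using this
    have := (h2.comp tendsto_nat_floor_atTop).add h4
    simpa using this
  refine tendsto_of_tendsto_of_tendsto_of_le_of_le' tendsto_const_nhds h3
    (Eventually.of_forall fun _ => zero_le) ?_
  filter_upwards [eventually_ge_atTop (1 : ℝ)] with T hT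
  have hT0 : 0 < T := by linarith
  have h5 : eLpNorm (fun V => xT (ev (A1 V)) (ev (A2 V)) T (dl 0)) 2 (PQ d (μ' ⊗ₘ K)) ≤
      eLpNorm ((fun V => ‖xP (ev (A1 V)) (ev (A2 V)) ⌊T⌋₊ (dl 0)‖) + fun _ => 1 / T) 2
        (PQ d (μ' ⊗ₘ K)) := by
    refine eLpNorm_mono_real fun V => ?_
    exact xT_le _ _ _ (STAT.norm_dl _).le T hT
  refine h5.trans ((eLpNorm_add_le ((cont_xPx hev _ _).norm.aestronglyMeasurable)
    aestronglyMeasurable_const (by norm_num)).trans ?_)
  refine add_le_add ?_ ?_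
  · exact (eLpNorm_norm _).le
  · rw [eLpNorm_const _ (by norm_num) (NeZero.ne _), measure_univ]
    simp only [ENNReal.one_rpow, mul_one]
    rw [← ofReal_norm, Real.norm_of_nonneg (by positivity)]

/-- the average as a bounded operator -/
noncomputable def XTL {X : Type} [NormedAddCommGroup X] [InnerProductSpace ℂ X] (W' W : UG X)
    (T : ℝ) (hT : 0 < T) : X →L[ℂ] X :=
  LinearMap.mkContinuous
    { toFun := xT W' W T
      map_add' := fun x y => by
        unfold xT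
        rw [← smul_add, ← intervalIntegral.integral_add
          ((cont_f W' W x).intervalIntegrable _ _) ((cont_f W' W y).intervalIntegrable _ _)]
        simp only [map_add]
      map_smul' := fun a x => by
        unfold xT
        simp only [map_smul, intervalIntegral.integral_smul, RingHom.id_apply]
        rw [smul_comm] } 1
    fun x => by
      rw [one_mul]
      show ‖xT W' W T x‖ ≤ ‖x‖
      unfold xT
      rw [norm_smul, norm_inv, Complex.norm_real, Real.norm_of_nonneg hT.le]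
      have h := intervalIntegral.norm_integral_le_of_norm_le_const (a := 0) (b := T)
        (C := ‖x‖) (f := fun s => W'.U (-s) (W.U s x)) (fun s _ => norm_fb W' W x s (-s))
      rw [sub_zero, abs_of_pos hT] at h
      calc T⁻¹ * _ ≤ T⁻¹ * (‖x‖ * T) := by gcongr
        _ = ‖x‖ := by field_simp

lemma XTL_apply {X : Type} [NormedAddCommGroup X] [InnerProductSpace ℂ X] (W' W : UG X)
    (T : ℝ) (hT : 0 < T) (x : X) : XTL W' W T hT x = xT W' W T x := rfl

lemma XTL_norm {X : Type} [NormedAddCommGroup X] [InnerProductSpace ℂ X] (W' W : UG X)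
    (T : ℝ) (hT : 0 < T) (x : X) : ‖XTL W' W T hT x‖ ≤ ‖x‖ := by
  have h := (XTL W' W T hT).le_opNorm x
  have h1 : ‖XTL W' W T hT‖ ≤ 1 := LinearMap.mkContinuous_norm_le _ zero_le_one _
  calc _ ≤ ‖XTL W' W T hT‖ * ‖x‖ := h
    _ ≤ 1 * ‖x‖ := by gcongr
    _ = _ := one_mul _

theorem xT_shift (hev : ∀ V, IsGrp c V (ev V)) {z : Site d} {S : L2 (Site d) →L[ℂ] L2 (Site d)}
    (hS : IsShift (-z) S) (V : Site d → ℝ × ℝ)
    (T : ℝ) : xT (ev (A1 V)) (ev (A2 V)) T (dl z) =
      S (xT (ev (A1 fun y => V (y + z))) (ev (A2 fun y => V (y + z))) T (dl 0)) := by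
  unfold xT
  have e := ContinuousLinearMap.intervalIntegral_comp_comm S
    ((cont_f (ev (A1 fun y => V (y + z))) (ev (A2 fun y => V (y + z)))
      (dl 0)).intervalIntegrable (μ := volume) (0 : ℝ) T)
  rw [map_smul]
  congr 1
  refine Eq.trans ?_ e
  refine intervalIntegral.integral_congr fun s _ => ?_
  show (ev (A1 V)).U (-s) ((ev (A2 V)).U s (dl z)) = _
  rw [← LIMB.shift_dl z S hS, LIMB.U_shift ev ALL.a_COV hev hS,
    LIMB.U_shift ev ALL.a_COV hev hS]
  rfl

theorem coh_psi (hev : ∀ V, IsGrp c V (ev V)) (μ' : Measure ℝ) [IsProbabilityMeasure μ']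
    (K : Kernel ℝ ℝ) [IsMarkovKernel K] (hK : ∀ s, ∃ C : ℝ≥0, K s ≤ C • volume)
    (ψ : L2 (Site d)) :
    Tendsto (fun T : ℝ => eLpNorm (fun V => xT (ev (A1 V)) (ev (A2 V)) T ψ) 2
      (PQ d (μ' ⊗ₘ K))) atTop (𝓝 0) := by
  -- basis vectors
  have hbase : ∀ z : Site d, Tendsto (fun T : ℝ => eLpNorm (fun V =>
      xT (ev (A1 V)) (ev (A2 V)) T (dl z)) 2 (PQ d (μ' ⊗ₘ K))) atTop (𝓝 0) := by
    intro z
    refine (coh_eL (d := d) hev μ' K hK).congr fun T => ?_
    obtain ⟨S, hS⟩ := (t_OPS d).1 (-z)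
    have h1 := eLpNorm_comp_measurePreserving (p := 2)
      (sm_xT (d := d) hev T (dl 0)).aestronglyMeasurable (mp_sh (d := d) (μ' ⊗ₘ K) z)
    have h1' : eLpNorm ((fun V => xT (ev (A1 V)) (ev (A2 V)) T (dl 0)) ∘ sh z) 2
      (PQ d (μ' ⊗ₘ K)) = eLpNorm (fun V => xT (ev (A1 V)) (ev (A2 V)) T (dl 0)) 2
      (PQ d (μ' ⊗ₘ K)) := h1
    rw [← h1']
    refine eLpNorm_congr_norm_ae (Eventually.of_forall fun V => ?_)
    rw [xT_shift hev hS, shift_norm hS]
    rfl
  set S : Submodule ℂ (L2 (Site d)) :=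
    { carrier := {ψ | Tendsto (fun T : ℝ => eLpNorm (fun V =>
        xT (ev (A1 V)) (ev (A2 V)) T ψ) 2 (PQ d (μ' ⊗ₘ K))) atTop (𝓝 0)}
      add_mem' := by
        intro a b ha hb
        have h1 := Tendsto.add ha hb
        rw [add_zero] at h1
        refine tendsto_of_tendsto_of_tendsto_of_le_of_le' tendsto_const_nhds h1
          (Eventually.of_forall fun _ => zero_le) ?_
        filter_upwards [eventually_gt_atTop (0 : ℝ)] with T hT
        have e1 : (fun V => xT (ev (A1 V)) (ev (A2 V)) T (a + b)) =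
            fun V => xT (ev (A1 V)) (ev (A2 V)) T a + xT (ev (A1 V)) (ev (A2 V)) T b := by
          funext V
          rw [← XTL_apply _ _ T hT, map_add]
          rfl
        rw [e1]
        exact eLpNorm_add_le (sm_xT hev T a).aestronglyMeasurable
          (sm_xT hev T b).aestronglyMeasurable (by norm_num)
      zero_mem' := by
        have e1 : (fun T : ℝ => eLpNorm (fun V : Site d → ℝ × ℝ =>
            xT (ev (A1 V)) (ev (A2 V)) T 0) 2 (PQ d (μ' ⊗ₘ K))) = fun _ => 0 := by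
          funext T
          have e2 : (fun V : Site d → ℝ × ℝ => xT (ev (A1 V)) (ev (A2 V)) T 0) =
              fun _ => 0 := by
            funext V
            unfold xT
            simp
          rw [e2]
          exact eLpNorm_zero'
        show Tendsto _ _ _
        rw [e1]
        exact tendsto_const_nhds
      smul_mem' := by
        intro a ψ hψ
        have h1 := ENNReal.Tendsto.const_mul (a := ‖a‖ₑ) hψ (Or.inr (by simp))
        rw [mul_zero] at h1
        refine tendsto_of_tendsto_of_tendsto_of_le_of_le' tendsto_const_nhds h1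
          (Eventually.of_forall fun _ => zero_le) ?_
        filter_upwards [eventually_gt_atTop (0 : ℝ)] with T hT
        have e1 : (fun V => xT (ev (A1 V)) (ev (A2 V)) T (a • ψ)) =
            a • fun V => xT (ev (A1 V)) (ev (A2 V)) T ψ := by
          funext V
          rw [← XTL_apply _ _ T hT, map_smul]
          rfl
        rw [e1, eLpNorm_const_smul] } with hS
  have hcl : ∀ φ : L2 (Site d), φ ∈ closure (S : Set (L2 (Site d))) →
      Tendsto (fun T : ℝ => eLpNorm (fun V => xT (ev (A1 V)) (ev (A2 V)) T φ) 2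
      (PQ d (μ' ⊗ₘ K))) atTop (𝓝 0) := by
    intro φ hφ
    rw [ENNReal.tendsto_nhds_zero]
    intro ε hε
    obtain ⟨δ, hδ, hδε⟩ : ∃ δ : ℝ, 0 < δ ∧ ENNReal.ofReal δ ≤ ε / 2 := by
      have h2 : ε / 2 ≠ 0 := by simp [hε.ne']
      rcases eq_or_ne (ε / 2) ∞ with h | h
      · exact ⟨1, one_pos, by rw [h]; exact le_top⟩
      · refine ⟨(ε / 2).toReal, ENNReal.toReal_pos h2 h, ?_⟩
        rw [ENNReal.ofReal_toReal h]
    obtain ⟨a, ha, had⟩ := Metric.mem_closure_iff.1 hφ δ hδ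
    have h3 : ∀ᶠ T : ℝ in atTop, eLpNorm (fun V => xT (ev (A1 V)) (ev (A2 V)) T a) 2
        (PQ d (μ' ⊗ₘ K)) ≤ ε / 2 := by
      have h4 : Tendsto (fun T : ℝ => eLpNorm (fun V => xT (ev (A1 V)) (ev (A2 V)) T a) 2
        (PQ d (μ' ⊗ₘ K))) atTop (𝓝 0) := ha
      have h2 : ε / 2 ≠ 0 := by simp [hε.ne']
      exact ENNReal.tendsto_nhds_zero.1 h4 _ (pos_iff_ne_zero.2 h2)
    filter_upwards [h3, eventually_gt_atTop (0 : ℝ)] with T hT1 hT
    have e1 : (fun V => xT (ev (A1 V)) (ev (A2 V)) T φ) =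
        fun V => xT (ev (A1 V)) (ev (A2 V)) T (φ - a) + xT (ev (A1 V)) (ev (A2 V)) T a := by
      funext V
      rw [← XTL_apply _ _ T hT, ← XTL_apply _ _ T hT, ← XTL_apply _ _ T hT, ← map_add,
        sub_add_cancel]
    rw [e1]
    refine (eLpNorm_add_le (sm_xT hev T _).aestronglyMeasurable
      (sm_xT hev T _).aestronglyMeasurable (by norm_num)).trans ?_
    calc _ ≤ ε / 2 + ε / 2 := by
          refine add_le_add ?_ hT1
          have h5 : eLpNorm (fun V => xT (ev (A1 V)) (ev (A2 V)) T (φ - a)) 2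
              (PQ d (μ' ⊗ₘ K)) ≤ eLpNorm (fun _ : Site d → ℝ × ℝ => δ) 2
              (PQ d (μ' ⊗ₘ K)) := by
            refine eLpNorm_mono_real fun V => ?_
            rw [← XTL_apply _ _ T hT]
            refine (XTL_norm _ _ T hT _).trans ?_
            rw [← dist_eq_norm]
            exact had.le
          refine h5.trans ?_
          rw [eLpNorm_const _ (by norm_num) (NeZero.ne _), measure_univ]
          simp only [ENNReal.one_rpow, mul_one]
          rw [← ofReal_norm, Real.norm_of_nonneg hδ.le]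
          exact hδε
      _ = ε := ENNReal.add_halves ε
  apply hcl
  have hsub : (Submodule.span ℂ (Set.range (dl (d := d))) : Set (L2 (Site d))) ⊆ S := by
    have hle : Submodule.span ℂ (Set.range (dl (d := d))) ≤ S := by
      rw [Submodule.span_le]
      rintro _ ⟨z, rfl⟩
      exact hbase z
    exact hle
  exact closure_mono hsub (LIMB.dl_dense d ψ)

theorem coh_sq (hev : ∀ V, IsGrp c V (ev V)) (μ' : Measure ℝ) [IsProbabilityMeasure μ']
    (K : Kernel ℝ ℝ) [IsMarkovKernel K] (hK : ∀ s, ∃ C : ℝ≥0, K s ≤ C • volume)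
    (ψ : L2 (Site d)) :
    Tendsto (fun T : ℝ => ∫⁻ V, ‖xT (ev (A1 V)) (ev (A2 V)) T ψ‖ₑ ^ 2
      ∂(PQ d (μ' ⊗ₘ K))) atTop (𝓝 0) := by
  have h := ((ENNReal.continuous_pow 2).tendsto 0).comp (coh_psi (d := d) hev μ' K hK ψ)
  simp only [Function.comp_def, n2_sq] at h
  simpa using h

variable {ν : Measure ℝ} [IsProbabilityMeasure ν] (ψ : L2 (Site d))

/-- coordinates of the mean wave function -/
noncomputable def mw (ev : (Site d → ℝ) → UG (L2 (Site d))) (ν : Measure ℝ)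
    [IsProbabilityMeasure ν] (ψ : L2 (Site d)) (t : ℝ) (x : Site d) : ℂ :=
  ∫ V, ((ev V).U t ψ) x ∂(PP d ν)

/-- correlation of two independent copies -/
noncomputable def GG (ev : (Site d → ℝ) → UG (L2 (Site d))) (ν : Measure ℝ)
    [IsProbabilityMeasure ν] (ψ : L2 (Site d)) (t : ℝ) : ℂ :=
  ∫ V, ⟪(ev (A1 V)).U t ψ, (ev (A2 V)).U t ψ⟫_ℂ ∂(PQ d (ν.prod ν))

lemma GG_sum (hev : ∀ V, IsGrp c V (ev V)) (t : ℝ) :
    HasSum (fun x => ‖mw ev ν ψ t x‖ ^ 2) (GG ev ν ψ t).re ∧ 0 ≤ (GG ev ν ψ t).re := by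
  have hp : IsProbabilityMeasure (PP d ν) := by unfold PP; infer_instance
  have c1 : Continuous fun V : Site d → ℝ × ℝ => (ev (A1 V)).U t ψ :=
    contU hev cont_A1 continuous_const continuous_const
  have c2 : Continuous fun V : Site d → ℝ × ℝ => (ev (A2 V)).U t ψ :=
    contU hev cont_A2 continuous_const continuous_const
  have E1 := STAT.exch (PQ d (ν.prod ν)) (fun V => (ev (A1 V)).U t ψ)
    (fun V => (ev (A2 V)).U t ψ) ‖ψ‖
    (fun x => ((STAT.cont_eval x).comp c1).aestronglyMeasurable)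
    (fun x => ((STAT.cont_eval x).comp c2).aestronglyMeasurable)
    (fun V => by rw [(ev _).norm']) (fun V => by rw [(ev _).norm'])
  have e2 : ∀ x : Site d, (∫ V, conj (((ev (A1 V)).U t ψ) x) *
      ((ev (A2 V)).U t ψ) x ∂(PQ d (ν.prod ν))) = ((‖mw ev ν ψ t x‖ ^ 2 : ℝ) : ℂ) := by
    intro x
    have hm : Measurable fun V : Site d → ℝ × ℝ => (A1 V, A2 V) :=
      cont_A1.measurable.prodMk cont_A2.measurable
    have c3 : Continuous fun V : Site d → ℝ => ((ev V).U t ψ) x :=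
      (STAT.cont_eval x).comp (contU hev continuous_id continuous_const continuous_const)
    have c4 : Continuous fun p : (Site d → ℝ) × (Site d → ℝ) =>
        conj (((ev p.1).U t ψ) x) * ((ev p.2).U t ψ) x :=
      (Complex.continuous_conj.comp (c3.comp continuous_fst)).mul (c3.comp continuous_snd)
    have h1 := integral_map (μ := PQ d (ν.prod ν)) (φ := fun V => (A1 V, A2 V))
      (f := fun p : (Site d → ℝ) × (Site d → ℝ) =>
        conj (((ev p.1).U t ψ) x) * ((ev p.2).U t ψ) x) hm.aemeasurable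
      c4.aestronglyMeasurable
    rw [pair_law] at h1
    rw [← h1, integral_prod_mul (fun V => conj (((ev V).U t ψ) x))
      (fun V => ((ev V).U t ψ) x), integral_conj, mul_comm, Complex.mul_conj,
      Complex.normSq_eq_norm_sq]
    rfl
  simp only [e2] at E1
  have E2 : HasSum (fun x => ((‖mw ev ν ψ t x‖ ^ 2 : ℝ) : ℂ)) (GG ev ν ψ t) := E1
  have E3 := Complex.hasSum_re E2
  simp only [Complex.ofReal_re] at E3
  exact ⟨E3, E3.nonneg fun x => by positivity⟩

lemma cont_GGi (hev : ∀ V, IsGrp c V (ev V)) :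
    Continuous fun p : ℝ × (Site d → ℝ × ℝ) =>
      ⟪ψ, (ev (A1 p.2)).U (-p.1) ((ev (A2 p.2)).U p.1 ψ)⟫_ℂ := by
  refine continuous_const.inner ?_
  exact contU hev (cont_A1.comp continuous_snd) continuous_fst.neg
    (contU hev (cont_A2.comp continuous_snd) continuous_fst continuous_const)

lemma GG_int (hev : ∀ V, IsGrp c V (ev V)) (T : ℝ) (hT : 0 < T) :
    ∫ t in (0 : ℝ)..T, GG ev ν ψ t = T * ∫ V, ⟪ψ,
      xT (ev (A1 V)) (ev (A2 V)) T ψ⟫_ℂ ∂(PQ d (ν.prod ν)) := by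
  have e1 : ∀ t, GG ev ν ψ t = ∫ V, ⟪ψ,
      (ev (A1 V)).U (-t) ((ev (A2 V)).U t ψ)⟫_ℂ ∂(PQ d (ν.prod ν)) := by
    intro t
    unfold GG
    refine integral_congr_ae (Eventually.of_forall fun V => ?_)
    simp only
    rw [STAT.inner_adj (ev (A1 V)) (-t), neg_neg]
  have e2 : ∀ V : Site d → ℝ × ℝ, ⟪ψ,
      xT (ev (A1 V)) (ev (A2 V)) T ψ⟫_ℂ = (T : ℂ)⁻¹ * ∫ t in (0 : ℝ)..T,
        ⟪ψ, (ev (A1 V)).U (-t) ((ev (A2 V)).U t ψ)⟫_ℂ := by
    intro V
    unfold xT
    rw [inner_smul_right]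
    congr 1
    have := ContinuousLinearMap.intervalIntegral_comp_comm (innerSL ℂ ψ)
      ((cont_f (ev (A1 V)) (ev (A2 V)) ψ).intervalIntegrable (μ := volume) (0 : ℝ) T)
    simp only [innerSL_apply_apply] at this
    exact this.symm
  simp only [e1, e2]
  rw [integral_const_mul, ← mul_assoc, mul_inv_cancel₀ (by exact_mod_cast hT.ne'), one_mul]
  simp only [intervalIntegral.integral_of_le hT.le]
  rw [integral_integral_swap]
  refine Integrable.of_bound (C := ‖ψ‖ * ‖ψ‖) (cont_GGi ψ hev).aestronglyMeasurable ?_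
  refine Eventually.of_forall fun p => ?_
  refine (norm_inner_le_norm _ _).trans ?_
  gcongr
  exact norm_fb _ _ _ _ _

theorem coh_mean (hev : ∀ V, IsGrp c V (ev V)) {C : ℝ≥0} (hν : ν ≤ C • volume) :
    Tendsto (fun T : ℝ => (∫⁻ t in Set.Ioc 0 T, ∑' x, ‖mw ev ν ψ t x‖ₑ ^ 2) /
      ENNReal.ofReal T) atTop (𝓝 0) := by
  have hcp : ν ⊗ₘ (Kernel.const ℝ ν) = ν.prod ν := Measure.compProd_const
  have h0 := ENNReal.Tendsto.const_mul (a := ‖ψ‖ₑ)
    (coh_psi (d := d) hev ν (Kernel.const ℝ ν) (fun s => ⟨C, hν⟩) ψ) (Or.inr (by simp))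
  rw [mul_zero] at h0
  simp only [hcp] at h0
  refine tendsto_of_tendsto_of_tendsto_of_le_of_le' tendsto_const_nhds h0
    (Eventually.of_forall fun _ => zero_le) ?_
  filter_upwards [eventually_ge_atTop (1 : ℝ)] with T hT
  have hT0 : 0 < T := by linarith
  have h1 : ∀ t, ∑' x, ‖mw ev ν ψ t x‖ₑ ^ 2 = ENNReal.ofReal (GG ev ν ψ t).re := by
    intro t
    obtain ⟨h2, h3⟩ := GG_sum (ν := ν) ψ hev t
    rw [← h2.tsum_eq, ENNReal.ofReal_tsum_of_nonneg (fun _ => by positivity) h2.summable]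
    refine tsum_congr fun x => ?_
    rw [ENNReal.ofReal_pow (norm_nonneg _), ofReal_norm]
  simp only [h1]
  have hcG : Continuous fun t => GG ev ν ψ t := by
    have e1 : (fun t => GG ev ν ψ t) = fun t => ∫ V, ⟪ψ,
        (ev (A1 V)).U (-t) ((ev (A2 V)).U t ψ)⟫_ℂ ∂(PQ d (ν.prod ν)) := by
      funext t
      unfold GG
      refine integral_congr_ae (Eventually.of_forall fun V => ?_)
      simp only
      rw [STAT.inner_adj (ev (A1 V)) (-t), neg_neg]
    rw [e1]
    refine continuous_of_dominated (bound := fun _ => ‖ψ‖ * ‖ψ‖) ?_ ?_ ?_ ?_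
    · intro t
      exact ((cont_GGi ψ hev).comp (continuous_const.prodMk continuous_id)).aestronglyMeasurable
    · intro t
      refine Eventually.of_forall fun V => ?_
      refine (norm_inner_le_norm _ _).trans ?_
      show ‖ψ‖ * _ ≤ ‖ψ‖ * ‖ψ‖
      gcongr
      exact norm_fb _ _ _ _ _
    · exact integrable_const _
    · refine Eventually.of_forall fun V => ?_
      exact (cont_GGi ψ hev).comp (continuous_id.prodMk continuous_const)
  have h4 : ∫⁻ t in Set.Ioc 0 T, ENNReal.ofReal (GG ev ν ψ t).re =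
      ENNReal.ofReal (∫ t in Set.Ioc 0 T, (GG ev ν ψ t).re) := by
    rw [ofReal_integral_eq_lintegral_ofReal]
    · have : IntegrableOn (fun t => (GG ev ν ψ t).re) (Set.Ioc 0 T) :=
        ((Complex.continuous_re.comp hcG).integrableOn_Icc).mono_set Set.Ioc_subset_Icc_self
      exact this
    · exact Eventually.of_forall fun t => (GG_sum (ν := ν) ψ hev t).2
  rw [h4, ← ENNReal.ofReal_div_of_pos hT0]
  have h5 : ∫ t in Set.Ioc 0 T, (GG ev ν ψ t).re = (∫ t in (0 : ℝ)..T, GG ev ν ψ t).re := by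
    rw [intervalIntegral.integral_of_le hT0.le]
    have : IntegrableOn (fun t => GG ev ν ψ t) (Set.Ioc 0 T) :=
      (hcG.integrableOn_Icc).mono_set Set.Ioc_subset_Icc_self
    exact integral_re this
  have h6 : (∫ t in Set.Ioc 0 T, (GG ev ν ψ t).re) / T ≤ ‖∫ V, ⟪ψ,
      xT (ev (A1 V)) (ev (A2 V)) T ψ⟫_ℂ ∂(PQ d (ν.prod ν))‖ := by
    rw [h5, GG_int ψ hev T hT0, Complex.re_ofReal_mul, mul_div_cancel_left₀ _ hT0.ne']
    exact Complex.re_le_norm _
  refine (ENNReal.ofReal_le_ofReal h6).trans ?_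
  rw [ofReal_norm]
  refine (enorm_integral_le_lintegral_enorm _).trans ?_
  have h7 : ∀ V : Site d → ℝ × ℝ, ‖⟪ψ,
      xT (ev (A1 V)) (ev (A2 V)) T ψ⟫_ℂ‖ₑ ≤
      ‖ψ‖ₑ * ‖xT (ev (A1 V)) (ev (A2 V)) T ψ‖ₑ := by
    intro V
    rw [← ofReal_norm, ← ofReal_norm, ← ofReal_norm, ← ENNReal.ofReal_mul (norm_nonneg _)]
    exact ENNReal.ofReal_le_ofReal (norm_inner_le_norm _ _)
  refine (lintegral_mono h7).trans ?_
  rw [lintegral_const_mul _ (sm_xT hev T ψ).enorm.measurable, ← eLpNorm_one_eq_lintegral_enorm]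
  gcongr
  exact eLpNorm_le_eLpNorm_of_exponent_le (by norm_num)
    (sm_xT hev T ψ).aestronglyMeasurable

end Pool.Agent.Helper26.Nb
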