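import Pool.Agent.Helper26.Nb.Pair

/-! # Disjointness of two evolutions, one of which sees independent noise -/

set_option autoImplicit false

open MeasureTheory Filter Topology ProbabilityTheory
open scoped BigOperators ENNReal NNReal InnerProductSpace ComplexConjugate

namespace Pool.Agent.Helper26.Nb

open Pool.Agent.H5R2.NB

variable {d : ℕ} {c : ℝ} {ev : (Site d → ℝ) → UG (L2 (Site d))}

lemma A1_update (V : Site d → ℝ × ℝ) (q : ℝ × ℝ) :
    A1 (Function.update V 0 q) = Function.update (A1 V) 0 q.1 := by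
  funext x
  unfold A1
  by_cases h : x = 0
  · subst h; simp
  · simp [Function.update_of_ne h]

lemma A2_update (V : Site d → ℝ × ℝ) (q : ℝ × ℝ) :
    A2 (Function.update V 0 q) = Function.update (A2 V) 0 q.2 := by
  funext x
  unfold A2
  by_cases h : x = 0
  · subst h; simp
  · simp [Function.update_of_ne h]

theorem xdisj' (hev : ∀ V, IsGrp c V (ev V)) (μ' : Measure ℝ) [IsProbabilityMeasure μ']
    (K : Kernel ℝ ℝ) [IsMarkovKernel K] (hK : ∀ s, ∃ C : ℝ≥0, K s ≤ C • volume) :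
    Tendsto (fun N : ℕ => ∫⁻ V, ‖xP (ev (A1 V)) (ev (A2 V)) N (dl 0)‖ₑ ^ 2 ∂(PQ d (μ' ⊗ₘ K)))
      atTop (𝓝 0) ∧
    ∃ Nk : ℕ → ℕ, Tendsto Nk atTop atTop ∧ ∀ᵐ V ∂(PQ d (μ' ⊗ₘ K)), ∀ x,
      Tendsto (fun n => xP (ev (A1 V)) (ev (A2 V)) (Nk n) x) atTop (𝓝 0) := by
  obtain ⟨Nk, b, hNk, hL2, hgood⟩ := xlim (d := d) hev (μ' ⊗ₘ K)
  have hmp := mp_update (d := d) (μ' ⊗ₘ K)
  -- the measurable set
  have hmeas : MeasurableSet {V : Site d → ℝ × ℝ |
      Tendsto (fun n => xP (ev (A1 V)) (ev (A2 V)) (Nk n) (dl 0)) atTop (𝓝 0)} := by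
    have e1 : {V : Site d → ℝ × ℝ |
        Tendsto (fun n => xP (ev (A1 V)) (ev (A2 V)) (Nk n) (dl 0)) atTop (𝓝 0)} =
        {V : Site d → ℝ × ℝ |
          Tendsto (fun n => ‖xP (ev (A1 V)) (ev (A2 V)) (Nk n) (dl 0)‖) atTop (𝓝 0)} := by
      ext V
      exact tendsto_zero_iff_norm_tendsto_zero
    rw [e1]
    refine measurableSet_tendsto (𝓝 0) fun n => ?_
    exact (cont_xP hev (Nk n)).norm.measurable
  have hg2 : ∀ᵐ p ∂((PQ d (μ' ⊗ₘ K)).prod (μ' ⊗ₘ K)), ∃ B : L2 (Site d) →L[ℂ] L2 (Site d),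
      XGood (ev (A1 (Function.update p.1 0 p.2))) (ev (A2 (Function.update p.1 0 p.2))) Nk B := by
    refine hmp.quasiMeasurePreserving.ae (p := fun V => ∃ B : L2 (Site d) →L[ℂ] L2 (Site d),
      XGood (ev (A1 V)) (ev (A2 V)) Nk B) ?_
    filter_upwards [hgood] with V hV
    obtain ⟨B, hB, -⟩ := hV
    exact ⟨B, hB⟩
  have hg3 := Measure.ae_ae_of_ae_prod hg2
  have key : ∀ᵐ V ∂(PQ d (μ' ⊗ₘ K)), ∀ᵐ q ∂(μ' ⊗ₘ K),
      Tendsto (fun n => xP (ev (A1 (Function.update V 0 q))) (ev (A2 (Function.update V 0 q)))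
        (Nk n) (dl 0)) atTop (𝓝 0) := by
    filter_upwards [hg3] with V hV
    have hV2 := Measure.ae_ae_of_ae_compProd hV
    have hms : MeasurableSet {q : ℝ × ℝ | Tendsto (fun n => xP (ev (A1 (Function.update V 0 q)))
        (ev (A2 (Function.update V 0 q))) (Nk n) (dl 0)) atTop (𝓝 0)} := by
      have hm : Measurable fun q : ℝ × ℝ => Function.update V (0 : Site d) q :=
        meas_update.comp (measurable_const.prodMk measurable_id)
      exact hm hmeas
    refine (Measure.ae_compProd_iff hms).2 ?_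
    filter_upwards [hV2] with s' hs'
    obtain ⟨C, hC⟩ := hK s'
    classical
    set B : ℝ → L2 (Site d) →L[ℂ] L2 (Site d) := fun κ =>
      if h : ∃ B : L2 (Site d) →L[ℂ] L2 (Site d),
        XGood (ev (Function.update (A1 V) 0 s')) (ev (Function.update (A2 V) 0 κ)) Nk B
      then h.choose else 0 with hB
    have hBg : ∀ᵐ κ ∂(K s'), XGood (ev (Function.update (A1 V) 0 s'))
        (ev (Function.update (A2 V) 0 κ)) Nk (B κ) := by
      filter_upwards [hs'] with κ hκ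
      rw [A1_update, A2_update] at hκ
      simp only [hB]
      rw [dif_pos hκ]
      exact hκ.choose_spec
    have hfam := t_FAM ALL.a_UN d c ev hev (A2 V)
    have hz := xzero (ev (Function.update (A1 V) 0 s')) (fun κ => ev (Function.update (A2 V) 0 κ))
      (dl 0) hfam (K s') C hC Nk hNk B hBg
    filter_upwards [hBg, hz] with κ h1 h2
    have h3 := (h1 (dl 0)).1
    rw [h2] at h3
    rw [A1_update, A2_update]
    exact h3
  have hprod : ∀ᵐ p ∂((PQ d (μ' ⊗ₘ K)).prod (μ' ⊗ₘ K)),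
      Function.update p.1 0 p.2 ∈ {V : Site d → ℝ × ℝ |
      Tendsto (fun n => xP (ev (A1 V)) (ev (A2 V)) (Nk n) (dl 0)) atTop (𝓝 0)} := by
    refine (Measure.ae_prod_iff_ae_ae ?_).2 key
    exact hmp.measurable hmeas
  have hfin : ∀ᵐ V ∂(PQ d (μ' ⊗ₘ K)), V ∈ {V : Site d → ℝ × ℝ |
      Tendsto (fun n => xP (ev (A1 V)) (ev (A2 V)) (Nk n) (dl 0)) atTop (𝓝 0)} := by
    unfold PQ
    rw [← hmp.map_eq]
    exact (ae_map_iff hmp.measurable.aemeasurable hmeas).2 hprod
  have hb0 : ∀ᵐ V ∂(PQ d (μ' ⊗ₘ K)), b V = 0 := by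
    filter_upwards [hfin, hgood] with V h1 h2
    obtain ⟨B, hB, hBb⟩ := h2
    rw [← hBb]
    exact tendsto_nhds_unique (hB (dl 0)).1 h1
  constructor
  · refine hL2.congr fun N => ?_
    refine lintegral_congr_ae ?_
    filter_upwards [hb0] with V hV
    rw [hV, sub_zero]
  · refine ⟨Nk, hNk, ?_⟩
    have hz : ∀ᵐ V ∂(PQ d (μ' ⊗ₘ K)), ∀ z : Site d,
        Tendsto (fun n => xP (ev (A1 fun y => V (y + z))) (ev (A2 fun y => V (y + z))) (Nk n)
          (dl 0)) atTop (𝓝 0) := by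
      rw [ae_all_iff]
      intro z
      exact (mp_shift (d := d) (μ' ⊗ₘ K) z).quasiMeasurePreserving.ae hfin
    filter_upwards [hz, hgood] with V h1 h2
    obtain ⟨B, hB, -⟩ := h2
    have hBz : ∀ z : Site d, B (dl z) = 0 := by
      intro z
      obtain ⟨S, hS⟩ := (t_OPS d).1 (-z)
      have h3 := (S.continuous.tendsto _).comp (h1 z)
      rw [map_zero] at h3
      refine tendsto_nhds_unique (hB (dl z)).1 (h3.congr fun k => ?_)
      rw [xP_shift hev hS]
      rfl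
    intro x
    have hx : B x = 0 := by
      have hcl : IsClosed {x | B x = 0} := isClosed_eq B.continuous continuous_const
      have hsub : (Submodule.span ℂ (Set.range (dl (d := d))) : Set (L2 (Site d))) ⊆
          {x | B x = 0} := by
        intro y hy
        have hle : Submodule.span ℂ (Set.range (dl (d := d))) ≤
            LinearMap.ker (B : L2 (Site d) →ₗ[ℂ] L2 (Site d)) := by
          rw [Submodule.span_le]
          rintro _ ⟨z, rfl⟩
          exact hBz z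
        exact hle hy
      exact closure_minimal hsub hcl (LIMB.dl_dense d x)
    have h4 := (hB x).1
    rwa [hx] at h4

theorem xdisj (hev : ∀ V, IsGrp c V (ev V)) (μ' : Measure ℝ) [IsProbabilityMeasure μ']
    (K : Kernel ℝ ℝ) [IsMarkovKernel K] (hK : ∀ s, ∃ C : ℝ≥0, K s ≤ C • volume) :
    Tendsto (fun N : ℕ => ∫⁻ V, ‖xP (ev (A1 V)) (ev (A2 V)) N (dl 0)‖ₑ ^ 2 ∂(PQ d (μ' ⊗ₘ K)))
      atTop (𝓝 0) := (xdisj' hev μ' K hK).1

end Pool.Agent.Helper26.Nb
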