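import Pool.Agent.Helper26.Nb.Box

/-! # Truncated Bloch functions in mean square -/

set_option autoImplicit false

open MeasureTheory Filter Topology ProbabilityTheory
open scoped BigOperators ENNReal NNReal InnerProductSpace ComplexConjugate

namespace Pool.Agent.Helper26.Nb

open Pool.Agent.H5R2.NB

variable {d : ℕ}

lemma n2_sq {Y X : Type} [MeasurableSpace Y] [NormedAddCommGroup X] (μ : Measure Y) (f : Y → X) :
    (eLpNorm f 2 μ) ^ 2 = ∫⁻ y, ‖f y‖ₑ ^ 2 ∂μ := by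
  have h := eLpNorm_nnreal_pow_eq_lintegral (μ := μ) (f := f) (p := 2) (by norm_num)
  have h2 : ((2 : ℝ≥0) : ℝ) = ((2 : ℕ) : ℝ) := by norm_num
  rw [h2] at h
  simp only [ENNReal.rpow_natCast] at h
  simpa using h

lemma n2_le {Y X : Type} [MeasurableSpace Y] [NormedAddCommGroup X] (μ : Measure Y) (f : Y → X)
    (a : ℝ≥0∞) (h : ∫⁻ y, ‖f y‖ₑ ^ 2 ∂μ ≤ a ^ 2) : eLpNorm f 2 μ ≤ a := by
  rw [← n2_sq] at h
  exact (ENNReal.pow_le_pow_left_iff (by norm_num)).1 h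

lemma cs {Y X Z : Type} [MeasurableSpace Y] [NormedAddCommGroup X] [NormedAddCommGroup Z]
    (μ : Measure Y) (f : Y → X)
    (g : Y → Z) (hf : AEStronglyMeasurable f μ) (hg : AEStronglyMeasurable g μ) :
    ∫⁻ y, ‖f y‖ₑ * ‖g y‖ₑ ∂μ ≤ eLpNorm f 2 μ * eLpNorm g 2 μ := by
  have h := ENNReal.lintegral_mul_le_Lp_mul_Lq μ (p := 2) (q := 2)
    (Real.HolderConjugate.two_two) hf.enorm hg.enorm
  have e1 : ∀ {X : Type} [NormedAddCommGroup X] (f : Y → X),
      (∫⁻ y, ‖f y‖ₑ ^ (2 : ℝ) ∂μ) ^ ((1 : ℝ) / 2) = eLpNorm f 2 μ := by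
    intro X _ f
    rw [eLpNorm_eq_lintegral_rpow_enorm_toReal (by norm_num) (by norm_num)]
    simp
  rw [e1, e1] at h
  exact h

/-- Bloch-type functions -/
def Bl (e : Site d → ℂ) (φ : (Site d → ℝ) → ℂ) (V : Site d → ℝ) : Site d → ℂ :=
  fun x => e x * φ (sh x V)

lemma meas_sh {α : Type} [MeasurableSpace α] (x : Site d) :
    Measurable (sh x : (Site d → α) → (Site d → α)) := meas_shift x

lemma mp_sh {α : Type} [MeasurableSpace α] (ρ : Measure α) [IsProbabilityMeasure ρ] (x : Site d) :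
    MeasurePreserving (sh x : (Site d → α) → (Site d → α))
      (Measure.infinitePi fun _ : Site d => ρ) (Measure.infinitePi fun _ : Site d => ρ) :=
  mp_shift ρ x

lemma sm_Ws {Y : Type} [MeasurableSpace Y] (s : Finset (Site d)) (τ : Site d → Site d)
    (a : Y → Site d → ℂ) (ha : ∀ x, StronglyMeasurable fun y => a y x) :
    StronglyMeasurable fun y => Ws s τ (a y) := by
  unfold Ws
  exact Finset.stronglyMeasurable_fun_sum s fun x _ => (ha x).smul_const _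

lemma sm_Bl {Y : Type} [MeasurableSpace Y] {A : Y → Site d → ℝ} (hA : Measurable A)
    (e : Site d → ℂ) {φ : (Site d → ℝ) → ℂ} (hφ : StronglyMeasurable φ) (x : Site d) :
    StronglyMeasurable fun y => Bl e φ (A y) x := by
  unfold Bl
  exact (hφ.comp_measurable ((meas_sh x).comp hA)).const_mul _

variable {Y : Type} [MeasurableSpace Y] {Q : Measure Y} {ν : Measure ℝ} [IsProbabilityMeasure ν]
  {A : Y → Site d → ℝ}

/-- second moment of a finite combination -/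
lemma sq_Ws (hA : MeasurePreserving A Q (PP d ν)) (s : Finset (Site d)) (τ : Site d → Site d)
    (hτ : Function.Injective τ) {e : Site d → ℂ} (he : ∀ x, ‖e x‖ = 1)
    {φ : (Site d → ℝ) → ℂ} (hφ : StronglyMeasurable φ) :
    ∫⁻ y, ‖Ws s τ (Bl e φ (A y))‖ₑ ^ 2 ∂Q = s.card * ∫⁻ V, ‖φ V‖ₑ ^ 2 ∂(PP d ν) := by
  simp only [norm_Ws s τ hτ]
  rw [lintegral_finsetSum]
  · rw [Finset.sum_congr rfl (g := fun _ => ∫⁻ V, ‖φ V‖ₑ ^ 2 ∂(PP d ν))]
    · rw [Finset.sum_const, nsmul_eq_mul]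
    · intro x _
      have hm : Measurable fun V : Site d → ℝ => ‖φ V‖ₑ ^ 2 := hφ.enorm.pow_const 2
      have e1 : ∀ y, ‖Bl e φ (A y) x‖ₑ ^ 2 = (fun V => ‖φ V‖ₑ ^ 2) (sh x (A y)) := by
        intro y
        unfold Bl
        have : ‖e x‖ₑ = 1 := by rw [← ofReal_norm, he, ENNReal.ofReal_one]
        rw [enorm_mul, this, one_mul]
      simp only [e1]
      have hc : MeasurePreserving (fun y => sh x (A y)) Q (PP d ν) :=
        (mp_sh ν x).comp hA
      exact hc.lintegral_comp hm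
  · intro x _
    exact (sm_Bl hA.measurable e hφ x).enorm.pow_const 2

lemma n2_Ws (hA : MeasurePreserving A Q (PP d ν)) (s : Finset (Site d)) (τ : Site d → Site d)
    (hτ : Function.Injective τ) {e : Site d → ℂ} (he : ∀ x, ‖e x‖ = 1)
    {φ : (Site d → ℝ) → ℂ} (hφ : StronglyMeasurable φ) (a : ℕ) (ha : s.card ≤ a ^ 2) :
    eLpNorm (fun y => Ws s τ (Bl e φ (A y))) 2 Q ≤ a * eLpNorm φ 2 (PP d ν) := by
  refine n2_le _ _ _ ?_
  rw [sq_Ws hA s τ hτ he hφ, mul_pow, n2_sq]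
  gcongr
  exact_mod_cast ha

lemma n2_bt (hA : MeasurePreserving A Q (PP d ν)) (M : ℕ) {e : Site d → ℂ} (he : ∀ x, ‖e x‖ = 1)
    {φ : (Site d → ℝ) → ℂ} (hφ : StronglyMeasurable φ) (i : Fin d) :
    eLpNorm (fun y => bt (M ^ 2) (Bl e φ (A y)) i) 2 Q ≤
      4 * (M ^ (d - 1) * eLpNorm φ 2 (PP d ν)) := by
  unfold bt
  set n := eLpNorm φ 2 (PP d ν) with hn
  have inj1 : Function.Injective fun y : Site d => y - Pi.single i (1 : ℤ) :=
    fun a b h => sub_left_injective h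
  have inj2 : Function.Injective fun y : Site d => y + Pi.single i (1 : ℤ) :=
    fun a b h => add_left_injective _ h
  have hm : ∀ (s : Finset (Site d)) (τ : Site d → Site d),
      AEStronglyMeasurable (fun y => Ws s τ (Bl e φ (A y))) Q := fun s τ =>
    (sm_Ws s τ _ (sm_Bl hA.measurable e hφ)).aestronglyMeasurable
  have hface : ∀ (s : Finset (Site d)) (a : ℤ), s ⊆ face d (M ^ 2) i a →
      s.card ≤ (M ^ (d - 1)) ^ 2 := by
    intro s a hs
    refine (Finset.card_le_card hs).trans ?_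
    rw [card_face, ← pow_mul, ← pow_mul, mul_comm]
  have b1 := n2_Ws hA _ _ inj1 he hφ _ (hface _ _ (sub2 (M ^ 2) i))
  have b2 := n2_Ws hA _ _ inj1 he hφ _ (hface _ _ (sub1 (M ^ 2) i))
  have b3 := n2_Ws hA _ _ inj2 he hφ _ (hface _ _ (sub4 (M ^ 2) i))
  have b4 := n2_Ws hA _ _ inj2 he hφ _ (hface _ _ (sub3 (M ^ 2) i))
  rw [← hn] at b1 b2 b3 b4
  push_cast at b1 b2 b3 b4
  refine (eLpNorm_add_le ((hm _ _).sub (hm _ _)) ((hm _ _).sub (hm _ _)) (by norm_num)).trans ?_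
  have c1 := (eLpNorm_sub_le (hm (box d (M ^ 2) \ boxs d (M ^ 2) (Pi.single i 1))
    (fun y => y - Pi.single i 1)) (hm (boxs d (M ^ 2) (Pi.single i 1) \ box d (M ^ 2))
    (fun y => y - Pi.single i 1)) (p := 2) (by norm_num)).trans (add_le_add b1 b2)
  have c2 := (eLpNorm_sub_le (hm (box d (M ^ 2) \ boxs d (M ^ 2) (-Pi.single i 1))
    (fun y => y + Pi.single i 1)) (hm (boxs d (M ^ 2) (-Pi.single i 1) \ box d (M ^ 2))
    (fun y => y + Pi.single i 1)) (p := 2) (by norm_num)).trans (add_le_add b3 b4)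
  refine (add_le_add c1 c2).trans (le_of_eq ?_)
  ring

lemma n2_res (hA : MeasurePreserving A Q (PP d ν)) (c : ℝ) (M : ℕ) {e : Site d → ℂ}
    (he : ∀ x, ‖e x‖ = 1) {φ : (Site d → ℝ) → ℂ} (hφ : StronglyMeasurable φ) :
    eLpNorm (fun y => (c : ℂ) • ∑ i : Fin d, bt (M ^ 2) (Bl e φ (A y)) i) 2 Q ≤
      ‖c‖ₑ * (d * (4 * (M ^ (d - 1) * eLpNorm φ 2 (PP d ν)))) := by
  have hm : ∀ i : Fin d, AEStronglyMeasurable (fun y => bt (M ^ 2) (Bl e φ (A y)) i) Q := by
    intro i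
    have hm : ∀ (s : Finset (Site d)) (τ : Site d → Site d),
        AEStronglyMeasurable (fun y => Ws s τ (Bl e φ (A y))) Q := fun s τ =>
      (sm_Ws s τ _ (sm_Bl hA.measurable e hφ)).aestronglyMeasurable
    unfold bt
    exact ((hm _ _).sub (hm _ _)).add ((hm _ _).sub (hm _ _))
  have h1 : eLpNorm (fun y => (c : ℂ) • ∑ i : Fin d, bt (M ^ 2) (Bl e φ (A y)) i) 2 Q =
      ‖(c : ℂ)‖ₑ * eLpNorm (fun y => ∑ i : Fin d, bt (M ^ 2) (Bl e φ (A y)) i) 2 Q :=
    eLpNorm_const_smul (c : ℂ) _ _ _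
  rw [h1]
  have h2 : ‖(c : ℂ)‖ₑ = ‖c‖ₑ := by
    rw [← ofReal_norm, ← ofReal_norm, Complex.norm_real]
  rw [h2]
  gcongr
  have h3 := eLpNorm_sum_le (μ := Q) (p := 2) (s := Finset.univ)
    (f := fun (i : Fin d) y => bt (M ^ 2) (Bl e φ (A y)) i) (fun i _ => hm i) (by norm_num)
  have h4 : (∑ i : Fin d, fun y => bt (M ^ 2) (Bl e φ (A y)) i) =
      fun y => ∑ i : Fin d, bt (M ^ 2) (Bl e φ (A y)) i := by
    funext y
    simp
  rw [h4] at h3
  refine h3.trans ((Finset.sum_le_sum fun i _ => n2_bt hA M he hφ i).trans (le_of_eq ?_))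
  rw [Finset.sum_const, Finset.card_univ, Fintype.card_fin, nsmul_eq_mul]

section ineq

variable {c : ℝ} {ev : (Site d → ℝ) → UG (L2 (Site d))}

lemma cont_xPx (hev : ∀ V, IsGrp c V (ev V)) (N : ℕ) (x : L2 (Site d)) :
    Continuous fun V : Site d → ℝ × ℝ => xP (ev (A1 V)) (ev (A2 V)) N x := by
  suffices key : Continuous fun V : Site d → ℝ × ℝ =>
      ∫ s in (0 : ℝ)..(N : ℝ), (ev (A1 V)).U (-s) ((ev (A2 V)).U s x) from
    key.const_smul ((N : ℂ)⁻¹)
  refine intervalIntegral.continuous_parametric_intervalIntegral_of_continuous'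
    (f := fun (V : Site d → ℝ × ℝ) (s : ℝ) => (ev (A1 V)).U (-s) ((ev (A2 V)).U s x))
    ?_ _ _
  exact contU hev (cont_A1.comp continuous_fst) continuous_snd.neg
    (contU hev (cont_A2.comp continuous_fst) continuous_snd continuous_const)

lemma xP_sum (W' W : UG (L2 (Site d))) (N : ℕ) (s : Finset (Site d)) (a : Site d → ℂ)
    (w : Site d → L2 (Site d)) :
    xP W' W N (∑ y ∈ s, a y • w y) = ∑ y ∈ s, a y • xP W' W N (w y) := by
  have h : ∀ z, xP W' W N z = XPL W' W N z := fun _ => rfl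
  simp only [h]
  rw [map_sum]
  simp only [map_smul]

lemma eig_resid {K : L2 (Site d) →L[ℂ] L2 (Site d)} (hK : IsHop c K) {V : Site d → ℝ}
    {u : Site d → ℂ} {E : ℂ} (hu : ∀ x, hopf c u x + V x * u x = E * u x) (L : ℕ) (x : Site d) :
    hopf c (fun y => (Ws (box d L) id u) y) x + V x * (Ws (box d L) id u) x =
      E * (Ws (box d L) id u) x + ((c : ℂ) • ∑ i : Fin d, bt L u i : L2 (Site d)) x := by
  have h1 : ((c : ℂ) • ∑ i : Fin d, bt L u i : L2 (Site d)) x =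
      hopf c (fun y => (Ws (box d L) id u) y) x - (Ws (box d L) id (hopf c u)) x := by
    rw [← resid hK L u, lp.coeFn_sub, Pi.sub_apply, hK]
  rw [h1, Ws_apply, Ws_apply]
  have h2 := hu x
  by_cases h : x ∈ box d L
  · simp only [h, if_true]
    linear_combination h2
  · simp only [h, if_false]
    ring

theorem main_ineq (hev : ∀ V, IsGrp c V (ev V)) (ρ : Measure (ℝ × ℝ)) [IsProbabilityMeasure ρ]
    (hA1 : MeasurePreserving (A1 (d := d)) (PQ d ρ) (PP d ν))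
    (hA2 : MeasurePreserving (A2 (d := d)) (PQ d ρ) (PP d ν)) (E : ℝ) {e : Site d → ℂ}
    (he : ∀ x, ‖e x‖ = 1) {φ : (Site d → ℝ) → ℂ} (hφ : StronglyMeasurable φ)
    (hφ2 : MemLp φ 2 (PP d ν))
    (heig : ∀ᵐ V ∂(PP d ν), ∀ x, hopf c (Bl e φ V) x + V x * Bl e φ V x = E * Bl e φ V x)
    (M N : ℕ) (hN : 0 < N) :
    ((M : ℝ≥0∞) ^ d) ^ 2 * ‖∫ V, conj (φ (A1 V)) * φ (A2 V) ∂(PQ d ρ)‖ₑ ≤
      (M ^ d * eLpNorm φ 2 (PP d ν)) * eLpNorm (fun V => xP (ev (A1 V)) (ev (A2 V)) N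
        (Ws (box d (M ^ 2)) id (Bl e φ (A2 V)))) 2 (PQ d ρ) +
      N * (2 * ((‖c‖ₑ * (d * (4 * (M ^ (d - 1) * eLpNorm φ 2 (PP d ν))))) *
        (M ^ d * eLpNorm φ 2 (PP d ν)))) := by
  obtain ⟨K, hK⟩ := (t_OPS d).2.1 c
  set Λ := box d (M ^ 2) with hΛ
  set n := eLpNorm φ 2 (PP d ν) with hn
  set v' : (Site d → ℝ × ℝ) → L2 (Site d) := fun V => Ws Λ id (Bl e φ (A1 V)) with hv'
  set v : (Site d → ℝ × ℝ) → L2 (Site d) := fun V => Ws Λ id (Bl e φ (A2 V)) with hv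
  set r' : (Site d → ℝ × ℝ) → L2 (Site d) :=
    fun V => (c : ℂ) • ∑ i : Fin d, bt (M ^ 2) (Bl e φ (A1 V)) i with hr'
  set r : (Site d → ℝ × ℝ) → L2 (Site d) :=
    fun V => (c : ℂ) • ∑ i : Fin d, bt (M ^ 2) (Bl e φ (A2 V)) i with hr
  set x : (Site d → ℝ × ℝ) → L2 (Site d) :=
    fun V => xP (ev (A1 V)) (ev (A2 V)) N (v V) with hx
  -- measurability
  have mbt : ∀ {A : (Site d → ℝ × ℝ) → Site d → ℝ}, Measurable A →
      StronglyMeasurable fun V => (c : ℂ) • ∑ i : Fin d, bt (M ^ 2) (Bl e φ (A V)) i := by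
    intro A hA
    have h0 : StronglyMeasurable fun V => ∑ i : Fin d, bt (M ^ 2) (Bl e φ (A V)) i := by
      refine Finset.stronglyMeasurable_fun_sum _ fun i _ => ?_
      have hm : ∀ (s : Finset (Site d)) (τ : Site d → Site d),
          StronglyMeasurable (fun y => Ws s τ (Bl e φ (A y))) := fun s τ =>
        (sm_Ws s τ _ (sm_Bl hA e hφ))
      unfold bt
      exact ((hm _ _).sub (hm _ _)).add ((hm _ _).sub (hm _ _))
    exact h0.const_smul (c : ℂ)
  have mv' : StronglyMeasurable v' := sm_Ws _ _ _ (sm_Bl hA1.measurable e hφ)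
  have mv : StronglyMeasurable v := sm_Ws _ _ _ (sm_Bl hA2.measurable e hφ)
  have mr' : StronglyMeasurable r' := mbt hA1.measurable
  have mr : StronglyMeasurable r := mbt hA2.measurable
  have mx : StronglyMeasurable x := by
    have e1 : x = fun V => ∑ y ∈ Λ, (Bl e φ (A2 V) y) • xP (ev (A1 V)) (ev (A2 V)) N (dl y) := by
      funext V
      rw [hx, hv]
      simp only
      unfold Ws
      rw [xP_sum]
      simp only [id]
    rw [e1]
    refine Finset.stronglyMeasurable_fun_sum _ fun y _ => ?_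
    exact (sm_Bl hA2.measurable e hφ y).smul (cont_xPx hev N (dl y)).stronglyMeasurable
  -- the correlation
  have hcor : ∫ V, ⟪v' V, v V⟫_ℂ ∂(PQ d ρ) =
      ((M : ℂ) ^ d) ^ 2 * ∫ V, conj (φ (A1 V)) * φ (A2 V) ∂(PQ d ρ) := by
    have e1 : ∀ V, ⟪v' V, v V⟫_ℂ = ∑ y ∈ Λ,
        (fun V => conj (φ (A1 V)) * φ (A2 V)) (sh y V) := by
      intro V
      have h2 := (orth (d := d) id Function.injective_id).inner_sum (Bl e φ (A1 V))
        (Bl e φ (A2 V)) Λ
      rw [hv', hv]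
      simp only
      unfold Ws
      rw [h2]
      refine Finset.sum_congr rfl fun y _ => ?_
      unfold Bl
      rw [map_mul]
      have h3 : conj (e y) * e y = 1 := by
        rw [mul_comm, Complex.mul_conj, Complex.normSq_eq_norm_sq, he]
        simp
      have h4 : conj (e y) * conj (φ (sh y (A1 V))) * (e y * φ (sh y (A2 V))) =
          (conj (e y) * e y) * (conj (φ (sh y (A1 V))) * φ (sh y (A2 V))) := by ring
      rw [h4, h3, one_mul]
      rfl
    have hint : Integrable (fun V => conj (φ (A1 V)) * φ (A2 V)) (PQ d ρ) := by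
      have i1 : MemLp (fun V => φ (A1 V)) 2 (PQ d ρ) := hφ2.comp_measurePreserving hA1
      have i2 : MemLp (fun V => φ (A2 V)) 2 (PQ d ρ) := hφ2.comp_measurePreserving hA2
      have i3 : MemLp (fun V => conj (φ (A1 V))) 2 (PQ d ρ) := i1.star
      exact i3.integrable_mul i2
    simp only [e1]
    rw [integral_finsetSum]
    · rw [Finset.sum_congr rfl (g := fun _ => ∫ V, conj (φ (A1 V)) * φ (A2 V) ∂(PQ d ρ))]
      · rw [Finset.sum_const, hΛ, card_box, nsmul_eq_mul]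
        congr 1
        push_cast
        rw [← pow_mul, ← pow_mul, mul_comm]
      · intro y _
        have hmp := mp_sh (d := d) ρ y
        have h5 := integral_map (μ := PQ d ρ) (φ := sh y)
          (f := fun V => conj (φ (A1 V)) * φ (A2 V)) hmp.measurable.aemeasurable (by
            have : Measure.map (sh y) (PQ d ρ) = PQ d ρ := hmp.map_eq
            rw [this]
            exact hint.aestronglyMeasurable)
        have h6 : Measure.map (sh y) (PQ d ρ) = PQ d ρ := hmp.map_eq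
        rw [h6] at h5
        exact h5.symm
    · intro y _
      exact (mp_sh (d := d) ρ y).integrable_comp_of_integrable hint
  have hstep1 : ((M : ℝ≥0∞) ^ d) ^ 2 * ‖∫ V, conj (φ (A1 V)) * φ (A2 V) ∂(PQ d ρ)‖ₑ ≤
      ∫⁻ V, ‖⟪v' V, v V⟫_ℂ‖ₑ ∂(PQ d ρ) := by
    refine le_trans (le_of_eq ?_) (enorm_integral_le_lintegral_enorm _)
    rw [hcor, enorm_mul, enorm_pow, enorm_pow]
    congr 3
    rw [← ofReal_norm, Complex.norm_natCast, ENNReal.ofReal_natCast]
  -- pointwise bound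
  have hpt : ∀ᵐ V ∂(PQ d ρ), ‖⟪v' V, v V⟫_ℂ‖ₑ ≤ ‖v' V‖ₑ * ‖x V‖ₑ +
      N * (‖r' V‖ₑ * ‖v V‖ₑ + ‖v' V‖ₑ * ‖r V‖ₑ) := by
    filter_upwards [hA1.quasiMeasurePreserving.ae heig, hA2.quasiMeasurePreserving.ae heig]
      with V h1 h2
    have a1 := approx (hev (A1 V)) E (v' V) (r' V) (eig_resid hK h1 (M ^ 2))
    have a2 := approx (hev (A2 V)) E (v V) (r V) (eig_resid hK h2 (M ^ 2))
    have h3 := det (ev (A1 V)) (ev (A2 V)) (v' V) (v V) E ‖r V‖ ‖r' V‖ a2 a1
      (norm_nonneg _) (norm_nonneg _) N hN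
    have h4 : ‖⟪v' V, v V⟫_ℂ‖ ≤ ‖v' V‖ * ‖x V‖ +
        N * (‖r' V‖ * ‖v V‖ + ‖v' V‖ * ‖r V‖) := by
      have h5 : ‖⟪v' V, x V⟫_ℂ‖ ≤ ‖v' V‖ * ‖x V‖ := norm_inner_le_norm _ _
      have h6 : ⟪v' V, v V⟫_ℂ = ⟪v' V, x V⟫_ℂ + (⟪v' V, v V⟫_ℂ - ⟪v' V, x V⟫_ℂ) := by ring
      rw [h6]
      exact (norm_add_le _ _).trans (add_le_add h5 h3)
    have h7 := ENNReal.ofReal_le_ofReal h4
    rw [ENNReal.ofReal_add (by positivity) (by positivity), ENNReal.ofReal_mul (by positivity),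
      ENNReal.ofReal_mul (by positivity), ENNReal.ofReal_add (by positivity) (by positivity),
      ENNReal.ofReal_mul (by positivity), ENNReal.ofReal_mul (by positivity),
      ENNReal.ofReal_natCast] at h7
    simpa only [ofReal_norm] using h7
  refine hstep1.trans ((lintegral_mono_ae hpt).trans ?_)
  have m1 : Measurable fun V => ‖v' V‖ₑ * ‖x V‖ₑ := mv'.enorm.mul mx.enorm
  have m2 : Measurable fun V => ‖r' V‖ₑ * ‖v V‖ₑ := mr'.enorm.mul mv.enorm
  have m3 : Measurable fun V => ‖r' V‖ₑ * ‖v V‖ₑ + ‖v' V‖ₑ * ‖r V‖ₑ :=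
    m2.add (mv'.enorm.mul mr.enorm)
  rw [lintegral_add_left m1, lintegral_const_mul _ m3, lintegral_add_left m2]
  have hcard : Λ.card ≤ (M ^ d) ^ 2 := by
    rw [hΛ, card_box, ← pow_mul, ← pow_mul, mul_comm]
  have b1 := n2_Ws hA1 Λ id Function.injective_id he hφ _ hcard
  have b2 := n2_Ws hA2 Λ id Function.injective_id he hφ _ hcard
  have b3 := n2_res hA1 c M he hφ
  have b4 := n2_res hA2 c M he hφ
  push_cast at b1 b2
  rw [← hn] at b1 b2 b3 b4
  gcongr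
  · exact (cs _ _ _ mv'.aestronglyMeasurable mx.aestronglyMeasurable).trans (by gcongr)
  · rw [two_mul]
    refine add_le_add ?_ ?_
    · exact (cs _ _ _ mr'.aestronglyMeasurable mv.aestronglyMeasurable).trans (by gcongr)
    · refine (cs _ _ _ mv'.aestronglyMeasurable mr.aestronglyMeasurable).trans ?_
      rw [mul_comm]
      gcongr

end ineq

end Pool.Agent.Helper26.Nb
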