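import Pool.Agent.Helper26.Nb.Kay

/-! # Correlations of Bloch waves in coupled environments vanish -/

set_option autoImplicit false

open MeasureTheory Filter Topology ProbabilityTheory
open scoped BigOperators ENNReal NNReal InnerProductSpace ComplexConjugate

namespace Pool.Agent.Helper26.Nb

open Pool.Agent.H5R2.NB

variable {d : ℕ}

/-- the square root of the box size -/
def Mi (N : ℕ) : ℕ := (N + 1) ^ 2

lemma Mi_pos (N : ℕ) : 0 < Mi N := by unfold Mi; positivity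

/-- the averaged evolution of truncated Bloch functions is small infinitely often -/
def GoodK (ev : (Site d → ℝ) → UG (L2 (Site d))) (ρ : Measure (ℝ × ℝ)) [IsProbabilityMeasure ρ]
    (Nk : ℕ → ℕ) (u : Site d → ℂ) (φ : (Site d → ℝ) → ℂ) : Prop :=
  ∀ δ : ℝ≥0, 0 < δ → ∃ᶠ i in atTop,
    eLpNorm (xB ev (Nk i) (Mi (Nk i)) u φ) 2 (PQ d ρ) ≤ (Mi (Nk i) : ℝ≥0∞) ^ d * δ

variable {𝕂 : Type} [MeasurableSpace 𝕂] {m : Measure 𝕂} [IsProbabilityMeasure m]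
  {e : 𝕂 → Site d → ℂ} {c : ℝ} {ev : (Site d → ℝ) → UG (L2 (Site d))}
  {ν : Measure ℝ} [IsProbabilityMeasure ν]

theorem goodK_ae (hev : ∀ V, IsGrp c V (ev V)) (ρ : Measure (ℝ × ℝ)) [IsProbabilityMeasure ρ]
    (hA2 : MeasurePreserving (A2 (d := d)) (PQ d ρ) (PP d ν)) (h : Bes m e)
    {φ : (Site d → ℝ) → ℂ} (hφ : StronglyMeasurable φ) (hφ2 : MemLp φ 2 (PP d ν)) (Nk : ℕ → ℕ)
    (hlim : ∀ᵐ V ∂(PQ d ρ), ∀ x,
      Tendsto (fun n => xP (ev (A1 V)) (ev (A2 V)) (Nk n) x) atTop (𝓝 0)) :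
    ∀ᵐ k ∂m, GoodK ev ρ Nk (e k) φ := by
  have hfin : ∫⁻ V, ‖φ (A2 V)‖ₑ ^ 2 ∂(PQ d ρ) ≠ ∞ := by
    have h1 := hA2.lintegral_comp (f := fun V => ‖φ V‖ₑ ^ 2) (hφ.enorm.pow_const 2)
    rw [h1, ← n2_sq]
    exact ENNReal.pow_ne_top hφ2.eLpNorm_ne_top
  have hβ : Tendsto (fun i => ∫⁻ V, ‖φ (A2 V)‖ₑ ^ 2 *
      ‖xP (ev (A1 V)) (ev (A2 V)) (Nk i) (dl 0)‖ₑ ^ 2 ∂(PQ d ρ)) atTop (𝓝 0) := by
    have h2 := tendsto_lintegral_of_dominated_convergence (μ := PQ d ρ)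
      (F := fun i V => ‖φ (A2 V)‖ₑ ^ 2 * ‖xP (ev (A1 V)) (ev (A2 V)) (Nk i) (dl 0)‖ₑ ^ 2)
      (f := fun _ => 0) (fun V => ‖φ (A2 V)‖ₑ ^ 2) ?_ ?_ hfin ?_
    · simpa using h2
    · intro i
      have a1 : Measurable fun V : Site d → ℝ × ℝ => ‖φ (A2 V)‖ₑ ^ 2 :=
        (hφ.comp_measurable cont_A2.measurable).enorm.pow_const 2
      have a2 : Measurable fun V : Site d → ℝ × ℝ =>
          ‖xP (ev (A1 V)) (ev (A2 V)) (Nk i) (dl 0)‖ₑ ^ 2 :=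
        (cont_xPx hev (Nk i) (dl 0)).stronglyMeasurable.enorm.pow_const 2
      exact a1.mul a2
    · intro i
      refine Eventually.of_forall fun V => ?_
      have h3 : ‖xP (ev (A1 V)) (ev (A2 V)) (Nk i) (dl 0)‖ₑ ≤ 1 := by
        rw [← ofReal_norm]
        refine ENNReal.ofReal_le_one.2 ((norm_xP _ _ _ _).trans (STAT.norm_dl _).le)
      calc ‖φ (A2 V)‖ₑ ^ 2 * ‖xP (ev (A1 V)) (ev (A2 V)) (Nk i) (dl 0)‖ₑ ^ 2 ≤
          ‖φ (A2 V)‖ₑ ^ 2 * 1 ^ 2 := by gcongr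
        _ = _ := by simp
    · filter_upwards [hlim] with V hV
      have h4 : Tendsto (fun i => ‖xP (ev (A1 V)) (ev (A2 V)) (Nk i) (dl 0)‖ₑ ^ 2) atTop
          (𝓝 0) := by
        have h5 := (hV (dl 0)).enorm
        rw [enorm_zero] at h5
        have h6 := ((ENNReal.continuous_pow 2).tendsto 0).comp h5
        simpa [Function.comp_def] using h6
      have h7 := ENNReal.Tendsto.const_mul (a := ‖φ (A2 V)‖ₑ ^ 2) h4
        (Or.inr (by simp))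
      simpa using h7
  set b : ℕ → 𝕂 → ℝ≥0∞ := fun i k =>
    (((Mi (Nk i) : ℝ≥0∞) ^ d) ^ 2)⁻¹ *
      ∫⁻ V, ‖xB ev (Nk i) (Mi (Nk i)) (e k) φ V‖ₑ ^ 2 ∂(PQ d ρ) with hb
  have hM0 : ∀ i, (((Mi (Nk i) : ℝ≥0∞) ^ d) ^ 2) ≠ 0 := by
    intro i
    have := Mi_pos (Nk i)
    positivity
  have hMt : ∀ i, (((Mi (Nk i) : ℝ≥0∞) ^ d) ^ 2) ≠ ∞ := by
    intro i
    exact ENNReal.pow_ne_top (ENNReal.pow_ne_top (ENNReal.natCast_ne_top _))
  have hmeas : ∀ i, Measurable (b i) := by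
    intro i
    have h2 := (sm_xB hev (Nk i) (Mi (Nk i)) h.meas hφ).enorm.pow_const 2
    exact (h2.lintegral_prod_right').const_mul _
  have hitg : ∀ i, ∫⁻ k, b i k ∂m = ∫⁻ V, ‖φ (A2 V)‖ₑ ^ 2 *
      ‖xP (ev (A1 V)) (ev (A2 V)) (Nk i) (dl 0)‖ₑ ^ 2 ∂(PQ d ρ) := by
    intro i
    rw [hb]
    simp only
    rw [lintegral_const_mul, int_k hev ρ h hφ, ← mul_assoc,
      ENNReal.inv_mul_cancel (hM0 i) (hMt i), one_mul]
    have h2 := (sm_xB hev (Nk i) (Mi (Nk i)) h.meas hφ).enorm.pow_const 2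
    exact h2.lintegral_prod_right'
  have hF := lintegral_liminf_le (μ := m) (u := atTop) (f := b) hmeas
  simp only [hitg] at hF
  rw [hβ.liminf_eq] at hF
  have h0 : ∫⁻ k, liminf (fun i => b i k) atTop ∂m = 0 := le_antisymm hF zero_le
  rw [lintegral_eq_zero_iff (Measurable.liminf hmeas)] at h0
  filter_upwards [h0] with k hk
  intro δ hδ
  have hk' : liminf (fun i => b i k) atTop < (δ : ℝ≥0∞) ^ 2 := by
    rw [hk]
    simp only [Pi.zero_apply]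
    have : (0 : ℝ≥0∞) < δ := by exact_mod_cast hδ
    positivity
  have hfr := frequently_lt_of_liminf_lt (by isBoundedDefault) hk'
  refine hfr.mono fun i hi => ?_
  refine n2_le _ _ _ ?_
  have h8 : (((Mi (Nk i) : ℝ≥0∞) ^ d) ^ 2) * b i k =
      ∫⁻ V, ‖xB ev (Nk i) (Mi (Nk i)) (e k) φ V‖ₑ ^ 2 ∂(PQ d ρ) := by
    rw [hb]
    simp only
    rw [← mul_assoc, ENNReal.mul_inv_cancel (hM0 i) (hMt i), one_mul]
  rw [← h8, mul_pow]
  gcongr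

lemma xB_sub (N M : ℕ) (u : Site d → ℂ) (φ ψ : (Site d → ℝ) → ℂ) (V : Site d → ℝ × ℝ) :
    xB ev N M u φ V = xB ev N M u ψ V + xB ev N M u (fun V => φ V - ψ V) V := by
  rw [xB_eq, xB_eq, xB_eq, ← Finset.sum_add_distrib]
  refine Finset.sum_congr rfl fun y _ => ?_
  rw [← smul_add, ← add_smul]
  congr 2
  ring

lemma xB_le (ρ : Measure (ℝ × ℝ)) [IsProbabilityMeasure ρ]
    (hA2 : MeasurePreserving (A2 (d := d)) (PQ d ρ) (PP d ν)) (N M : ℕ) {u : Site d → ℂ}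
    (hu : ∀ x, ‖u x‖ = 1) {φ : (Site d → ℝ) → ℂ} (hφ : StronglyMeasurable φ) :
    eLpNorm (xB ev N M u φ) 2 (PQ d ρ) ≤ (M : ℝ≥0∞) ^ d * eLpNorm φ 2 (PP d ν) := by
  have h1 : eLpNorm (xB ev N M u φ) 2 (PQ d ρ) ≤
      eLpNorm (fun V => Ws (box d (M ^ 2)) id (Bl u φ (A2 V))) 2 (PQ d ρ) :=
    eLpNorm_mono fun V => norm_xP _ _ _ _
  have hcard : (box d (M ^ 2)).card ≤ (M ^ d) ^ 2 := by
    rw [card_box, ← pow_mul, ← pow_mul, mul_comm]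
  have h2 := n2_Ws hA2 (box d (M ^ 2)) id Function.injective_id hu hφ _ hcard
  push_cast at h2
  exact h1.trans h2

theorem gamma_zero (hev : ∀ V, IsGrp c V (ev V)) (ρ : Measure (ℝ × ℝ)) [IsProbabilityMeasure ρ]
    (hA1 : MeasurePreserving (A1 (d := d)) (PQ d ρ) (PP d ν))
    (hA2 : MeasurePreserving (A2 (d := d)) (PQ d ρ) (PP d ν)) (Nk : ℕ → ℕ)
    (hNk : Tendsto Nk atTop atTop) {u : Site d → ℂ} (hu : ∀ x, ‖u x‖ = 1)
    (φs : ℕ → (Site d → ℝ) → ℂ) (hφs : ∀ j, StronglyMeasurable (φs j))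
    (hgood : ∀ j, GoodK ev ρ Nk u (φs j))
    {φ : (Site d → ℝ) → ℂ} (hφ : StronglyMeasurable φ) (hφ2 : MemLp φ 2 (PP d ν))
    (hdense : ∀ δ : ℝ≥0, 0 < δ → ∃ j, eLpNorm (fun V => φ V - φs j V) 2 (PP d ν) ≤ δ)
    (E : ℝ)
    (heig : ∀ᵐ V ∂(PP d ν), ∀ x, hopf c (Bl u φ V) x + V x * Bl u φ V x = E * Bl u φ V x) :
    ∫ V, conj (φ (A1 V)) * φ (A2 V) ∂(PQ d ρ) = 0 := by
  set γ := ∫ V, conj (φ (A1 V)) * φ (A2 V) ∂(PQ d ρ) with hγ
  have hn := hφ2.eLpNorm_ne_top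
  obtain ⟨n, hn'⟩ : ∃ n : ℝ≥0, eLpNorm φ 2 (PP d ν) = n := ⟨_, (ENNReal.coe_toNNReal hn).symm⟩
  -- the estimate along the subsequence
  have key : ∀ δ : ℝ≥0, 0 < δ → ‖γ‖ ≤ (2 * n + 1) * δ := by
    intro δ hδ
    obtain ⟨j, hj⟩ := hdense δ hδ
    have hfr := hgood j δ hδ
    have hlim : Tendsto (fun i : ℕ => (8 * ‖c‖ * d * n ^ 2) * ((Nk i : ℝ) / (Mi (Nk i) : ℝ)))
        atTop (𝓝 0) := by
      have h1 : Tendsto (fun N : ℕ => (N : ℝ) / (Mi N : ℝ)) atTop (𝓝 0) := by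
        have h2 : Tendsto (fun N : ℕ => (1 : ℝ) / ((N : ℝ) + 1)) atTop (𝓝 0) :=
          tendsto_one_div_add_atTop_nhds_zero_nat
        refine squeeze_zero (fun N => by positivity) (fun N => ?_) h2
        unfold Mi
        push_cast
        rw [div_le_div_iff₀ (by positivity) (by positivity)]
        nlinarith
      have h3 := (h1.comp hNk).const_mul (8 * ‖c‖ * d * n ^ 2)
      rw [mul_zero] at h3
      exact h3
    have hev1 : ∀ᶠ i in atTop, (8 * ‖c‖ * d * n ^ 2) * ((Nk i : ℝ) / (Mi (Nk i) : ℝ)) < δ :=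
      (tendsto_order.1 hlim).2 _ (by exact_mod_cast hδ)
    have hev2 : ∀ᶠ i in atTop, 0 < Nk i := hNk.eventually_gt_atTop 0
    obtain ⟨i, ⟨hi1, hi2⟩, hi3⟩ := (hfr.and_eventually hev1).and_eventually hev2 |>.exists
    set N := Nk i with hN
    set M := Mi N with hM
    have hMpos : 0 < M := Mi_pos N
    have hX : eLpNorm (xB ev N M u φ) 2 (PQ d ρ) ≤ (M : ℝ≥0∞) ^ d * (2 * δ) := by
      have e1 : xB ev N M u φ = fun V => xB ev N M u (φs j) V +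
          xB ev N M u (fun V => φ V - φs j V) V := funext fun V => xB_sub N M u φ (φs j) V
      rw [e1]
      refine (eLpNorm_add_le (sm_xB' hev N M u (hφs j)).aestronglyMeasurable
        (sm_xB' hev N M u (hφ.sub (hφs j))).aestronglyMeasurable (by norm_num)).trans ?_
      have h2 := xB_le (ev := ev) ρ hA2 N M hu (hφ.sub (hφs j))
      calc _ ≤ (M : ℝ≥0∞) ^ d * δ + (M : ℝ≥0∞) ^ d * δ := by
            have h2' : eLpNorm (φ - φs j) 2 (PP d ν) ≤ δ := hj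
            refine add_le_add hi1 (h2.trans ?_)
            gcongr
        _ = _ := by ring
    have hmain := main_ineq hev ρ hA1 hA2 E hu hφ hφ2 heig M N hi3
    have hX' : eLpNorm (fun V => xP (ev (A1 V)) (ev (A2 V)) N
        (Ws (box d (M ^ 2)) id (Bl u φ (A2 V)))) 2 (PQ d ρ) ≤ (M : ℝ≥0∞) ^ d * (2 * δ) := hX
    rw [hn'] at hmain
    have h5 : ((M : ℝ≥0∞) ^ d) ^ 2 * ‖γ‖ₑ ≤
        (M ^ d * n) * ((M : ℝ≥0∞) ^ d * (2 * δ)) +
        N * (2 * ((‖c‖ₑ * (d * (4 * (M ^ (d - 1) * n)))) * (M ^ d * n))) := by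
      refine hmain.trans ?_
      gcongr
    have h6 : ((M : ℝ) ^ d) ^ 2 * ‖γ‖ ≤
        (M ^ d * n) * ((M : ℝ) ^ d * (2 * δ)) +
        N * (2 * ((‖c‖ * (d * (4 * (M ^ (d - 1) * n)))) * (M ^ d * n))) := by
      rw [← enorm_norm γ, ← enorm_norm c] at h5
      have e2 : ∀ r : ℝ≥0, ‖(r : ℝ)‖ₑ = r := by
        intro r
        simp
      have e3 : ‖γ‖ = ((‖γ‖₊ : ℝ≥0) : ℝ) := rfl
      have e4 : ‖c‖ = ((‖c‖₊ : ℝ≥0) : ℝ) := rfl
      rw [e3, e4, e2, e2] at h5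
      rw [e3, e4]
      exact_mod_cast h5
    -- divide
    have hMr : (0 : ℝ) < M := by exact_mod_cast hMpos
    have hd : (d : ℝ) * (M : ℝ) ^ (d - 1) * M = d * (M : ℝ) ^ d := by
      rcases Nat.eq_zero_or_pos d with hd0 | hd0
      · subst hd0; simp
      · rw [mul_assoc, ← pow_succ, Nat.sub_add_cancel hd0]
    have h7 : ((M : ℝ) ^ d) ^ 2 * (M * ‖γ‖) ≤ ((M : ℝ) ^ d) ^ 2 *
        (M * (2 * n * δ) + 8 * ‖c‖ * d * n ^ 2 * N) := by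
      have h8 := mul_le_mul_of_nonneg_left h6 hMr.le
      calc ((M : ℝ) ^ d) ^ 2 * (M * ‖γ‖) = M * (((M : ℝ) ^ d) ^ 2 * ‖γ‖) := by ring
        _ ≤ _ := h8
        _ = ((M : ℝ) ^ d) ^ 2 * (M * (2 * n * δ)) +
            8 * N * ‖c‖ * n ^ 2 * (M : ℝ) ^ d * ((d : ℝ) * (M : ℝ) ^ (d - 1) * M) := by ring
        _ = _ := by rw [hd]; ring
    have h9 : M * ‖γ‖ ≤ M * (2 * n * δ) + 8 * ‖c‖ * d * n ^ 2 * N :=
      le_of_mul_le_mul_left h7 (by positivity)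
    have h10 : ‖γ‖ ≤ 2 * n * δ + (8 * ‖c‖ * d * n ^ 2) * ((N : ℝ) / M) := by
      have : M * ‖γ‖ ≤ M * (2 * n * δ + (8 * ‖c‖ * d * n ^ 2) * ((N : ℝ) / M)) := by
        refine h9.trans (le_of_eq ?_)
        field_simp
      exact le_of_mul_le_mul_left this hMr
    calc ‖γ‖ ≤ 2 * n * δ + (8 * ‖c‖ * d * n ^ 2) * ((N : ℝ) / M) := h10
      _ ≤ 2 * n * δ + δ := by gcongr
      _ = _ := by ring
  have h0 : ‖γ‖ ≤ 0 := by
    refine le_of_forall_pos_le_add fun ε hε => ?_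
    have hp : (0 : ℝ) < 2 * n + 1 := by positivity
    have hq : (0 : ℝ) < ε / (2 * n + 1) := by positivity
    have h1 := key (ε / (2 * n + 1)).toNNReal (Real.toNNReal_pos.2 hq)
    rw [Real.coe_toNNReal _ hq.le, mul_div_cancel₀ _ hp.ne'] at h1
    linarith
  exact norm_le_zero_iff.1 h0

end Pool.Agent.Helper26.Nb
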