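import Pool.Agent.Helper26.Nb.Coh

/-! # Complex energies -/

set_option autoImplicit false

open MeasureTheory Filter Topology ProbabilityTheory
open scoped BigOperators ENNReal NNReal InnerProductSpace ComplexConjugate

namespace Pool.Agent.Helper26.Nb

open Pool.Agent.H5R2.NB

variable {d : ℕ} {ν : Measure ℝ} [IsProbabilityMeasure ν]

lemma imag_pt {c : ℝ} {V : Site d → ℝ} {u : Site d → ℂ} {E : ℂ}
    (hu : ∀ x, hopf c u x + V x * u x = E * u x) (L : ℕ) :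
    |E.im| * ‖Ws (box d L) id u‖ ^ 2 ≤
      ‖Ws (box d L) id u‖ * ‖((c : ℂ) • ∑ i : Fin d, bt L u i : L2 (Site d))‖ := by
  obtain ⟨K, hK⟩ := (t_OPS d).2.1 c
  set v := Ws (box d L) id u with hv
  set r : L2 (Site d) := (c : ℂ) • ∑ i : Fin d, bt L u i with hr
  have h1 : ∀ x, V x * v x = (E • v + r - K v : L2 (Site d)) x := by
    intro x
    have h2 := eig_resid hK hu L x
    rw [lp.coeFn_sub, Pi.sub_apply, lp.coeFn_add, Pi.add_apply, lp.coeFn_smul, Pi.smul_apply,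
      smul_eq_mul, hK]
    linear_combination h2
  set z : L2 (Site d) := E • v + r - K v with hz
  have h3 : (⟪v, z⟫_ℂ).im = 0 := by
    have h4 : ⟪v, z⟫_ℂ = ∑ y ∈ box d L, ((V y * ‖u y‖ ^ 2 : ℝ) : ℂ) := by
      rw [hv]
      unfold Ws
      rw [sum_inner]
      refine Finset.sum_congr rfl fun y hy => ?_
      rw [inner_smul_left, id, STAT.inner_dl, ← h1, hv, Ws_apply, if_pos hy]
      have : conj (u y) * u y = ((‖u y‖ ^ 2 : ℝ) : ℂ) := by
        rw [mul_comm, Complex.mul_conj, Complex.normSq_eq_norm_sq]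
      push_cast at this ⊢
      linear_combination (V y : ℂ) * this
    rw [h4, Complex.im_sum]
    refine Finset.sum_eq_zero fun y _ => ?_
    exact Complex.ofReal_im _
  have h5 : (⟪v, K v⟫_ℂ).im = 0 := by
    have h6 := CV.hop_symm t_OPS hK v v
    have h7 : conj ⟪v, K v⟫_ℂ = ⟪v, K v⟫_ℂ := by
      rw [inner_conj_symm, h6]
    exact Complex.conj_eq_iff_im.1 h7
  have h8 : ⟪v, z⟫_ℂ = E * ((‖v‖ ^ 2 : ℝ) : ℂ) + ⟪v, r⟫_ℂ - ⟪v, K v⟫_ℂ := by
    rw [hz, inner_sub_right, inner_add_right, inner_smul_right]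
    congr 2
    have := inner_self_eq_norm_sq_to_K (𝕜 := ℂ) v
    push_cast
    rw [show ((‖v‖ : ℝ) : ℂ) ^ 2 = ⟪v, v⟫_ℂ from this.symm]
  have h9 : E.im * ‖v‖ ^ 2 = - (⟪v, r⟫_ℂ).im := by
    have h10 := congrArg Complex.im h8
    rw [h3, Complex.sub_im, Complex.add_im, h5, Complex.im_mul_ofReal] at h10
    linarith
  calc |E.im| * ‖v‖ ^ 2 = |E.im * ‖v‖ ^ 2| := by rw [abs_mul, abs_of_nonneg (sq_nonneg ‖v‖)]
    _ = |(⟪v, r⟫_ℂ).im| := by rw [h9, abs_neg]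
    _ ≤ ‖⟪v, r⟫_ℂ‖ := Complex.abs_im_le_norm _
    _ ≤ ‖v‖ * ‖r‖ := norm_inner_le_norm _ _

lemma imag_zero {c : ℝ} {E : ℂ} (hE : E.im ≠ 0) {e : Site d → ℂ} (he : ∀ x, ‖e x‖ = 1)
    {φ : (Site d → ℝ) → ℂ} (hφ : StronglyMeasurable φ) (hφ2 : MemLp φ 2 (PP d ν))
    (heig : ∀ᵐ V ∂(PP d ν), ∀ x, hopf c (Bl e φ V) x + V x * Bl e φ V x = E * Bl e φ V x) :
    eLpNorm φ 2 (PP d ν) = 0 := by
  have hn := hφ2.eLpNorm_ne_top
  obtain ⟨n, hn'⟩ : ∃ n : ℝ≥0, eLpNorm φ 2 (PP d ν) = n := ⟨_, (ENNReal.coe_toNNReal hn).symm⟩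
  have hid : MeasurePreserving (id : (Site d → ℝ) → Site d → ℝ) (PP d ν) (PP d ν) :=
    MeasurePreserving.id _
  have key : ∀ M : ℕ, 0 < M → |E.im| * M * (n : ℝ) ^ 2 ≤ 4 * ‖c‖ * d * (n : ℝ) ^ 2 := by
    intro M hM
    set v : (Site d → ℝ) → L2 (Site d) := fun V => Ws (box d (M ^ 2)) id (Bl e φ V) with hv
    set r : (Site d → ℝ) → L2 (Site d) :=
      fun V => (c : ℂ) • ∑ i : Fin d, bt (M ^ 2) (Bl e φ V) i with hr
    have mv : StronglyMeasurable v := sm_Ws _ _ _ (sm_Bl measurable_id e hφ)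
    have mr : StronglyMeasurable r := by
      have h0 : StronglyMeasurable fun V => ∑ i : Fin d, bt (M ^ 2) (Bl e φ V) i := by
        refine Finset.stronglyMeasurable_fun_sum _ fun i _ => ?_
        have hm : ∀ (s : Finset (Site d)) (τ : Site d → Site d),
            StronglyMeasurable (fun y => Ws s τ (Bl e φ y)) := fun s τ =>
          (sm_Ws s τ _ (sm_Bl measurable_id e hφ))
        unfold bt
        exact ((hm _ _).sub (hm _ _)).add ((hm _ _).sub (hm _ _))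
      exact h0.const_smul (c : ℂ)
    have h1 : ∀ᵐ V ∂(PP d ν), ENNReal.ofReal |E.im| * ‖v V‖ₑ ^ 2 ≤ ‖v V‖ₑ * ‖r V‖ₑ := by
      filter_upwards [heig] with V hV
      have h2 := ENNReal.ofReal_le_ofReal (imag_pt hV (M ^ 2))
      rw [ENNReal.ofReal_mul (abs_nonneg _), ENNReal.ofReal_mul (norm_nonneg _),
        ENNReal.ofReal_pow (norm_nonneg _)] at h2
      simpa only [ofReal_norm] using h2
    have h3 := lintegral_mono_ae h1
    rw [lintegral_const_mul _ (mv.enorm.pow_const 2)] at h3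
    have h4 : ∫⁻ V, ‖v V‖ₑ ^ 2 ∂(PP d ν) = ((M : ℝ≥0∞) ^ d) ^ 2 * (n : ℝ≥0∞) ^ 2 := by
      have := sq_Ws hid (box d (M ^ 2)) id Function.injective_id he hφ
      rw [card_box, ← n2_sq (PP d ν) φ, hn'] at this
      rw [show ((M : ℝ≥0∞) ^ d) ^ 2 = (((M ^ 2) ^ d : ℕ) : ℝ≥0∞) by
        push_cast; rw [← pow_mul, ← pow_mul, mul_comm]]
      exact this
    have hcard : (box d (M ^ 2)).card ≤ (M ^ d) ^ 2 := by
      rw [card_box, ← pow_mul, ← pow_mul, mul_comm]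
    have b1 := n2_Ws hid (box d (M ^ 2)) id Function.injective_id he hφ _ hcard
    have b2 := n2_res hid c M he hφ
    push_cast at b1
    rw [hn'] at b1 b2
    have h5 : ∫⁻ V, ‖v V‖ₑ * ‖r V‖ₑ ∂(PP d ν) ≤
        (M ^ d * n) * (‖c‖ₑ * (d * (4 * (M ^ (d - 1) * n)))) :=
      (cs _ _ _ mv.aestronglyMeasurable mr.aestronglyMeasurable).trans (mul_le_mul' b1 b2)
    rw [h4] at h3
    have h6 := h3.trans h5
    have h7 : |E.im| * (((M : ℝ) ^ d) ^ 2 * (n : ℝ) ^ 2) ≤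
        (M ^ d * n) * (‖c‖ * (d * (4 * (M ^ (d - 1) * n)))) := by
      rw [← enorm_norm c] at h6
      have e2 : ∀ r : ℝ≥0, ‖(r : ℝ)‖ₑ = r := by
        intro r
        simp
      have e4 : ‖c‖ = ((‖c‖₊ : ℝ≥0) : ℝ) := rfl
      have e5 : |E.im| = ((‖E.im‖₊ : ℝ≥0) : ℝ) := rfl
      rw [e4, e2, e5, ENNReal.ofReal_coe_nnreal] at h6
      rw [e4, e5]
      exact_mod_cast h6
    have hMr : (0 : ℝ) < M := by exact_mod_cast hM
    have hd : (d : ℝ) * (M : ℝ) ^ (d - 1) * M = d * (M : ℝ) ^ d := by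
      rcases Nat.eq_zero_or_pos d with hd0 | hd0
      · subst hd0; simp
      · rw [mul_assoc, ← pow_succ, Nat.sub_add_cancel hd0]
    have h8 := mul_le_mul_of_nonneg_left h7 hMr.le
    have h9 : ((M : ℝ) ^ d) ^ 2 * (|E.im| * M * (n : ℝ) ^ 2) ≤
        ((M : ℝ) ^ d) ^ 2 * (4 * ‖c‖ * d * (n : ℝ) ^ 2) := by
      calc ((M : ℝ) ^ d) ^ 2 * (|E.im| * M * (n : ℝ) ^ 2) =
          M * (|E.im| * (((M : ℝ) ^ d) ^ 2 * (n : ℝ) ^ 2)) := by ring
        _ ≤ _ := h8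
        _ = 4 * ‖c‖ * (n : ℝ) ^ 2 * (M : ℝ) ^ d * ((d : ℝ) * (M : ℝ) ^ (d - 1) * M) := by ring
        _ = _ := by rw [hd]; ring
    exact le_of_mul_le_mul_left h9 (by positivity)
  have hn0 : n = 0 := by
    by_contra h0
    have hnp : (0 : ℝ) < (n : ℝ) ^ 2 := by
      have : (0 : ℝ) < n := by
        rw [NNReal.coe_pos]
        exact pos_iff_ne_zero.2 h0
      positivity
    have hEp : 0 < |E.im| := abs_pos.2 hE
    obtain ⟨M, hM⟩ := exists_nat_gt (4 * ‖c‖ * d / |E.im|)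
    have hM1 : (4 * ‖c‖ * d / |E.im|) < ((M + 1 : ℕ) : ℝ) := by
      push_cast
      linarith
    have h1 := key (M + 1) (Nat.succ_pos M)
    have h2 : |E.im| * ((M + 1 : ℕ) : ℝ) ≤ 4 * ‖c‖ * d := by
      exact le_of_mul_le_mul_right h1 hnp
    rw [div_lt_iff₀ hEp] at hM1
    linarith
  rw [hn', hn0]
  simp

theorem fibre_none_complex {c : ℝ} {C : ℝ≥0} (hν : ν ≤ C • volume) :
    ∀ᵐ k : Fin d → ℝ, ∀ (E : ℂ) (φ : (Site d → ℝ) → ℂ), MemLp φ 2 (PP d ν) →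
      (∀ᵐ V ∂(PP d ν), ∀ x, hopf c (Bl (ee k) φ V) x + V x * Bl (ee k) φ V x =
        E * Bl (ee k) φ V x) → φ =ᵐ[PP d ν] 0 := by
  filter_upwards [fibre_none_volume (d := d) (c := c) hν] with k hk E φ hφ heig
  by_cases hE : E.im = 0
  · have hE' : E = (E.re : ℂ) := by
      apply Complex.ext
      · simp
      · simp [hE]
    rw [hE'] at heig
    exact hk E.re φ hφ heig
  · set ψ : (Site d → ℝ) → ℂ := hφ.1.mk φ with hψ
    have hψm : StronglyMeasurable ψ := hφ.1.stronglyMeasurable_mk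
    have hψe : φ =ᵐ[PP d ν] ψ := hφ.1.ae_eq_mk
    have hψ2 : MemLp ψ 2 (PP d ν) := hφ.ae_eq hψe
    have hall : ∀ᵐ V ∂(PP d ν), ∀ x, φ (sh x V) = ψ (sh x V) := by
      rw [ae_all_iff]
      intro x
      exact (mp_sh ν x).quasiMeasurePreserving.ae hψe
    have heig' : ∀ᵐ V ∂(PP d ν), ∀ x, hopf c (Bl (ee k) ψ V) x + V x * Bl (ee k) ψ V x =
        E * Bl (ee k) ψ V x := by
      filter_upwards [hall, heig] with V h1 h2
      have h3 : Bl (ee k) ψ V = Bl (ee k) φ V := by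
        funext x
        unfold Bl
        rw [h1 x]
      rw [h3]
      exact h2
    have hz := imag_zero hE (ee_norm k) hψm hψ2 heig'
    rw [eLpNorm_eq_zero_iff hψm.aestronglyMeasurable (by norm_num)] at hz
    exact hψe.trans hz

end Pool.Agent.Helper26.Nb
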