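import Pool.Agent.Helper26.Nb.Cell

/-! # The fibre operators have no eigenvalues -/

set_option autoImplicit false

open MeasureTheory Filter Topology ProbabilityTheory
open scoped BigOperators ENNReal NNReal InnerProductSpace ComplexConjugate

namespace Pool.Agent.Helper26.Nb

open Pool.Agent.H5R2.NB

variable {d : ℕ} {𝕂 : Type} [MeasurableSpace 𝕂] {m : Measure 𝕂} [IsProbabilityMeasure m]
  {e : 𝕂 → Site d → ℂ} {ν : Measure ℝ} [IsProbabilityMeasure ν]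

lemma zero_of_gamma {φ : (Site d → ℝ) → ℂ} (hφ : StronglyMeasurable φ)
    (hφ2 : MemLp φ 2 (PP d ν))
    (h : ∀ n, ∫ V, conj (φ (A1 V)) * φ (A2 V) ∂(PQ d (ν ⊗ₘ Kc ν n)) = 0) :
    eLpNorm φ 2 (PP d ν) = 0 := by
  set a := eLpNorm φ 2 (PP d ν) with ha
  have hat : a ≠ ∞ := hφ2.eLpNorm_ne_top
  have key : ∀ n, a ^ 2 ≤ a * eLpNorm (fun V => φ (A1 V) - φ (A2 V)) 2
      (PQ d (ν ⊗ₘ Kc ν n)) := by
    intro n
    have hA1 := mpA1 (d := d) (ν ⊗ₘ Kc ν n) (fst_marg (ν := ν) n)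
    have hA2 := mpA2 (d := d) (ν ⊗ₘ Kc ν n) (snd_marg (ν := ν) n)
    have i1 : MemLp (fun V => φ (A1 V)) 2 (PQ d (ν ⊗ₘ Kc ν n)) :=
      hφ2.comp_measurePreserving hA1
    have i2 : MemLp (fun V => φ (A2 V)) 2 (PQ d (ν ⊗ₘ Kc ν n)) :=
      hφ2.comp_measurePreserving hA2
    have i3 : MemLp (fun V => conj (φ (A1 V))) 2 (PQ d (ν ⊗ₘ Kc ν n)) := i1.star
    have m1 : StronglyMeasurable fun V : Site d → ℝ × ℝ => φ (A1 V) :=
      hφ.comp_measurable hA1.measurable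
    have m2 : StronglyMeasurable fun V : Site d → ℝ × ℝ => φ (A2 V) :=
      hφ.comp_measurable hA2.measurable
    have e0 : a ^ 2 = ∫⁻ V, ‖φ (A1 V)‖ₑ ^ 2 ∂(PQ d (ν ⊗ₘ Kc ν n)) := by
      rw [ha, n2_sq]
      exact (hA1.lintegral_comp (f := fun V => ‖φ V‖ₑ ^ 2) (hφ.enorm.pow_const 2)).symm
    have e1 : a ^ 2 = ‖∫ V, conj (φ (A1 V)) * φ (A1 V) ∂(PQ d (ν ⊗ₘ Kc ν n))‖ₑ := by
      have e2 : ∀ z : ℂ, conj z * z = ((‖z‖ ^ 2 : ℝ) : ℂ) := by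
        intro z
        rw [mul_comm, Complex.mul_conj, Complex.normSq_eq_norm_sq]
      simp only [e2]
      rw [integral_complex_ofReal]
      have e3 : 0 ≤ ∫ V, ‖φ (A1 V)‖ ^ 2 ∂(PQ d (ν ⊗ₘ Kc ν n)) :=
        integral_nonneg fun _ => by positivity
      rw [← ofReal_norm, Complex.norm_real, Real.norm_of_nonneg e3,
        ofReal_integral_eq_lintegral_ofReal (i1.integrable_norm_pow (by norm_num))
          (Eventually.of_forall fun _ => by positivity), e0]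
      refine lintegral_congr fun V => ?_
      rw [ENNReal.ofReal_pow (norm_nonneg _), ofReal_norm]
    have e4 : ∫ V, conj (φ (A1 V)) * φ (A1 V) ∂(PQ d (ν ⊗ₘ Kc ν n)) =
        ∫ V, conj (φ (A1 V)) * (φ (A1 V) - φ (A2 V)) ∂(PQ d (ν ⊗ₘ Kc ν n)) := by
      have e5 : ∀ V, conj (φ (A1 V)) * (φ (A1 V) - φ (A2 V)) =
          conj (φ (A1 V)) * φ (A1 V) - conj (φ (A1 V)) * φ (A2 V) := fun V => by ring
      simp only [e5]
      have j1 : Integrable (fun V => conj (φ (A1 V)) * φ (A1 V)) (PQ d (ν ⊗ₘ Kc ν n)) :=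
        i3.integrable_mul i1
      have j2 : Integrable (fun V => conj (φ (A1 V)) * φ (A2 V)) (PQ d (ν ⊗ₘ Kc ν n)) :=
        i3.integrable_mul i2
      rw [integral_sub j1 j2, h n, sub_zero]
    rw [e1, e4]
    refine (enorm_integral_le_lintegral_enorm _).trans ?_
    have e6 : ∀ V, ‖conj (φ (A1 V)) * (φ (A1 V) - φ (A2 V))‖ₑ =
        ‖φ (A1 V)‖ₑ * ‖φ (A1 V) - φ (A2 V)‖ₑ := by
      intro V
      rw [enorm_mul]
      congr 1
      rw [← ofReal_norm, ← ofReal_norm, RCLike.norm_conj]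
    simp only [e6]
    refine (cs _ _ _ m1.aestronglyMeasurable (m1.sub m2).aestronglyMeasurable).trans ?_
    refine le_of_eq ?_
    congr 1
    rw [ha]
    exact eLpNorm_comp_measurePreserving (p := 2) hφ.aestronglyMeasurable hA1
  have h0 : Tendsto (fun n => a * eLpNorm (fun V => φ (A1 V) - φ (A2 V)) 2
      (PQ d (ν ⊗ₘ Kc ν n))) atTop (𝓝 0) := by
    have := ENNReal.Tendsto.const_mul (a := a) (conv_L2 (ν := ν) hφ hφ2) (Or.inr hat)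
    simpa using this
  have h1 : a ^ 2 ≤ 0 := ge_of_tendsto' h0 key
  have h2 : a ^ 2 = 0 := le_antisymm h1 zero_le
  exact pow_eq_zero_iff (by norm_num) |>.1 h2

theorem fibre_none {c : ℝ} {C : ℝ≥0} (hν : ν ≤ C • volume) (h : Bes m e) :
    ∀ᵐ k ∂m, ∀ (E : ℝ) (φ : (Site d → ℝ) → ℂ), MemLp φ 2 (PP d ν) →
      (∀ᵐ V ∂(PP d ν), ∀ x, hopf c (Bl (e k) φ V) x + V x * Bl (e k) φ V x =
        E * Bl (e k) φ V x) → φ =ᵐ[PP d ν] 0 := by
  choose ev hev using ALL.a_EX d c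
  have : IsProbabilityMeasure (PP d ν) := by unfold PP; infer_instance
  have : Fact ((2 : ℝ≥0∞) ≠ ∞) := ⟨by norm_num⟩
  set fs : ℕ → Lp ℂ 2 (PP d ν) := TopologicalSpace.denseSeq (Lp ℂ 2 (PP d ν)) with hfs
  set φs : ℕ → (Site d → ℝ) → ℂ := fun j => (fs j : (Site d → ℝ) → ℂ) with hφs
  have hsm : ∀ j, StronglyMeasurable (φs j) := fun j => Lp.stronglyMeasurable (fs j)
  have hml : ∀ j, MemLp (φs j) 2 (PP d ν) := fun j => Lp.memLp (fs j)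
  have hx : ∀ n, ∃ Nk : ℕ → ℕ, Tendsto Nk atTop atTop ∧ ∀ᵐ V ∂(PQ d (ν ⊗ₘ Kc ν n)), ∀ x,
      Tendsto (fun n => xP (ev (A1 V)) (ev (A2 V)) (Nk n) x) atTop (𝓝 0) := fun n =>
    (xdisj' (d := d) hev ν (Kc ν n) (fun s => Kc_le hν n s)).2
  choose Nk hNk hlim using hx
  have hk : ∀ᵐ k ∂m, ∀ n j, GoodK ev (ν ⊗ₘ Kc ν n) (Nk n) (e k) (φs j) := by
    rw [ae_all_iff]
    intro n
    rw [ae_all_iff]
    intro j
    exact goodK_ae hev (ν ⊗ₘ Kc ν n) (mpA2 (ν ⊗ₘ Kc ν n) (snd_marg n)) h (hsm j) (hml j)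
      (Nk n) (hlim n)
  filter_upwards [hk] with k hk E φ hφ heig
  -- a measurable representative
  set ψ : (Site d → ℝ) → ℂ := hφ.1.mk φ with hψ
  have hψm : StronglyMeasurable ψ := hφ.1.stronglyMeasurable_mk
  have hψe : φ =ᵐ[PP d ν] ψ := hφ.1.ae_eq_mk
  have hψ2 : MemLp ψ 2 (PP d ν) := hφ.ae_eq hψe
  have hall : ∀ᵐ V ∂(PP d ν), ∀ x, φ (sh x V) = ψ (sh x V) := by
    rw [ae_all_iff]
    intro x
    exact (mp_sh ν x).quasiMeasurePreserving.ae hψe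
  have heig' : ∀ᵐ V ∂(PP d ν), ∀ x, hopf c (Bl (e k) ψ V) x + V x * Bl (e k) ψ V x =
      E * Bl (e k) ψ V x := by
    filter_upwards [hall, heig] with V h1 h2
    have h3 : Bl (e k) ψ V = Bl (e k) φ V := by
      funext x
      unfold Bl
      rw [h1 x]
    rw [h3]
    exact h2
  have hden : ∀ δ : ℝ≥0, 0 < δ → ∃ j, eLpNorm (fun V => ψ V - φs j V) 2 (PP d ν) ≤ δ := by
    intro δ hδ
    obtain ⟨j, hj⟩ := (TopologicalSpace.denseRange_denseSeq (Lp ℂ 2 (PP d ν))).exists_dist_lt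
      (hψ2.toLp ψ) (show (0 : ℝ) < δ by exact_mod_cast hδ)
    refine ⟨j, ?_⟩
    have h1 : eLpNorm (fun V => ψ V - φs j V) 2 (PP d ν) = edist (hψ2.toLp ψ) (fs j) := by
      rw [Lp.edist_def]
      refine eLpNorm_congr_ae ?_
      filter_upwards [hψ2.coeFn_toLp] with V hV
      rw [Pi.sub_apply, hV]
    rw [h1, edist_dist]
    refine (ENNReal.ofReal_le_ofReal hj.le).trans ?_
    simp
  have hg : ∀ n, ∫ V, conj (ψ (A1 V)) * ψ (A2 V) ∂(PQ d (ν ⊗ₘ Kc ν n)) = 0 := fun n =>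
    gamma_zero hev (ν ⊗ₘ Kc ν n) (mpA1 (ν ⊗ₘ Kc ν n) (fst_marg n))
      (mpA2 (ν ⊗ₘ Kc ν n) (snd_marg n)) (Nk n) (hNk n) (h.one k) φs hsm (hk n) hψm hψ2 hden E
      heig'
  have hz := zero_of_gamma hψm hψ2 hg
  rw [eLpNorm_eq_zero_iff hψm.aestronglyMeasurable (by norm_num)] at hz
  exact hψe.trans hz

end Pool.Agent.Helper26.Nb
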