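import Pool.Agent.Helper26.Nb.Sum

/-! # Pairs of potentials: stationarity and convergence of the time averages -/

set_option autoImplicit false

open MeasureTheory Filter Topology
open scoped BigOperators ENNReal NNReal InnerProductSpace ComplexConjugate

namespace Pool.Agent.Helper26.Nb

open Pool.Agent.H5R2.NB

/-! ### product measures -/

section res

variable {d : ℕ} {α : Type} [MeasurableSpace α]

theorem meas_update : Measurable
    (fun p : (Site d → α) × α => Function.update p.1 (0 : Site d) p.2) := by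
  rw [measurable_pi_iff]
  intro i
  by_cases h : i = 0
  · subst h
    simp only [Function.update_self]
    exact measurable_snd
  · simp only [Function.update_of_ne h]
    exact (measurable_pi_apply i).comp measurable_fst

theorem meas_shift (z : Site d) : Measurable
    (fun (V : Site d → α) (y : Site d) => V (y + z)) := by
  rw [measurable_pi_iff]
  intro i
  exact measurable_pi_apply (i + z)

theorem mp_update (ρ : Measure α) [IsProbabilityMeasure ρ] :
    MeasurePreserving (fun p : (Site d → α) × α => Function.update p.1 0 p.2)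
      ((Measure.infinitePi fun _ : Site d => ρ).prod ρ) (Measure.infinitePi fun _ : Site d => ρ) := by
  refine ⟨meas_update, ?_⟩
  apply Measure.eq_infinitePi
  intro s t ht
  classical
  rw [Measure.map_apply meas_update]
  swap
  · exact MeasurableSet.pi (Finset.countable_toSet s) (fun i _ => ht i)
  have hpre : (fun p : (Site d → α) × α => Function.update p.1 (0 : Site d) p.2) ⁻¹'
      ((s : Set (Site d)).pi t) =
      (((s.erase 0 : Finset (Site d)) : Set (Site d)).pi t) ×ˢ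
        (if (0 : Site d) ∈ s then t 0 else Set.univ) := by
    ext p
    simp only [Set.mem_preimage, Set.mem_pi, Finset.mem_coe, Set.mem_prod, Finset.mem_erase]
    constructor
    · intro h
      refine ⟨?_, ?_⟩
      · intro i hi
        have := h i hi.2
        rwa [Function.update_of_ne hi.1] at this
      · split_ifs with h0
        · have := h 0 h0
          rwa [Function.update_self] at this
        · trivial
    · rintro ⟨h1, h2⟩ i hi
      by_cases h0 : i = 0
      · subst h0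
        rw [Function.update_self]
        rwa [if_pos hi] at h2
      · rw [Function.update_of_ne h0]
        exact h1 i ⟨h0, hi⟩
  rw [hpre, Measure.prod_prod]
  rw [Measure.infinitePi_pi (fun _ => ρ) (fun i _ => ht i)]
  by_cases h0 : (0 : Site d) ∈ s
  · rw [if_pos h0, Finset.prod_erase_mul s (fun i => ρ (t i)) h0]
  · rw [if_neg h0, measure_univ, mul_one, Finset.erase_eq_of_notMem h0]

theorem mp_shift (ρ : Measure α) [IsProbabilityMeasure ρ] (z : Site d) :
    MeasurePreserving (fun (V : Site d → α) (y : Site d) => V (y + z))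
      (Measure.infinitePi fun _ : Site d => ρ) (Measure.infinitePi fun _ : Site d => ρ) := by
  refine ⟨meas_shift z, ?_⟩
  apply Measure.eq_infinitePi
  intro s t ht
  classical
  rw [Measure.map_apply (meas_shift z)]
  swap
  · exact MeasurableSet.pi (Finset.countable_toSet s) (fun i _ => ht i)
  have hpre : (fun (V : Site d → α) (y : Site d) => V (y + z)) ⁻¹'
      ((s : Set (Site d)).pi t) =
      (((s.image (fun y => y + z) : Finset (Site d)) : Set (Site d)).pi
        (fun i => t (i - z))) := by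
    ext V
    simp only [Set.mem_preimage, Set.mem_pi, Finset.mem_coe, Finset.mem_image]
    constructor
    · rintro h i ⟨y, hy, rfl⟩
      rw [add_sub_cancel_right]
      exact h y hy
    · intro h y hy
      have := h (y + z) ⟨y, hy, rfl⟩
      rwa [add_sub_cancel_right] at this
  rw [hpre]
  rw [Measure.infinitePi_pi (fun _ => ρ) (fun i _ => ht (i - z)), Finset.prod_image]
  · refine Finset.prod_congr rfl (fun i _ => ?_)
    rw [add_sub_cancel_right]
  · intro a _ b _ h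
    exact add_right_cancel h

end res

/-! ### the pair of evolutions -/

section pair

variable {d : ℕ}

/-- first and second potential -/
def A1 (V : Site d → ℝ × ℝ) (x : Site d) : ℝ := (V x).1
def A2 (V : Site d → ℝ × ℝ) (x : Site d) : ℝ := (V x).2

lemma cont_A1 : Continuous (A1 : (Site d → ℝ × ℝ) → Site d → ℝ) := by
  unfold A1
  fun_prop

lemma cont_A2 : Continuous (A2 : (Site d → ℝ × ℝ) → Site d → ℝ) := by
  unfold A2
  fun_prop

/-- the product law of pairs -/
noncomputable def PQ (d : ℕ) (ρ : Measure (ℝ × ℝ)) [IsProbabilityMeasure ρ] :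
    Measure (Site d → ℝ × ℝ) := Measure.infinitePi fun _ => ρ

instance (ρ : Measure (ℝ × ℝ)) [IsProbabilityMeasure ρ] : IsProbabilityMeasure (PQ d ρ) := by
  unfold PQ
  infer_instance

/-- `U'(-s) U(s) δ_0` -/
noncomputable def xtau (ev : (Site d → ℝ) → UG (L2 (Site d))) (s : ℝ) (V : Site d → ℝ × ℝ) :
    L2 (Site d) :=
  (ev (A1 V)).U (-s) ((ev (A2 V)).U s (dl 0))

/-- `U(-s) U'(s) U'(-s') U(s') f` -/
noncomputable def ZZ (ev : (Site d → ℝ) → UG (L2 (Site d))) (V : Site d → ℝ × ℝ) (s s' : ℝ)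
    (f : L2 (Site d)) : L2 (Site d) :=
  (ev (A2 V)).U (-s) ((ev (A1 V)).U s ((ev (A1 V)).U (-s') ((ev (A2 V)).U s' f)))

lemma ZZ_adj (ev : (Site d → ℝ) → UG (L2 (Site d))) (V : Site d → ℝ × ℝ) (s s' : ℝ)
    (f g : L2 (Site d)) : ⟪ZZ ev V s s' f, g⟫_ℂ = ⟪f, ZZ ev V s' s g⟫_ℂ := by
  unfold ZZ
  have h : ∀ (W : UG (L2 (Site d))) (t : ℝ) (x y : L2 (Site d)),
      ⟪W.U t x, y⟫_ℂ = ⟪x, W.U (-t) y⟫_ℂ := by
    intro W t x y
    rw [STAT.inner_adj W (-t), neg_neg]
  rw [h, h, h, h]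
  simp only [neg_neg]

lemma ZZ_norm (ev : (Site d → ℝ) → UG (L2 (Site d))) (V : Site d → ℝ × ℝ) (s s' : ℝ)
    (f : L2 (Site d)) : ‖ZZ ev V s s' f‖ = ‖f‖ := by
  unfold ZZ
  rw [(ev (A2 V)).norm', (ev (A1 V)).norm', (ev (A1 V)).norm', (ev (A2 V)).norm']

theorem contU {c : ℝ} {ev : (Site d → ℝ) → UG (L2 (Site d))} (hev : ∀ V, IsGrp c V (ev V))
    {Y : Type} [TopologicalSpace Y] {V : Y → Site d → ℝ} {t : Y → ℝ} {f : Y → L2 (Site d)}
    (hV : Continuous V) (ht : Continuous t) (hf : Continuous f) :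
    Continuous fun y => (ev (V y)).U (t y) (f y) :=
  (ALL.a_CV d c ev hev).comp (hV.prodMk (ht.prodMk hf))

theorem stat2 {c : ℝ} {ev : (Site d → ℝ) → UG (L2 (Site d))} (hev : ∀ V, IsGrp c V (ev V))
    (ρ : Measure (ℝ × ℝ)) [IsProbabilityMeasure ρ] (s s' a : ℝ) :
    ∫ V, ⟪xtau ev (s + a) V, xtau ev (s' + a) V⟫_ℂ ∂(PQ d ρ) =
      ∫ V, ⟪xtau ev s V, xtau ev s' V⟫_ℂ ∂(PQ d ρ) := by
  have h1 := ALL.a_COV d c ev hev
  -- the four vectors
  set f1 : (Site d → ℝ × ℝ) → L2 (Site d) := fun V => (ev (A2 V)).U a (dl 0) with hf1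
  set g1 : (Site d → ℝ × ℝ) → L2 (Site d) :=
    fun V => ZZ ev V s s' ((ev (A2 V)).U a (dl 0)) with hg1
  set f2 : (Site d → ℝ × ℝ) → L2 (Site d) :=
    fun V => (ev (A2 V)).U (-a) (ZZ ev V s' s (dl 0)) with hf2
  set g2 : (Site d → ℝ × ℝ) → L2 (Site d) := fun V => (ev (A2 V)).U (-a) (dl 0) with hg2
  have cZ : ∀ (u u' : ℝ) (f : (Site d → ℝ × ℝ) → L2 (Site d)), Continuous f →
      Continuous fun V => ZZ ev V u u' (f V) := by
    intro u u' f hf
    unfold ZZ
    exact contU hev cont_A2 continuous_const (contU hev cont_A1 continuous_const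
      (contU hev cont_A1 continuous_const (contU hev cont_A2 continuous_const hf)))
  have cf1 : Continuous f1 := contU hev cont_A2 continuous_const continuous_const
  have cg1 : Continuous g1 := cZ s s' _ cf1
  have cf2 : Continuous f2 := contU hev cont_A2 continuous_const (cZ s' s _ continuous_const)
  have cg2 : Continuous g2 := contU hev cont_A2 continuous_const continuous_const
  have bf1 : ∀ V, ‖f1 V‖ ≤ 1 := by
    intro V
    show ‖(ev (A2 V)).U a (dl 0)‖ ≤ 1
    rw [(ev _).norm', STAT.norm_dl]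
  have bg2 : ∀ V, ‖g2 V‖ ≤ 1 := by
    intro V
    show ‖(ev (A2 V)).U (-a) (dl 0)‖ ≤ 1
    rw [(ev _).norm', STAT.norm_dl]
  have bg1 : ∀ V, ‖g1 V‖ ≤ 1 := by
    intro V
    show ‖ZZ ev V s s' ((ev (A2 V)).U a (dl 0))‖ ≤ 1
    rw [ZZ_norm, (ev _).norm', STAT.norm_dl]
  have bf2 : ∀ V, ‖f2 V‖ ≤ 1 := by
    intro V
    show ‖(ev (A2 V)).U (-a) (ZZ ev V s' s (dl 0))‖ ≤ 1
    rw [(ev _).norm', ZZ_norm, STAT.norm_dl]
  have E1 := STAT.exch (PQ d ρ) f1 g1 1
    (fun x => ((STAT.cont_eval x).comp cf1).aestronglyMeasurable)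
    (fun x => ((STAT.cont_eval x).comp cg1).aestronglyMeasurable) bf1 bg1
  have E2 := STAT.exch (PQ d ρ) f2 g2 1
    (fun x => ((STAT.cont_eval x).comp cf2).aestronglyMeasurable)
    (fun x => ((STAT.cont_eval x).comp cg2).aestronglyMeasurable) bf2 bg2
  -- covariance
  have covZ : ∀ (z : Site d) (S : L2 (Site d) →L[ℂ] L2 (Site d)), IsShift z S →
      ∀ (V : Site d → ℝ × ℝ) u u' ψ, ZZ ev (fun y => V (y + z)) u u' (S ψ) =
        S (ZZ ev V u u' ψ) := by
    intro z S hS V u u' ψ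
    unfold ZZ
    show (ev fun y => A2 V (y + z)).U (-u) ((ev fun y => A1 V (y + z)).U u
      ((ev fun y => A1 V (y + z)).U (-u') ((ev fun y => A2 V (y + z)).U u' (S ψ)))) = _
    rw [h1 z S hS (A2 V) u' ψ, h1 z S hS (A1 V) (-u'), h1 z S hS (A1 V) u,
      h1 z S hS (A2 V) (-u)]
  -- equality of the terms
  have key : ∀ x : Site d, (∫ V, conj ((f1 V) x) * (g1 V) x ∂(PQ d ρ)) =
      ∫ V, conj ((f2 V) (-x)) * (g2 V) (-x) ∂(PQ d ρ) := by
    intro x
    obtain ⟨S, hS⟩ := (t_OPS d).1 x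
    have hmp := mp_shift (d := d) ρ x
    set F : (Site d → ℝ × ℝ) → ℂ := fun V => conj (((ev (A2 V)).U a (dl (-x))) 0) *
      (ZZ ev V s s' ((ev (A2 V)).U a (dl (-x)))) 0 with hF
    have cF : Continuous F := by
      refine (Complex.continuous_conj.comp ((STAT.cont_eval 0).comp
        (contU hev cont_A2 continuous_const continuous_const))).mul ?_
      exact (STAT.cont_eval 0).comp (cZ s s' _
        (contU hev cont_A2 continuous_const continuous_const))
    have e1 : ∀ V, conj ((f1 V) x) * (g1 V) x = F (fun y => V (y + x)) := by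
      intro V
      have a1 : (ev fun y => A2 V (y + x)).U a (dl (-x)) = S ((ev (A2 V)).U a (dl 0)) := by
        rw [← STAT.shift_dl x S hS, h1 x S hS]
      have a2 : ((ev fun y => A2 V (y + x)).U a (dl (-x))) 0 = (f1 V) x := by
        rw [a1, hS, zero_add]
      have a3 : (ZZ ev (fun y => V (y + x)) s s'
          ((ev fun y => A2 V (y + x)).U a (dl (-x)))) 0 = (g1 V) x := by
        rw [a1, covZ x S hS, hS, zero_add]
      show _ = conj (((ev fun y => A2 V (y + x)).U a (dl (-x))) 0) *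
        (ZZ ev (fun y => V (y + x)) s s' ((ev fun y => A2 V (y + x)).U a (dl (-x)))) 0
      rw [a2, a3]
    have e2 : ∀ V, F V = conj ((f2 V) (-x)) * (g2 V) (-x) := by
      intro V
      have a1 : ((ev (A2 V)).U a (dl (-x))) 0 = conj ((g2 V) (-x)) := by
        rw [← STAT.inner_dl 0, STAT.inner_adj, STAT.inner_dl']
      have a2 : (ZZ ev V s s' ((ev (A2 V)).U a (dl (-x)))) 0 = conj ((f2 V) (-x)) := by
        rw [← STAT.inner_dl 0, ← ZZ_adj, STAT.inner_adj, STAT.inner_dl']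
      show conj (((ev (A2 V)).U a (dl (-x))) 0) *
        (ZZ ev V s s' ((ev (A2 V)).U a (dl (-x)))) 0 = _
      rw [a1, a2, Complex.conj_conj, mul_comm]
    calc (∫ V, conj ((f1 V) x) * (g1 V) x ∂(PQ d ρ))
        = ∫ V, F (fun y => V (y + x)) ∂(PQ d ρ) := by simp_rw [e1]
      _ = ∫ V, F V ∂(Measure.map (fun (V : Site d → ℝ × ℝ) (y : Site d) => V (y + x))
            (PQ d ρ)) := by
          rw [integral_map hmp.measurable.aemeasurable cF.aestronglyMeasurable]
      _ = ∫ V, F V ∂(PQ d ρ) := by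
          unfold PQ
          rw [hmp.map_eq]
      _ = _ := by simp_rw [e2]
  -- conclusion
  have E3 : HasSum (fun x => ∫ V, conj ((f1 V) x) * (g1 V) x ∂(PQ d ρ))
      (∫ V, ⟪f2 V, g2 V⟫_ℂ ∂(PQ d ρ)) := by
    have h := (Equiv.neg (Site d)).hasSum_iff.mpr E2
    have e : (fun x => ∫ V, conj ((f1 V) x) * (g1 V) x ∂(PQ d ρ)) =
        (fun x => ∫ V, conj ((f2 V) x) * (g2 V) x ∂(PQ d ρ)) ∘ ⇑(Equiv.neg (Site d)) :=
      funext key
    rw [e]
    exact h
  have E4 := E1.unique E3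
  have L : ∀ V, ⟪xtau ev (s + a) V, xtau ev (s' + a) V⟫_ℂ = ⟪f1 V, g1 V⟫_ℂ := by
    intro V
    have a1 : ∀ t, xtau ev (t + a) V = (ev (A1 V)).U (-a) ((ev (A1 V)).U (-t)
        ((ev (A2 V)).U t ((ev (A2 V)).U a (dl 0)))) := by
      intro t
      unfold xtau
      rw [(ev (A2 V)).add' t a, neg_add_rev, (ev (A1 V)).add' (-a) (-t)]
    rw [a1, a1, STAT.inner_UG]
    show _ = ⟪(ev (A2 V)).U a (dl 0), ZZ ev V s s' ((ev (A2 V)).U a (dl 0))⟫_ℂ
    unfold ZZ
    conv_rhs => rw [STAT.inner_adj, neg_neg, STAT.inner_adj]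
  have R : ∀ V, ⟪xtau ev s V, xtau ev s' V⟫_ℂ = ⟪f2 V, g2 V⟫_ℂ := by
    intro V
    show ⟪xtau ev s V, xtau ev s' V⟫_ℂ =
      ⟪(ev (A2 V)).U (-a) (ZZ ev V s' s (dl 0)), (ev (A2 V)).U (-a) (dl 0)⟫_ℂ
    rw [STAT.inner_UG, ZZ_adj]
    unfold xtau ZZ
    rw [STAT.inner_adj (ev (A2 V)), neg_neg, STAT.inner_adj (ev (A1 V)) s]
  simp_rw [L, R]
  exact E4

theorem cont_xtau {c : ℝ} {ev : (Site d → ℝ) → UG (L2 (Site d))}
    (hev : ∀ V, IsGrp c V (ev V)) :
    Continuous fun p : ℝ × (Site d → ℝ × ℝ) => xtau ev p.1 p.2 := by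
  unfold xtau
  exact contU hev (cont_A1.comp continuous_snd) continuous_fst.neg
    (contU hev (cont_A2.comp continuous_snd) continuous_fst continuous_const)

theorem norm_xtau (ev : (Site d → ℝ) → UG (L2 (Site d))) (s : ℝ) (V : Site d → ℝ × ℝ) :
    ‖xtau ev s V‖ = 1 := by
  unfold xtau
  rw [(ev _).norm', (ev _).norm', STAT.norm_dl]

end pair

/-! ### averages as operators -/

section avg

variable {X : Type} [NormedAddCommGroup X] [InnerProductSpace ℂ X]

theorem cont_f (W' W : UG X) (x : X) : Continuous fun s : ℝ => W'.U (-s) (W.U s x) :=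
  cont_two W' W x (fun s => -s) (fun s => s) continuous_neg continuous_id

theorem cont_b (W' W : UG X) (x : X) : Continuous fun s : ℝ => W'.U s (W.U (-s) x) :=
  cont_two W' W x (fun s => s) (fun s => -s) continuous_id continuous_neg

theorem norm_fb (W' W : UG X) (x : X) (s t : ℝ) : ‖W'.U t (W.U s x)‖ ≤ ‖x‖ := by
  rw [W'.norm', W.norm']

/-- the forward average as a bounded operator -/
noncomputable def XPL (W' W : UG X) (N : ℕ) : X →L[ℂ] X :=
  LinearMap.mkContinuous
    { toFun := xP W' W N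
      map_add' := fun x y => by
        unfold xP
        rw [← smul_add, ← intervalIntegral.integral_add
          ((cont_f W' W x).intervalIntegrable _ _) ((cont_f W' W y).intervalIntegrable _ _)]
        simp only [map_add]
      map_smul' := fun a x => by
        unfold xP
        simp only [map_smul, intervalIntegral.integral_smul, RingHom.id_apply]
        rw [smul_comm] } 1
    fun x => by
      rw [one_mul]
      exact LIMB.norm_avg _ _ (fun _ => norm_fb W' W x _ _) N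

/-- the backward average as a bounded operator -/
noncomputable def XML (W' W : UG X) (N : ℕ) : X →L[ℂ] X :=
  LinearMap.mkContinuous
    { toFun := xM W' W N
      map_add' := fun x y => by
        unfold xM
        rw [← smul_add, ← intervalIntegral.integral_add
          ((cont_b W' W x).intervalIntegrable _ _) ((cont_b W' W y).intervalIntegrable _ _)]
        simp only [map_add]
      map_smul' := fun a x => by
        unfold xM
        simp only [map_smul, intervalIntegral.integral_smul, RingHom.id_apply]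
        rw [smul_comm] } 1
    fun x => by
      rw [one_mul]
      exact LIMB.norm_avg _ _ (fun _ => norm_fb W' W x _ _) N

theorem norm_xP (W' W : UG X) (N : ℕ) (x : X) : ‖xP W' W N x‖ ≤ ‖x‖ :=
  LIMB.norm_avg _ _ (fun _ => norm_fb W' W x _ _) N

theorem norm_xM (W' W : UG X) (N : ℕ) (x : X) : ‖xM W' W N x‖ ≤ ‖x‖ :=
  LIMB.norm_avg _ _ (fun _ => norm_fb W' W x _ _) N

end avg

section shift

variable {d : ℕ} {c : ℝ} {ev : (Site d → ℝ) → UG (L2 (Site d))} {z : Site d}
  {S : L2 (Site d) →L[ℂ] L2 (Site d)}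

theorem xP_shift (hev : ∀ V, IsGrp c V (ev V)) (hS : IsShift (-z) S) (V : Site d → ℝ × ℝ)
    (N : ℕ) : xP (ev (A1 V)) (ev (A2 V)) N (dl z) =
      S (xP (ev (A1 fun y => V (y + z))) (ev (A2 fun y => V (y + z))) N (dl 0)) := by
  unfold xP
  have e := ContinuousLinearMap.intervalIntegral_comp_comm S
    ((cont_f (ev (A1 fun y => V (y + z))) (ev (A2 fun y => V (y + z)))
      (dl 0)).intervalIntegrable (μ := volume) (0 : ℝ) (N : ℝ))
  rw [map_smul]
  congr 1
  refine Eq.trans ?_ e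
  refine intervalIntegral.integral_congr fun s _ => ?_
  show (ev (A1 V)).U (-s) ((ev (A2 V)).U s (dl z)) = _
  rw [← LIMB.shift_dl z S hS, LIMB.U_shift ev ALL.a_COV hev hS,
    LIMB.U_shift ev ALL.a_COV hev hS]
  rfl

theorem xM_shift (hev : ∀ V, IsGrp c V (ev V)) (hS : IsShift (-z) S) (V : Site d → ℝ × ℝ)
    (N : ℕ) : xM (ev (A1 V)) (ev (A2 V)) N (dl z) =
      S (xM (ev (A1 fun y => V (y + z))) (ev (A2 fun y => V (y + z))) N (dl 0)) := by
  unfold xM
  have e := ContinuousLinearMap.intervalIntegral_comp_comm S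
    ((cont_b (ev (A1 fun y => V (y + z))) (ev (A2 fun y => V (y + z)))
      (dl 0)).intervalIntegrable (μ := volume) (0 : ℝ) (N : ℝ))
  rw [map_smul]
  congr 1
  refine Eq.trans ?_ e
  refine intervalIntegral.integral_congr fun s _ => ?_
  show (ev (A1 V)).U s ((ev (A2 V)).U (-s) (dl z)) = _
  rw [← LIMB.shift_dl z S hS, LIMB.U_shift ev ALL.a_COV hev hS,
    LIMB.U_shift ev ALL.a_COV hev hS]
  rfl

theorem cont_xP (hev : ∀ V, IsGrp c V (ev V)) (N : ℕ) :
    Continuous fun V : Site d → ℝ × ℝ => xP (ev (A1 V)) (ev (A2 V)) N (dl 0) := by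
  suffices key : Continuous fun V : Site d → ℝ × ℝ =>
      ∫ s in (0 : ℝ)..(N : ℝ), (ev (A1 V)).U (-s) ((ev (A2 V)).U s (dl 0)) from
    key.const_smul ((N : ℂ)⁻¹)
  refine intervalIntegral.continuous_parametric_intervalIntegral_of_continuous'
    (f := fun (V : Site d → ℝ × ℝ) (s : ℝ) => (ev (A1 V)).U (-s) ((ev (A2 V)).U s (dl 0)))
    ?_ _ _
  exact contU hev (cont_A1.comp continuous_fst) continuous_snd.neg
    (contU hev (cont_A2.comp continuous_fst) continuous_snd continuous_const)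

theorem cont_xM (hev : ∀ V, IsGrp c V (ev V)) (N : ℕ) :
    Continuous fun V : Site d → ℝ × ℝ => xM (ev (A1 V)) (ev (A2 V)) N (dl 0) := by
  suffices key : Continuous fun V : Site d → ℝ × ℝ =>
      ∫ s in (0 : ℝ)..(N : ℝ), (ev (A1 V)).U s ((ev (A2 V)).U (-s) (dl 0)) from
    key.const_smul ((N : ℂ)⁻¹)
  refine intervalIntegral.continuous_parametric_intervalIntegral_of_continuous'
    (f := fun (V : Site d → ℝ × ℝ) (s : ℝ) => (ev (A1 V)).U s ((ev (A2 V)).U (-s) (dl 0)))
    ?_ _ _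
  exact contU hev (cont_A1.comp continuous_fst) continuous_snd
    (contU hev (cont_A2.comp continuous_fst) continuous_snd.neg continuous_const)

/-- the limit of the time averages exists, and along a subsequence almost surely -/
theorem xlim (hev : ∀ V, IsGrp c V (ev V)) (ρ : Measure (ℝ × ℝ)) [IsProbabilityMeasure ρ] :
    ∃ (Nk : ℕ → ℕ) (b : (Site d → ℝ × ℝ) → L2 (Site d)), Tendsto Nk atTop atTop ∧
      Tendsto (fun N : ℕ => ∫⁻ V, ‖xP (ev (A1 V)) (ev (A2 V)) N (dl 0) - b V‖ₑ ^ 2 ∂(PQ d ρ))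
        atTop (𝓝 0) ∧
      ∀ᵐ V ∂(PQ d ρ), ∃ B : L2 (Site d) →L[ℂ] L2 (Site d),
        XGood (ev (A1 V)) (ev (A2 V)) Nk B ∧ B (dl 0) = b V := by
  obtain ⟨b, hb, hP, hM⟩ := LIMA.main (PQ d ρ) (fun s V => xtau ev s V) 1 t_ME
    (cont_xtau hev) (fun s V => (norm_xtau ev s V).le) (fun s s' a => stat2 hev ρ s s' a)
  have hP' : Tendsto (fun N : ℕ => ∫⁻ V, ‖xP (ev (A1 V)) (ev (A2 V)) N (dl 0) - b V‖ₑ ^ 2
      ∂(PQ d ρ)) atTop (𝓝 0) := hP
  have hM' : Tendsto (fun N : ℕ => ∫⁻ V, ‖xM (ev (A1 V)) (ev (A2 V)) N (dl 0) - b V‖ₑ ^ 2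
      ∂(PQ d ρ)) atTop (𝓝 0) := by
    have e : ∀ (V : Site d → ℝ × ℝ) (s : ℝ), xtau ev (-s) V =
        (ev (A1 V)).U s ((ev (A2 V)).U (-s) (dl 0)) := by
      intro V s
      unfold xtau
      rw [neg_neg]
    simp only [e] at hM
    exact hM
  have hfP : ∀ N, AEMeasurable (fun V => ‖xP (ev (A1 V)) (ev (A2 V)) N (dl 0) - b V‖ₑ ^ 2)
      (PQ d ρ) := fun N =>
    (((cont_xP hev N).aestronglyMeasurable).sub hb).enorm.pow_const 2
  have hfM : ∀ N, AEMeasurable (fun V => ‖xM (ev (A1 V)) (ev (A2 V)) N (dl 0) - b V‖ₑ ^ 2)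
      (PQ d ρ) := fun N =>
    (((cont_xM hev N).aestronglyMeasurable).sub hb).enorm.pow_const 2
  have hPM := hP'.add hM'
  rw [add_zero] at hPM
  obtain ⟨Nk, hmono, hNk⟩ := extraction_forall_of_eventually
    (P := fun n k => (∫⁻ V, ‖xP (ev (A1 V)) (ev (A2 V)) k (dl 0) - b V‖ₑ ^ 2 ∂(PQ d ρ)) +
      (∫⁻ V, ‖xM (ev (A1 V)) (ev (A2 V)) k (dl 0) - b V‖ₑ ^ 2 ∂(PQ d ρ)) < (2⁻¹ : ℝ≥0∞) ^ n)
    (fun n => (tendsto_order.1 hPM).2 _ (by
      refine ENNReal.pow_pos ?_ n
      simp))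
  refine ⟨Nk, b, hmono.tendsto_atTop, hP', ?_⟩
  have hfS : ∀ n, AEMeasurable (fun V => ‖xP (ev (A1 V)) (ev (A2 V)) (Nk n) (dl 0) - b V‖ₑ ^ 2 +
      ‖xM (ev (A1 V)) (ev (A2 V)) (Nk n) (dl 0) - b V‖ₑ ^ 2) (PQ d ρ) := fun n =>
    (hfP (Nk n)).add (hfM (Nk n))
  have hsum : ∫⁻ V, ∑' n, (‖xP (ev (A1 V)) (ev (A2 V)) (Nk n) (dl 0) - b V‖ₑ ^ 2 +
      ‖xM (ev (A1 V)) (ev (A2 V)) (Nk n) (dl 0) - b V‖ₑ ^ 2) ∂(PQ d ρ) ≠ ∞ := by
    rw [lintegral_tsum hfS]
    have hle : ∑' n, ∫⁻ V, (‖xP (ev (A1 V)) (ev (A2 V)) (Nk n) (dl 0) - b V‖ₑ ^ 2 +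
        ‖xM (ev (A1 V)) (ev (A2 V)) (Nk n) (dl 0) - b V‖ₑ ^ 2) ∂(PQ d ρ) ≤
        ∑' n : ℕ, (2⁻¹ : ℝ≥0∞) ^ n := by
      refine ENNReal.tsum_le_tsum fun n => ?_
      rw [lintegral_add_left' (hfP (Nk n))]
      exact (hNk n).le
    refine ne_top_of_le_ne_top ?_ hle
    rw [ENNReal.tsum_geometric]
    simp
  have hae := ae_lt_top' (AEMeasurable.tsum hfS) hsum
  have hG : ∀ᵐ V ∂(PQ d ρ),
      Tendsto (fun n => xP (ev (A1 V)) (ev (A2 V)) (Nk n) (dl 0)) atTop (𝓝 (b V)) ∧
      Tendsto (fun n => xM (ev (A1 V)) (ev (A2 V)) (Nk n) (dl 0)) atTop (𝓝 (b V)) := by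
    filter_upwards [hae] with V hV
    have h0 := ENNReal.tendsto_atTop_zero_of_tsum_ne_top hV.ne
    constructor
    · refine LIMB.tendsto_of_enorm_sq (tendsto_of_tendsto_of_tendsto_of_le_of_le
        tendsto_const_nhds h0 (fun _ => zero_le) fun n => ?_)
      exact le_self_add
    · refine LIMB.tendsto_of_enorm_sq (tendsto_of_tendsto_of_tendsto_of_le_of_le
        tendsto_const_nhds h0 (fun _ => zero_le) fun n => ?_)
      exact le_add_self
  have hGz : ∀ᵐ V ∂(PQ d ρ), ∀ z : Site d,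
      Tendsto (fun n => xP (ev (A1 fun y => V (y + z))) (ev (A2 fun y => V (y + z))) (Nk n)
        (dl 0)) atTop (𝓝 (b fun y => V (y + z))) ∧
      Tendsto (fun n => xM (ev (A1 fun y => V (y + z))) (ev (A2 fun y => V (y + z))) (Nk n)
        (dl 0)) atTop (𝓝 (b fun y => V (y + z))) := by
    rw [ae_all_iff]
    intro z
    exact (mp_shift (d := d) ρ z).quasiMeasurePreserving.ae hG
  filter_upwards [hGz] with V hV
  obtain ⟨B, hB⟩ := LIMB.ext_lim (fun k => XPL (ev (A1 V)) (ev (A2 V)) (Nk k))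
    (fun k => XML (ev (A1 V)) (ev (A2 V)) (Nk k)) 1 zero_le_one
    (fun k x => by rw [one_mul]; exact norm_xP _ _ _ _)
    (fun k x => by rw [one_mul]; exact norm_xM _ _ _ _)
    (Site d) dl (LIMB.dl_dense d) (fun z => by
      obtain ⟨S, hS⟩ := (t_OPS d).1 (-z)
      refine ⟨S (b fun y => V (y + z)), ?_, ?_⟩
      · have := (S.continuous.tendsto _).comp (hV z).1
        refine this.congr fun k => ?_
        show _ = xP (ev (A1 V)) (ev (A2 V)) (Nk k) (dl z)
        rw [xP_shift hev hS]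
        rfl
      · have := (S.continuous.tendsto _).comp (hV z).2
        refine this.congr fun k => ?_
        show _ = xM (ev (A1 V)) (ev (A2 V)) (Nk k) (dl z)
        rw [xM_shift hev hS]
        rfl)
  refine ⟨B, hB, ?_⟩
  have h0 := (hV 0).1
  simp only [add_zero] at h0
  exact tendsto_nhds_unique (hB (dl 0)).1 h0

end shift

end Pool.Agent.Helper26.Nb
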