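import Pool.Graph.R_seed8.H5R2.NB.ALL

/-! # Two unitary groups: intertwining time averages of a rank one family vanish -/

set_option autoImplicit false

open MeasureTheory Filter Topology
open scoped BigOperators ENNReal NNReal InnerProductSpace ComplexConjugate

namespace Pool.Agent.Helper26.Nb

open Pool.Agent.H5R2.NB

section emb

variable {ι κ : Type} (j : ι → κ)

lemma mem2 {ι : Type} (f : ι → ℂ) : Memℓp f 2 ↔ Summable fun x => ‖f x‖ ^ 2 := by
  rw [memℓp_gen_iff (by norm_num)]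
  simp

lemma summ {ι : Type} (f : L2 ι) : Summable fun x => ‖f x‖ ^ 2 := (mem2 _).1 f.2

lemma norm_sq {ι : Type} (f : L2 ι) : ‖f‖ ^ 2 = ∑' x, ‖f x‖ ^ 2 := by
  have h := lp.norm_rpow_eq_tsum (p := 2) (by norm_num) f
  simpa using h

lemma ext_fun_norm (hj : Function.Injective j) (f : ι → ℂ) :
    ((fun y => ‖Function.extend j f 0 y‖ ^ 2) ∘ j) = fun x => ‖f x‖ ^ 2 := by
  funext x
  simp only [Function.comp, hj.extend_apply]

lemma ext_fun_zero (f : ι → ℂ) (y : κ) (hy : y ∉ Set.range j) : Function.extend j f 0 y = 0 := by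
  rw [Function.extend_apply']
  · rfl
  · intro h
    exact hy h

lemma mem_ex (hj : Function.Injective j) (f : L2 ι) :
    Memℓp (fun y => Function.extend j (fun x => f x) 0 y : κ → ℂ) 2 := by
  rw [mem2]
  have h : Summable ((fun y => ‖Function.extend j (fun x => f x) (0 : κ → ℂ) y‖ ^ 2) ∘ j) := by
    rw [ext_fun_norm j hj]
    exact summ f
  refine (hj.summable_iff ?_).1 h
  intro y hy
  rw [ext_fun_zero j _ y hy]
  simp

lemma mem_re (hj : Function.Injective j) (f : L2 κ) : Memℓp (fun x => f (j x) : ι → ℂ) 2 := by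
  rw [mem2]
  exact (summ f).comp_injective hj

/-- extension by zero along an injection -/
noncomputable def ex (hj : Function.Injective j) : L2 ι →L[ℂ] L2 κ :=
  LinearMap.mkContinuous
    { toFun := fun f => ⟨fun y => Function.extend j (fun x => f x) (0 : κ → ℂ) y, mem_ex j hj f⟩
      map_add' := fun f g => by
        ext y
        show Function.extend j (fun x => (f + g) x) (0 : κ → ℂ) y =
          Function.extend j (fun x => f x) (0 : κ → ℂ) y +
            Function.extend j (fun x => g x) (0 : κ → ℂ) y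
        by_cases hy : y ∈ Set.range j
        · obtain ⟨x, rfl⟩ := hy
          rw [hj.extend_apply, hj.extend_apply, hj.extend_apply]
          simp
        · rw [ext_fun_zero j _ y hy, ext_fun_zero j _ y hy, ext_fun_zero j _ y hy, add_zero]
      map_smul' := fun c f => by
        ext y
        show Function.extend j (fun x => (c • f) x) (0 : κ → ℂ) y =
          c * Function.extend j (fun x => f x) (0 : κ → ℂ) y
        by_cases hy : y ∈ Set.range j
        · obtain ⟨x, rfl⟩ := hy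
          rw [hj.extend_apply, hj.extend_apply]
          simp
        · rw [ext_fun_zero j _ y hy, ext_fun_zero j _ y hy, mul_zero] } 1
    (fun f => by
      rw [one_mul]
      refine le_of_sq_le_sq ?_ (norm_nonneg _)
      rw [norm_sq, norm_sq]
      refine le_of_eq ?_
      have h := hj.tsum_eq (f := fun y => ‖Function.extend j (fun x => f x) 0 y‖ ^ 2) (by
        intro y hy
        by_contra h
        apply hy
        show ‖Function.extend j (fun x => f x) 0 y‖ ^ 2 = 0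
        rw [ext_fun_zero j _ y h]
        simp)
      refine h.symm.trans ?_
      refine tsum_congr fun x => ?_
      rw [hj.extend_apply])

/-- restriction along an injection -/
noncomputable def re (hj : Function.Injective j) : L2 κ →L[ℂ] L2 ι :=
  LinearMap.mkContinuous
    { toFun := fun f => ⟨fun x => f (j x), mem_re j hj f⟩
      map_add' := fun f g => by
        ext y
        rfl
      map_smul' := fun c f => by
        ext y
        rfl } 1
    (fun f => by
      rw [one_mul]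
      refine le_of_sq_le_sq ?_ (norm_nonneg _)
      rw [norm_sq, norm_sq]
      exact tsum_comp_le_tsum_of_inj (summ f) (fun _ => by positivity) hj)

lemma re_apply (hj : Function.Injective j) (f : L2 κ) (x : ι) : (re j hj f) x = f (j x) := rfl

lemma ex_apply (hj : Function.Injective j) (f : L2 ι) (x : ι) : (ex j hj f) (j x) = f x := by
  show Function.extend j (fun x => f x) 0 (j x) = f x
  rw [hj.extend_apply]

lemma ex_apply' (hj : Function.Injective j) (f : L2 ι) (y : κ) (hy : y ∉ Set.range j) :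
    (ex j hj f) y = 0 := ext_fun_zero j _ y hy

lemma re_ex (hj : Function.Injective j) (f : L2 ι) : re j hj (ex j hj f) = f := by
  ext x
  rw [re_apply, ex_apply]

lemma inner_ex (hj : Function.Injective j) (e : L2 ι) (f : L2 κ) :
    ⟪ex j hj e, f⟫_ℂ = ⟪e, re j hj f⟫_ℂ := by
  rw [lp.inner_eq_tsum, lp.inner_eq_tsum]
  have h := hj.tsum_eq (f := fun y => ⟪(ex j hj e) y, f y⟫_ℂ) (by
    intro y hy
    by_contra h
    apply hy
    show ⟪(ex j hj e) y, f y⟫_ℂ = 0
    rw [ex_apply' j hj e y h, inner_zero_left])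
  refine h.symm.trans ?_
  refine tsum_congr fun x => ?_
  rw [ex_apply, re_apply]

end emb

section two

variable {ι ι' : Type}

/-- the two copies -/
noncomputable abbrev e1 : L2 ι →L[ℂ] L2 (ι ⊕ ι') := ex Sum.inl Sum.inl_injective
noncomputable abbrev e2 : L2 ι' →L[ℂ] L2 (ι ⊕ ι') := ex Sum.inr Sum.inr_injective
noncomputable abbrev r1 : L2 (ι ⊕ ι') →L[ℂ] L2 ι := re Sum.inl Sum.inl_injective
noncomputable abbrev r2 : L2 (ι ⊕ ι') →L[ℂ] L2 ι' := re Sum.inr Sum.inr_injective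

lemma r1_e1 (f : L2 ι) : r1 (ι' := ι') (e1 f) = f := re_ex _ _ f
lemma r2_e2 (f : L2 ι') : r2 (ι := ι) (e2 f) = f := re_ex _ _ f
lemma r2_e1 (f : L2 ι) : r2 (ι' := ι') (e1 f) = 0 := by
  ext x
  rw [re_apply, ex_apply']
  · rfl
  · rintro ⟨y, hy⟩
    cases hy
lemma r1_e2 (f : L2 ι') : r1 (ι := ι) (e2 f) = 0 := by
  ext x
  rw [re_apply, ex_apply']
  · rfl
  · rintro ⟨y, hy⟩
    cases hy

lemma split (f : L2 (ι ⊕ ι')) : e1 (r1 f) + e2 (r2 f) = f := by
  ext x
  rw [lp.coeFn_add, Pi.add_apply]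
  cases x with
  | inl x =>
    have h1 := ex_apply (Sum.inl : ι → ι ⊕ ι') Sum.inl_injective (r1 f) x
    have h2 := ex_apply' (Sum.inr : ι' → ι ⊕ ι') Sum.inr_injective (r2 f) (Sum.inl x) (by
      rintro ⟨y, hy⟩
      cases hy)
    rw [h1, h2, add_zero]
    rfl
  | inr x =>
    have h1 := ex_apply (Sum.inr : ι' → ι ⊕ ι') Sum.inr_injective (r2 f) x
    have h2 := ex_apply' (Sum.inl : ι → ι ⊕ ι') Sum.inl_injective (r1 f) (Sum.inr x) (by
      rintro ⟨y, hy⟩
      cases hy)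
    rw [h1, h2, zero_add]
    rfl

lemma norm_two (a : L2 ι) (b : L2 ι') :
    ‖e1 (ι' := ι') a + e2 (ι := ι) b‖ ^ 2 = ‖a‖ ^ 2 + ‖b‖ ^ 2 := by
  have h0 : ∀ f : L2 (ι ⊕ ι'), ((‖f‖ ^ 2 : ℝ) : ℂ) = ⟪f, f⟫_ℂ := by
    intro f
    rw [inner_self_eq_norm_sq_to_K]
    norm_cast
  have h1 : ∀ f : L2 ι, ((‖f‖ ^ 2 : ℝ) : ℂ) = ⟪f, f⟫_ℂ := by
    intro f
    rw [inner_self_eq_norm_sq_to_K]
    norm_cast
  have h2 : ∀ f : L2 ι', ((‖f‖ ^ 2 : ℝ) : ℂ) = ⟪f, f⟫_ℂ := by
    intro f
    rw [inner_self_eq_norm_sq_to_K]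
    norm_cast
  have h3 : ((‖e1 (ι' := ι') a + e2 (ι := ι) b‖ ^ 2 : ℝ) : ℂ) = ((‖a‖ ^ 2 + ‖b‖ ^ 2 : ℝ) : ℂ) := by
    rw [Complex.ofReal_add, h0, h1, h2, inner_add_left, inner_ex, inner_ex, map_add, map_add]
    rw [show re Sum.inl Sum.inl_injective (e1 (ι' := ι') a) = a from r1_e1 a,
      show re Sum.inl Sum.inl_injective (e2 (ι := ι) b) = 0 from r1_e2 b,
      show re Sum.inr Sum.inr_injective (e2 (ι := ι) b) = b from r2_e2 b,
      show re Sum.inr Sum.inr_injective (e1 (ι' := ι') a) = 0 from r2_e1 a]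
    simp
  exact_mod_cast h3

lemma norm_split (f : L2 (ι ⊕ ι')) : ‖f‖ ^ 2 = ‖r1 f‖ ^ 2 + ‖r2 f‖ ^ 2 := by
  rw [← norm_two, split]

/-- direct sum of two unitary groups -/
noncomputable def dsum (W1 : UG (L2 ι)) (W2 : UG (L2 ι')) : UG (L2 (ι ⊕ ι')) where
  U := fun t => (e1.comp (W1.U t)).comp r1 + (e2.comp (W2.U t)).comp r2
  zero' := fun x => by
    simp only [_root_.add_apply, ContinuousLinearMap.comp_apply, W1.zero', W2.zero']
    exact split x
  add' := fun s t x => by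
    simp only [_root_.add_apply, ContinuousLinearMap.comp_apply, W1.add', W2.add',
      map_add, r1_e1, r1_e2, r2_e1, r2_e2, map_zero, add_zero, zero_add]
  norm' := fun t x => by
    simp only [_root_.add_apply, ContinuousLinearMap.comp_apply]
    have h := norm_two (W1.U t (r1 x)) (W2.U t (r2 x))
    rw [W1.norm', W2.norm', ← norm_split] at h
    exact (sq_eq_sq₀ (norm_nonneg _) (norm_nonneg _)).1 h
  cont' := fun x => by
    simp only [_root_.add_apply, ContinuousLinearMap.comp_apply]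
    exact (e1.continuous.comp (W1.cont' _)).add (e2.continuous.comp (W2.cont' _))

lemma dsum_e1 (W1 : UG (L2 ι)) (W2 : UG (L2 ι')) (t : ℝ) (a : L2 ι) :
    (dsum W1 W2).U t (e1 a) = e1 (W1.U t a) := by
  show e1 (W1.U t (r1 (e1 a))) + e2 (W2.U t (r2 (e1 a))) = _
  rw [r1_e1, r2_e1, map_zero, map_zero, add_zero]

lemma dsum_e2 (W1 : UG (L2 ι)) (W2 : UG (L2 ι')) (t : ℝ) (b : L2 ι') :
    (dsum W1 W2).U t (e2 b) = e2 (W2.U t b) := by
  show e1 (W1.U t (r1 (e2 b))) + e2 (W2.U t (r2 (e2 b))) = _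
  rw [r1_e2, r2_e2, map_zero, map_zero, zero_add]

lemma r1_dsum (W1 : UG (L2 ι)) (W2 : UG (L2 ι')) (t : ℝ) (x : L2 (ι ⊕ ι')) :
    r1 ((dsum W1 W2).U t x) = W1.U t (r1 x) := by
  show r1 (e1 (W1.U t (r1 x)) + e2 (W2.U t (r2 x))) = _
  rw [map_add, r1_e1, r1_e2, add_zero]

lemma r2_dsum (W1 : UG (L2 ι)) (W2 : UG (L2 ι')) (t : ℝ) (x : L2 (ι ⊕ ι')) :
    r2 ((dsum W1 W2).U t x) = W2.U t (r2 x) := by
  show r2 (e1 (W1.U t (r1 x)) + e2 (W2.U t (r2 x))) = _
  rw [map_add, r2_e1, r2_e2, zero_add]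

lemma fam_dsum (W1 : UG (L2 ι)) (U : ℝ → UG (L2 ι')) (e : L2 ι') (h : Fam U e) :
    Fam (fun κ => dsum W1 (U κ)) (e2 e) := by
  intro κ κ' t x
  have hx := split x
  have h2 := h κ κ' t (r2 x)
  have hint : ∫ s in (0 : ℝ)..t, ⟪e2 (ι := ι) e, (dsum W1 (U κ')).U s x⟫_ℂ •
      (dsum W1 (U κ)).U (t - s) (e2 e) =
      e2 (∫ s in (0 : ℝ)..t, ⟪e, (U κ').U s (r2 x)⟫_ℂ • (U κ).U (t - s) e) := by
    have hc : Continuous fun s : ℝ => ⟪e, (U κ').U s (r2 x)⟫_ℂ • (U κ).U (t - s) e := by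
      exact (Continuous.inner (𝕜 := ℂ) continuous_const ((U κ').cont' _)).smul
        (((U κ).cont' e).comp (continuous_const.sub continuous_id))
    have hE := ContinuousLinearMap.intervalIntegral_comp_comm (e2 (ι := ι) (ι' := ι'))
      (hc.intervalIntegrable (μ := volume) (0 : ℝ) t)
    refine Eq.trans ?_ hE
    refine intervalIntegral.integral_congr fun s _ => ?_
    show ⟪e2 (ι := ι) e, (dsum W1 (U κ')).U s x⟫_ℂ • (dsum W1 (U κ)).U (t - s) (e2 e) =
      e2 (⟪e, (U κ').U s (r2 x)⟫_ℂ • (U κ).U (t - s) e)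
    rw [inner_ex, dsum_e2, map_smul]
    rw [show re Sum.inr Sum.inr_injective ((dsum W1 (U κ')).U s x) = (U κ').U s (r2 x) from
      r2_dsum _ _ _ _]
  show (dsum W1 (U κ')).U t x = (dsum W1 (U κ)).U t x - (Complex.I * ((κ' - κ : ℝ) : ℂ)) •
      ∫ s in (0 : ℝ)..t, ⟪e2 (ι := ι) e, (dsum W1 (U κ')).U s x⟫_ℂ •
        (dsum W1 (U κ)).U (t - s) (e2 e)
  rw [hint]
  show e1 (W1.U t (r1 x)) + e2 ((U κ').U t (r2 x)) =
    (e1 (W1.U t (r1 x)) + e2 ((U κ).U t (r2 x))) - _
  rw [h2, map_sub, map_smul]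
  abel

/-- time averages of `U'(-s) U(s)` (forward) -/
noncomputable def xP {X : Type} [NormedAddCommGroup X] [InnerProductSpace ℂ X] (W' W : UG X)
    (N : ℕ) (x : X) : X :=
  ((N : ℂ)⁻¹) • ∫ s in (0 : ℝ)..(N : ℝ), W'.U (-s) (W.U s x)

/-- time averages of `U'(s) U(-s)` (backward) -/
noncomputable def xM {X : Type} [NormedAddCommGroup X] [InnerProductSpace ℂ X] (W' W : UG X)
    (N : ℕ) (x : X) : X :=
  ((N : ℂ)⁻¹) • ∫ s in (0 : ℝ)..(N : ℝ), W'.U s (W.U (-s) x)

/-- both averages converge strongly to `B` -/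
def XGood {X : Type} [NormedAddCommGroup X] [InnerProductSpace ℂ X] (W' W : UG X)
    (Nk : ℕ → ℕ) (B : X →L[ℂ] X) : Prop :=
  ∀ x, Tendsto (fun k => xP W' W (Nk k) x) atTop (𝓝 (B x)) ∧
    Tendsto (fun k => xM W' W (Nk k) x) atTop (𝓝 (B x))

theorem cont_two {X : Type} [NormedAddCommGroup X] [InnerProductSpace ℂ X] (W' W : UG X) (x : X)
    (f g : ℝ → ℝ) (hf : Continuous f) (hg : Continuous g) :
    Continuous fun s : ℝ => W'.U (f s) (W.U (g s) x) :=
  LIMB.cont_U W' _ ((W.cont' x).comp hg) _ hf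

/-- **Disjointness**: `W'` does not depend on the parameter `κ` of the rank one family, so the limit
of the time averages of `W'(-s) U_κ(s) e` vanishes for almost every `κ` -/
theorem xzero {ι : Type} [Countable ι] (W' : UG (L2 ι)) (U : ℝ → UG (L2 ι)) (e : L2 ι)
    (h : Fam U e) (ν : Measure ℝ) [IsProbabilityMeasure ν] (C : ℝ≥0) (hν : ν ≤ C • volume)
    (Nk : ℕ → ℕ) (hNk : Tendsto Nk atTop atTop) (B : ℝ → L2 ι →L[ℂ] L2 ι)
    (hB : ∀ᵐ κ ∂ν, XGood W' (U κ) Nk (B κ)) : ∀ᵐ κ ∂ν, B κ e = 0 := by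
  have hfam := fam_dsum (ι := ι) W' U e h
  let v : L2 (ι ⊕ ι) →L[ℂ] L2 (ι ⊕ ι) := e1.comp r2
  have hv : ∀ x, v x = e1 (r2 x) := fun x => rfl
  have hP : ∀ κ N (x : L2 (ι ⊕ ι)), avP (dsum W' (U κ)) v N x = e1 (xP W' (U κ) N (r2 x)) := by
    intro κ N x
    unfold avP xP
    rw [map_smul]
    congr 1
    have hc : Continuous fun s : ℝ => W'.U (-s) ((U κ).U s (r2 x)) :=
      cont_two W' (U κ) (r2 x) (fun s => -s) (fun s => s) continuous_neg continuous_id
    have e := ContinuousLinearMap.intervalIntegral_comp_comm (e1 (ι := ι) (ι' := ι))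
      (hc.intervalIntegrable (μ := volume) (0 : ℝ) (N : ℝ))
    refine Eq.trans ?_ e
    refine intervalIntegral.integral_congr fun s _ => ?_
    show (dsum W' (U κ)).U (-s) (e1 (r2 ((dsum W' (U κ)).U s x))) = _
    rw [dsum_e1, r2_dsum]
  have hM : ∀ κ N (x : L2 (ι ⊕ ι)), avM (dsum W' (U κ)) v N x = e1 (xM W' (U κ) N (r2 x)) := by
    intro κ N x
    unfold avM xM
    rw [map_smul]
    congr 1
    have hc : Continuous fun s : ℝ => W'.U s ((U κ).U (-s) (r2 x)) :=
      cont_two W' (U κ) (r2 x) (fun s => s) (fun s => -s) continuous_id continuous_neg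
    have e := ContinuousLinearMap.intervalIntegral_comp_comm (e1 (ι := ι) (ι' := ι))
      (hc.intervalIntegrable (μ := volume) (0 : ℝ) (N : ℝ))
    refine Eq.trans ?_ e
    refine intervalIntegral.integral_congr fun s _ => ?_
    show (dsum W' (U κ)).U s (e1 (r2 ((dsum W' (U κ)).U (-s) x))) = _
    rw [dsum_e1, r2_dsum]
  have hG : ∀ᵐ κ ∂ν, Good (dsum W' (U κ)) v Nk ((e1.comp (B κ)).comp r2) := by
    filter_upwards [hB] with κ hκ x
    constructor
    · simp only [hP]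
      exact (e1.continuous.tendsto _).comp (hκ (r2 x)).1
    · simp only [hM]
      exact (e1.continuous.tendsto _).comp (hκ (r2 x)).2
  have hpr := ALL.a_PROPR (ι ⊕ ι) (fun κ => dsum W' (U κ)) (e2 e) hfam ν C hν v Nk hNk
    (fun κ => (e1.comp (B κ)).comp r2) hG
  filter_upwards [hpr] with κ hκ
  have h1 := hκ (e1 (B κ e)) (by
    intro t
    rw [dsum_e2, inner_ex]
    rw [show re Sum.inl Sum.inl_injective (e2 (ι := ι) ((U 0).U t e)) = 0 from r1_e2 _]
    exact inner_zero_right _)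
  simp only [ContinuousLinearMap.comp_apply, r2_e2] at h1
  rw [inner_ex] at h1
  rw [show re Sum.inl Sum.inl_injective (e1 (ι' := ι) (B κ e)) = B κ e from r1_e1 _] at h1
  exact inner_self_eq_zero.1 h1

end two

end Pool.Agent.Helper26.Nb
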