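import Pool.Agent.Helper26.Nb.Main

/-! # Characters on unit cubes of `ℝ^d` -/

set_option autoImplicit false

open MeasureTheory Filter Topology ProbabilityTheory
open scoped BigOperators ENNReal NNReal InnerProductSpace ComplexConjugate

namespace Pool.Agent.Helper26.Nb

open Pool.Agent.H5R2.NB

variable {d : ℕ}

/-- `exp(2πi k·x)` -/
noncomputable def ee (k : Fin d → ℝ) (x : Site d) : ℂ :=
  Complex.exp (2 * Real.pi * Complex.I * ∑ i : Fin d, (k i : ℂ) * (x i : ℂ))

lemma ee_norm (k : Fin d → ℝ) (x : Site d) : ‖ee k x‖ = 1 := by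
  unfold ee
  have : (2 * Real.pi * Complex.I * ∑ i : Fin d, (k i : ℂ) * (x i : ℂ) : ℂ) =
      ((2 * Real.pi * ∑ i : Fin d, k i * (x i : ℝ) : ℝ) : ℂ) * Complex.I := by
    push_cast
    ring
  rw [this]
  exact Complex.norm_exp_ofReal_mul_I _

lemma ee_meas (x : Site d) : Measurable fun k : Fin d → ℝ => ee k x := by
  unfold ee
  fun_prop

lemma ee_add (k : Fin d → ℝ) (x y : Site d) : ee k (x + y) = ee k x * ee k y := by
  unfold ee
  rw [← Complex.exp_add]
  congr 1
  rw [← mul_add, ← Finset.sum_add_distrib]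
  congr 1
  refine Finset.sum_congr rfl fun i _ => ?_
  rw [Pi.add_apply]
  push_cast
  ring

lemma ee_conj (k : Fin d → ℝ) (x : Site d) : conj (ee k x) = ee k (-x) := by
  unfold ee
  rw [← Complex.exp_conj]
  congr 1
  simp only [map_mul, map_sum, Complex.conj_I, Complex.conj_ofReal, Pi.neg_apply, map_ofNat,
    map_intCast]
  push_cast
  simp only [mul_neg, Finset.sum_neg_distrib, neg_mul]

lemma int_one (a : ℤ) (n : ℤ) :
    ∫ t in Set.Ioc (a : ℝ) (a + 1), Complex.exp (2 * Real.pi * Complex.I * ((t : ℂ) * (n : ℂ))) =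
      if n = 0 then 1 else 0 := by
  rw [← intervalIntegral.integral_of_le (by linarith)]
  by_cases hn : n = 0
  · subst hn
    simp
  · rw [if_neg hn]
    have hc : (2 * Real.pi * Complex.I * (n : ℂ) : ℂ) ≠ 0 := by
      have : (n : ℂ) ≠ 0 := by exact_mod_cast hn
      simp [Real.pi_ne_zero, Complex.I_ne_zero, this]
    have e : ∀ t : ℝ, Complex.exp (2 * Real.pi * Complex.I * ((t : ℂ) * (n : ℂ))) =
        Complex.exp ((2 * Real.pi * Complex.I * (n : ℂ)) * t) := by
      intro t
      congr 1
      ring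
    simp only [e]
    rw [integral_exp_mul_complex hc]
    have e1 : Complex.exp ((2 * Real.pi * Complex.I * (n : ℂ)) * ((a + 1 : ℝ) : ℂ)) = 1 := by
      have : (2 * Real.pi * Complex.I * (n : ℂ)) * ((a + 1 : ℝ) : ℂ) =
          ((n * (a + 1) : ℤ) : ℂ) * (2 * Real.pi * Complex.I) := by
        push_cast
        ring
      rw [this, Complex.exp_int_mul_two_pi_mul_I]
    have e2 : Complex.exp ((2 * Real.pi * Complex.I * (n : ℂ)) * ((a : ℝ) : ℂ)) = 1 := by
      have : (2 * Real.pi * Complex.I * (n : ℂ)) * ((a : ℝ) : ℂ) =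
          ((n * a : ℤ) : ℂ) * (2 * Real.pi * Complex.I) := by
        push_cast
        ring
      rw [this, Complex.exp_int_mul_two_pi_mul_I]
    rw [e1, e2, sub_self, zero_div]

/-- the cube with corner `a` -/
def cube (a : Fin d → ℤ) : Set (Fin d → ℝ) := Set.univ.pi fun i => Set.Ioc (a i : ℝ) (a i + 1)

lemma cube_measure (a : Fin d → ℤ) :
    (volume : Measure (Fin d → ℝ)).restrict (cube a) =
      Measure.pi fun i => (volume : Measure ℝ).restrict (Set.Ioc (a i : ℝ) (a i + 1)) :=
  Measure.restrict_pi_pi _ _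

instance cube_prob (a : Fin d → ℤ) :
    IsProbabilityMeasure ((volume : Measure (Fin d → ℝ)).restrict (cube a)) := by
  have : ∀ i, IsProbabilityMeasure
      ((volume : Measure ℝ).restrict (Set.Ioc (a i : ℝ) (a i + 1))) := by
    intro i
    refine ⟨?_⟩
    rw [Measure.restrict_apply_univ, Real.volume_Ioc]
    simp
  rw [cube_measure]
  infer_instance

theorem bes_cube (a : Fin d → ℤ) :
    Bes ((volume : Measure (Fin d → ℝ)).restrict (cube a)) (ee (d := d)) := by
  refine ⟨ee_meas, ee_norm, fun x y => ?_⟩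
  have e1 : ∀ k : Fin d → ℝ, conj (ee k x) * ee k y =
      ∏ i, Complex.exp (2 * Real.pi * Complex.I * ((k i : ℂ) * (((y - x) i : ℤ) : ℂ))) := by
    intro k
    rw [ee_conj, ← ee_add, ← Complex.exp_sum]
    unfold ee
    congr 1
    rw [Finset.mul_sum]
    refine Finset.sum_congr rfl fun i _ => ?_
    rw [Pi.add_apply, Pi.neg_apply, Pi.sub_apply]
    push_cast
    ring
  simp only [e1]
  rw [cube_measure]
  rw [integral_fintype_prod_eq_prod (𝕜 := ℂ) (fun (i : Fin d) (t : ℝ) =>
    Complex.exp (2 * Real.pi * Complex.I * ((t : ℂ) * (((y - x) i : ℤ) : ℂ))))]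
  simp only [int_one]
  by_cases h : x = y
  · subst h
    simp
  · rw [if_neg h]
    have : ∃ i, (y - x) i ≠ 0 := by
      by_contra hc
      push Not at hc
      apply h
      funext i
      have := hc i
      rw [Pi.sub_apply] at this
      omega
    obtain ⟨i, hi⟩ := this
    exact Finset.prod_eq_zero (Finset.mem_univ i) (if_neg hi)

lemma cover : (⋃ a : Fin d → ℤ, cube a) = Set.univ := by
  refine Set.eq_univ_of_forall fun k => ?_
  rw [Set.mem_iUnion]
  refine ⟨fun i => ⌈k i⌉ - 1, fun i _ => ?_⟩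
  simp only [Set.mem_Ioc]
  push_cast
  constructor
  · have := Int.ceil_lt_add_one (k i)
    linarith
  · have := Int.le_ceil (k i)
    linarith

theorem ae_of_cubes {p : (Fin d → ℝ) → Prop}
    (h : ∀ a : Fin d → ℤ, ∀ᵐ k ∂((volume : Measure (Fin d → ℝ)).restrict (cube a)), p k) :
    ∀ᵐ k : Fin d → ℝ, p k := by
  have h1 := (ae_restrict_iUnion_iff (μ := (volume : Measure (Fin d → ℝ)))
    (fun a : Fin d → ℤ => cube a) p).2 h
  rwa [cover, Measure.restrict_univ] at h1

theorem fibre_none_volume {c : ℝ} {C : ℝ≥0} {ν : Measure ℝ} [IsProbabilityMeasure ν]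
    (hν : ν ≤ C • volume) :
    ∀ᵐ k : Fin d → ℝ, ∀ (E : ℝ) (φ : (Site d → ℝ) → ℂ), MemLp φ 2 (PP d ν) →
      (∀ᵐ V ∂(PP d ν), ∀ x, hopf c (Bl (ee k) φ V) x + V x * Bl (ee k) φ V x =
        E * Bl (ee k) φ V x) → φ =ᵐ[PP d ν] 0 :=
  ae_of_cubes fun a => fibre_none (c := c) hν (bes_cube a)

/-! ### two independent copies -/

theorem pair_law (ν ν' : Measure ℝ) [IsProbabilityMeasure ν] [IsProbabilityMeasure ν'] :
    (PQ d (ν.prod ν')).map (fun V => (A1 V, A2 V)) = (PP d ν).prod (PP d ν') := by
  classical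
  have hm : Measurable fun V : Site d → ℝ × ℝ => (A1 V, A2 V) :=
    cont_A1.measurable.prodMk cont_A2.measurable
  have hp : IsProbabilityMeasure (PP d ν) := by unfold PP; infer_instance
  have hp' : IsProbabilityMeasure (PP d ν') := by unfold PP; infer_instance
  set C : Set (Set (Site d → ℝ)) :=
    squareCylinders fun _ : Site d => {s : Set ℝ | MeasurableSet s} with hC
  have hgen : MeasurableSpace.generateFrom C = MeasurableSpace.pi := generateFrom_squareCylinders
  have hpi : IsPiSystem C := by
    refine isPiSystem_squareCylinders (fun i => MeasurableSpace.isPiSystem_measurableSet) ?_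
    intro i
    exact (MeasurableSet.univ : MeasurableSet (Set.univ : Set ℝ))
  have huniv : (Set.univ : Set (Site d → ℝ)) ∈ C := by
    refine ⟨∅, fun _ => Set.univ, ?_, by simp⟩
    intro i _
    exact (MeasurableSet.univ : MeasurableSet (Set.univ : Set ℝ))
  have fs : ∀ (P : Measure (Site d → ℝ)) [IsProbabilityMeasure P], P.FiniteSpanningSetsIn C := by
    intro P _
    refine ⟨fun _ => Set.univ, fun _ => huniv, fun _ => ?_, Set.iUnion_const _⟩
    rw [measure_univ]
    exact ENNReal.one_lt_top
  symm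
  refine Measure.prod_eq_generateFrom hgen hgen hpi hpi (fs _) (fs _) ?_
  intro s hs t ht
  obtain ⟨S, a, ha, rfl⟩ := hs
  obtain ⟨T, b, hb, rfl⟩ := ht
  have ha' : ∀ i, MeasurableSet (a i) := fun i => ha i (Set.mem_univ i)
  have hb' : ∀ i, MeasurableSet (b i) := fun i => hb i (Set.mem_univ i)
  have mS : MeasurableSet ((S : Set (Site d)).pi a) :=
    MeasurableSet.pi (Finset.countable_toSet S) fun i _ => ha' i
  have mT : MeasurableSet ((T : Set (Site d)).pi b) :=
    MeasurableSet.pi (Finset.countable_toSet T) fun i _ => hb' i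
  rw [Measure.map_apply hm (mS.prod mT)]
  have hpre : (fun V : Site d → ℝ × ℝ => (A1 V, A2 V)) ⁻¹'
      (((S : Set (Site d)).pi a) ×ˢ ((T : Set (Site d)).pi b)) =
      (((S ∪ T : Finset (Site d)) : Set (Site d)).pi fun i =>
        (if i ∈ S then a i else Set.univ) ×ˢ (if i ∈ T then b i else Set.univ)) := by
    ext V
    simp only [Set.mem_preimage, Set.mem_prod, Set.mem_pi, Finset.mem_coe, Finset.mem_union]
    constructor
    · rintro ⟨h1, h2⟩ i _
      constructor
      · split_ifs with h3
        · exact h1 i h3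
        · trivial
      · split_ifs with h3
        · exact h2 i h3
        · trivial
    · intro h
      constructor
      · intro i hi
        have := (h i (Or.inl hi)).1
        rwa [if_pos hi] at this
      · intro i hi
        have := (h i (Or.inr hi)).2
        rwa [if_pos hi] at this
  rw [hpre]
  unfold PQ PP
  have hmi : ∀ i, MeasurableSet ((if i ∈ S then a i else Set.univ) ×ˢ
      (if i ∈ T then b i else Set.univ) : Set (ℝ × ℝ)) := by
    intro i
    refine MeasurableSet.prod ?_ ?_
    · split_ifs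
      · exact ha' i
      · exact MeasurableSet.univ
    · split_ifs
      · exact hb' i
      · exact MeasurableSet.univ
  rw [Measure.infinitePi_pi (fun _ => ν.prod ν') (fun i _ => hmi i),
    Measure.infinitePi_pi (fun _ => ν) (fun i _ => ha' i),
    Measure.infinitePi_pi (fun _ => ν') (fun i _ => hb' i)]
  simp only [Measure.prod_prod]
  rw [Finset.prod_mul_distrib]
  congr 1
  · rw [← Finset.prod_subset (Finset.subset_union_left (s₁ := S) (s₂ := T))]
    · refine Finset.prod_congr rfl fun i hi => ?_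
      rw [if_pos hi]
    · intro i _ hi
      rw [if_neg hi, measure_univ]
  · rw [← Finset.prod_subset (Finset.subset_union_right (s₁ := S) (s₂ := T))]
    · refine Finset.prod_congr rfl fun i hi => ?_
      rw [if_pos hi]
    · intro i _ hi
      rw [if_neg hi, measure_univ]

end Pool.Agent.Helper26.Nb
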